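import Pool.Agent.H.MP_c41128_gt.Final

/-!
# A cocompact Fuchsian subgroup of Thurston's lattice `Δ₅` that misses the collision divisor

Arithmetic model (Shimura, Deligne-Mostow, Thurston, Yamazaki-Yoshida): `Δ₅` is the projective
unitary group of `diag(1, 1, (1-√5)/2)` over `ℤ[ζ]`, `ζ = exp(2πi/5)`; the congruence subgroup
modulo `1-ζ` is the subgroup for labelled cone points; the complex hyperbolic plane is the set of
negative lines; the preimage of `D` is the union of the complex geodesics orthogonal to the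
vectors of norm one in `ℤ[ζ]³`.
-/

namespace Pool.Agent.H.MP_c41128_gt.ArithVersion

open Matrix

/-- `ζ = exp(2πi/5)`. -/
noncomputable def zeta5 : ℂ := Complex.exp (2 * Real.pi * Complex.I / 5)

/-- The ring `ℤ[ζ]`. -/
noncomputable def Zzeta : Subring ℂ := Subring.closure {zeta5}

/-- The Hermitian form `x₀ȳ₀ + x₁ȳ₁ + ((1-√5)/2) x₂ȳ₂`, of signature `(2,1)`. -/
noncomputable def herm (x y : Fin 3 → ℂ) : ℂ :=
  x 0 * star (y 0) + x 1 * star (y 1) + (((1 - Real.sqrt 5) / 2 : ℝ) : ℂ) * (x 2 * star (y 2))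

/-- The congruence subgroup `Γ(1-ζ)` of the unitary group of `herm` over `ℤ[ζ]`: the matrices `g`
preserving `herm` such that both `g` and `g⁻¹` are congruent to the identity modulo
`(1-ζ)ℤ[ζ]`. -/
def GammaPure : Subgroup (GL (Fin 3) ℂ) where
  carrier := {g | (∀ i j, ∃ a ∈ Zzeta, g.val i j = (1 : Matrix (Fin 3) (Fin 3) ℂ) i j
      + (1 - zeta5) * a) ∧
    (∀ i j, ∃ a ∈ Zzeta, (g⁻¹).val i j = (1 : Matrix (Fin 3) (Fin 3) ℂ) i j
      + (1 - zeta5) * a) ∧
    ∀ x y, herm (g.val *ᵥ x) (g.val *ᵥ y) = herm x y}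
  one_mem' := by
    refine ⟨fun i j => ⟨0, Zzeta.zero_mem, by simp⟩, fun i j => ⟨0, Zzeta.zero_mem, by simp⟩, ?_⟩
    intro x y; simp
  mul_mem' := by
    have key : ∀ A B : Matrix (Fin 3) (Fin 3) ℂ,
        (∀ i j, ∃ a ∈ Zzeta, A i j = (1 : Matrix (Fin 3) (Fin 3) ℂ) i j + (1 - zeta5) * a) →
        (∀ i j, ∃ a ∈ Zzeta, B i j = (1 : Matrix (Fin 3) (Fin 3) ℂ) i j + (1 - zeta5) * a) →
        (∀ i j, ∃ a ∈ Zzeta, (A * B) i j = (1 : Matrix (Fin 3) (Fin 3) ℂ) i j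
          + (1 - zeta5) * a) := by
      intro A B hA hB i j
      choose a ha ha2 using hA
      choose b hb hb2 using hB
      have hz : (1 - zeta5) ∈ Zzeta :=
        Zzeta.sub_mem Zzeta.one_mem (Subring.subset_closure (Set.mem_singleton _))
      have hA' : A = 1 + (1 - zeta5) • Matrix.of a := by
        ext i j; simp [ha2]
      have hB' : B = 1 + (1 - zeta5) • Matrix.of b := by
        ext i j; simp [hb2]
      refine ⟨(Matrix.of a + Matrix.of b + (1 - zeta5) • (Matrix.of a * Matrix.of b)) i j, ?_, ?_⟩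
      · simp only [Matrix.add_apply, Matrix.smul_apply, Matrix.mul_apply, Matrix.of_apply,
          smul_eq_mul]
        exact Zzeta.add_mem (Zzeta.add_mem (ha i j) (hb i j)) (Zzeta.mul_mem hz
          (Zzeta.sum_mem fun k _ => Zzeta.mul_mem (ha i k) (hb k j)))
      · rw [hA', hB']
        have : (1 + (1 - zeta5) • Matrix.of a) * (1 + (1 - zeta5) • Matrix.of b) =
          1 + (1 - zeta5) • (Matrix.of a + Matrix.of b + (1 - zeta5) • (Matrix.of a * Matrix.of b)) := by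
          simp only [Matrix.add_mul, Matrix.mul_add, Matrix.one_mul, Matrix.mul_one,
            Matrix.smul_mul, Matrix.mul_smul, smul_add]
          abel
        rw [this]
        simp
        ring
    rintro g k ⟨hg1, hg2, hg3⟩ ⟨hk1, hk2, hk3⟩
    refine ⟨?_, ?_, ?_⟩
    · rw [Units.val_mul]; exact key _ _ hg1 hk1
    · rw [_root_.mul_inv_rev, Units.val_mul]; exact key _ _ hk2 hg2
    · intro x y
      rw [Units.val_mul, ← Matrix.mulVec_mulVec, ← Matrix.mulVec_mulVec, hg3, hk3]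
  inv_mem' := by
    rintro g ⟨hg1, hg2, hg3⟩
    refine ⟨hg2, by rwa [inv_inv], ?_⟩
    intro x y
    have h := hg3 ((g⁻¹).val *ᵥ x) ((g⁻¹).val *ᵥ y)
    have h1 : g.val * (g⁻¹).val = 1 := by rw [← Units.val_mul, mul_inv_cancel, Units.val_one]
    rw [Matrix.mulVec_mulVec, Matrix.mulVec_mulVec, h1, Matrix.one_mulVec, Matrix.one_mulVec] at h
    exact h.symm

/-- `F` is a cocompact `ℝ`-Fuchsian group with invariant totally real plane the image of the
negative vectors of the real subspace `V` of `ℂ³`: `V` has real dimension three, is totally real,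
`herm` takes real values on it and takes a negative value; the elements of `F` have determinant
one and map `V` to itself; and there is a compact set `K` of negative vectors of `V` such that
every negative vector of `V` is mapped into `ℝˣ K` by an element of `F`. -/
def IsCocompactFuchsian (V : Submodule ℝ (Fin 3 → ℂ)) (F : Subgroup (GL (Fin 3) ℂ)) : Prop :=
  Module.finrank ℝ V = 3 ∧ (∀ x ∈ V, Complex.I • x ∈ V → x = 0) ∧
  (∀ x ∈ V, ∀ y ∈ V, (herm x y).im = 0) ∧ (∃ x ∈ V, (herm x x).re < 0) ∧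
  (∀ g ∈ F, g.val.det = 1 ∧ (∀ x y, herm (g.val *ᵥ x) (g.val *ᵥ y) = herm x y) ∧
    ∀ x ∈ V, g.val *ᵥ x ∈ V) ∧
  ∃ K : Set (Fin 3 → ℂ), IsCompact K ∧ (∀ x ∈ K, x ∈ V ∧ (herm x x).re < 0) ∧
    ∀ x ∈ V, (herm x x).re < 0 → ∃ g ∈ F, ∃ c : ℝ, c ≠ 0 ∧ (c : ℂ) • (g.val *ᵥ x) ∈ K

/-- The vectors `v` of norm one in `ℤ[ζ]³`; the preimage of `D` in the complex hyperbolic plane
is the union of the complex geodesics orthogonal to them. -/
def IsCollision (v : Fin 3 → ℂ) : Prop := (∀ i, v i ∈ Zzeta) ∧ herm v v = 1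

open Pool.Agent.H.MP_c41128_gt in
lemma herm_eq (x y : Fin 3 → ℂ) : herm x y = hF ((1 - phi : ℝ) : ℂ) x y := by
  have : ((1 - Real.sqrt 5) / 2 : ℝ) = 1 - phi := by unfold phi; ring
  simp only [herm, hF, this]

open Pool.Agent.H.MP_c41128_gt in
lemma mem_Zzeta {z : ℂ} : z ∈ Zzeta ↔ ∃ a : Z5 ℤ, ev a = z := by
  constructor
  · intro h
    have : Zzeta ≤ ev.range := by
      rw [Zzeta, Subring.closure_le]
      rintro _ rfl
      refine ⟨⟨0, 1, 0, 0⟩, ?_⟩
      rw [ev_apply]; simp [zeta, zeta5]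
    exact this h
  · rintro ⟨a, rfl⟩
    have hz : zeta ∈ Zzeta := Subring.subset_closure (Set.mem_singleton _)
    rw [ev_apply]
    have hi : ∀ n : ℤ, (n : ℂ) ∈ Zzeta := fun n => intCast_mem Zzeta n
    exact Zzeta.add_mem (Zzeta.add_mem (Zzeta.add_mem (hi _) (Zzeta.mul_mem (hi _) hz))
      (Zzeta.mul_mem (hi _) (Zzeta.pow_mem hz 2))) (Zzeta.mul_mem (hi _) (Zzeta.pow_mem hz 3))

open Pool.Agent.H.MP_c41128_gt in
/-- The stabiliser of the plane in `Γ(1-ζ)`, with determinant one. -/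
def FF : Subgroup (GL (Fin 3) ℂ) where
  carrier := {g | g ∈ GammaPure ∧ g.val.det = 1 ∧ (∀ x ∈ VV, g.val *ᵥ x ∈ VV) ∧
    ∀ x ∈ VV, (g⁻¹).val *ᵥ x ∈ VV}
  one_mem' := ⟨GammaPure.one_mem, by simp, by simp, by simp⟩
  mul_mem' := by
    rintro g k ⟨hg1, hg2, hg3, hg4⟩ ⟨hk1, hk2, hk3, hk4⟩
    refine ⟨GammaPure.mul_mem hg1 hk1, ?_, ?_, ?_⟩
    · rw [Units.val_mul, Matrix.det_mul, hg2, hk2, one_mul]
    · intro x hx
      rw [Units.val_mul, ← Matrix.mulVec_mulVec]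
      exact hg3 _ (hk3 _ hx)
    · intro x hx
      rw [_root_.mul_inv_rev, Units.val_mul, ← Matrix.mulVec_mulVec]
      exact hk4 _ (hg4 _ hx)
  inv_mem' := by
    rintro g ⟨hg1, hg2, hg3, hg4⟩
    refine ⟨GammaPure.inv_mem hg1, ?_, hg4, by rwa [inv_inv]⟩
    have h1 : (g⁻¹).val * g.val = 1 := by rw [← Units.val_mul, inv_mul_cancel, Units.val_one]
    have h2 := congrArg Matrix.det h1
    rw [Matrix.det_mul, hg2, mul_one, Matrix.det_one] at h2
    exact h2

open Pool.Agent.H.MP_c41128_gt in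
lemma rho_mem_FF {B : GL (Fin 3) (Z5 ℤ)} (hB : B ∈ W) (h : redG B = 1) : rho B ∈ FF := by
  have hlam : ev lam = 1 - zeta5 := by
    rw [ev_apply]; simp [lam, zeta, zeta5]; ring
  have key : ∀ C : GL (Fin 3) (Z5 ℤ), redG C = 1 → ∀ i j, ∃ a ∈ Zzeta,
      (rho C).val i j = (1 : Matrix (Fin 3) (Fin 3) ℂ) i j + (1 - zeta5) * a := by
    intro C hC i j
    obtain ⟨M, hM⟩ := rho_cong hC
    refine ⟨ev (M i j), mem_Zzeta.mpr ⟨_, rfl⟩, ?_⟩
    rw [hM]
    simp [hlam]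
  have hinv : redG B⁻¹ = 1 := by rw [map_inv, h, inv_one]
  have hBi := W.inv_mem hB
  refine ⟨⟨key B h, ?_, ?_⟩, det_rho hB h, ?_, ?_⟩
  · rw [← map_inv]; exact key _ hinv
  · intro x y
    rw [herm_eq, herm_eq, ← ev_eta, rho_hF hB]
  · rintro x ⟨t, rfl⟩
    change (rho B).val *ᵥ emb t ∈ VV
    rw [← emb_act hB]; exact ⟨_, rfl⟩
  · rintro x ⟨t, rfl⟩
    change ((rho B)⁻¹).val *ᵥ emb t ∈ VV
    rw [← map_inv, ← emb_act hBi]; exact ⟨_, rfl⟩

/-- There is a cocompact `ℝ`-Fuchsian subgroup `F` of the congruence subgroup `Γ(1-ζ)` whose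
invariant plane is disjoint from all complex geodesics orthogonal to vectors of norm one in
`ℤ[ζ]³`. -/
theorem result : ∃ (V : Submodule ℝ (Fin 3 → ℂ)) (F : Subgroup (GL (Fin 3) ℂ)),
    F ≤ GammaPure ∧ IsCocompactFuchsian V F ∧
    ∀ x ∈ V, (herm x x).re < 0 → ∀ v, IsCollision v → herm x v ≠ 0 := by
  open Pool.Agent.H.MP_c41128_gt in
  refine ⟨VV, FF, fun g hg => hg.1, ⟨finrank_VV, fun x h1 h2 => VV_totally_real h1 h2, ?_, ?_, ?_,
    KK, isCompact_KK, ?_, ?_⟩, ?_⟩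
  · rintro x ⟨s, rfl⟩ y ⟨t, rfl⟩
    change (herm (emb s) (emb t)).im = 0
    rw [herm_eq, hF_emb, Complex.ofReal_im]
  · refine ⟨emb x0R, ⟨_, rfl⟩, ?_⟩
    rw [herm_eq, hF_emb, Complex.ofReal_re]
    exact Bf_x0
  · rintro g ⟨hg1, hg2, hg3, -⟩
    exact ⟨hg2, hg1.2.2, hg3⟩
  · intro x hx
    rw [herm_eq]; exact KK_sub hx
  · intro x hx hneg
    rw [herm_eq] at hneg
    obtain ⟨B, hB, hB1, c, hc, hcK⟩ := cocompact hx hneg
    exact ⟨rho B, rho_mem_FF hB hB1, c, hc, hcK⟩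
  · rintro x hx hneg v ⟨hv1, hv2⟩
    choose a ha using fun i => mem_Zzeta.mp (hv1 i)
    have hv : v = ev ∘ a := by funext i; exact (ha i).symm
    rw [herm_eq] at hneg hv2 ⊢
    subst hv
    refine misses hx hneg ?_
    apply ev_injective
    rw [← map_hF ev_star, ev_eta, hv2, map_one]

end Pool.Agent.H.MP_c41128_gt.ArithVersion
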