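import Pool.Agent.H.MP_c41128_gt.Herm

namespace Pool.Agent.H.MP_c41128_gt

lemma ev_eta : ev etaZ = ((1 - phi : ℝ) : ℂ) := by
  rw [ev_apply]; simp only [etaZ]; push_cast
  linear_combination zeta_add2

lemma ev2_eta : ev2 etaZ = ((phi : ℝ) : ℂ) := by
  rw [ev2_apply]; simp only [etaZ]; push_cast
  linear_combination zeta_add + zeta * zeta_pow5

lemma hF_self (r : ℝ) (x : Fin 3 → ℂ) :
    hF (r : ℂ) x x = ((‖x 0‖ ^ 2 + ‖x 1‖ ^ 2 + r * ‖x 2‖ ^ 2 : ℝ) : ℂ) := by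
  simp only [hF, Complex.star_def, Complex.mul_conj']
  push_cast; ring

lemma cs2 (a b c d : ℂ) :
    ‖a * star b + c * star d‖ ^ 2 ≤ (‖a‖ ^ 2 + ‖c‖ ^ 2) * (‖b‖ ^ 2 + ‖d‖ ^ 2) := by
  have h1 : ‖a * star b + c * star d‖ ≤ ‖a‖ * ‖b‖ + ‖c‖ * ‖d‖ := by
    refine (norm_add_le _ _).trans ?_
    simp [norm_mul]
  have h0 := norm_nonneg (a * star b + c * star d)
  have h2 : ‖a * star b + c * star d‖ ^ 2 ≤ (‖a‖ * ‖b‖ + ‖c‖ * ‖d‖) ^ 2 := by gcongr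
  nlinarith [sq_nonneg (‖a‖ * ‖d‖ - ‖c‖ * ‖b‖)]

/-- vectors orthogonal to a negative vector are non-negative -/
lemma signature {x w : Fin 3 → ℂ} (hx : (hF ((1 - phi : ℝ) : ℂ) x x).re < 0)
    (hw : hF ((1 - phi : ℝ) : ℂ) x w = 0) : 0 ≤ (hF ((1 - phi : ℝ) : ℂ) w w).re := by
  rw [hF_self, Complex.ofReal_re] at hx ⊢
  have hphi := lt_phi
  by_contra hneg
  push Not at hneg
  have h1 : x 0 * star (w 0) + x 1 * star (w 1) = ((phi - 1 : ℝ) : ℂ) * (x 2 * star (w 2)) := by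
    simp only [hF] at hw
    push_cast at hw ⊢
    linear_combination hw
  have h2 := cs2 (x 0) (w 0) (x 1) (w 1)
  rw [h1] at h2
  have h3 : ‖((phi - 1 : ℝ) : ℂ) * (x 2 * star (w 2))‖ = (phi - 1) * (‖x 2‖ * ‖w 2‖) := by
    rw [norm_mul, norm_mul, Complex.norm_real, norm_star, Real.norm_of_nonneg (by linarith)]
  rw [h3] at h2
  have hc : 0 < phi - 1 := by linarith
  set X := ‖x 0‖ ^ 2 + ‖x 1‖ ^ 2 with hX
  set W := ‖w 0‖ ^ 2 + ‖w 1‖ ^ 2 with hW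
  have hX0 : 0 ≤ X := by positivity
  have hW0 : 0 ≤ W := by positivity
  have hxx : X < (phi - 1) * ‖x 2‖ ^ 2 := by linarith
  have hww : W < (phi - 1) * ‖w 2‖ ^ 2 := by linarith
  have : X * W < ((phi - 1) * ‖x 2‖ ^ 2) * ((phi - 1) * ‖w 2‖ ^ 2) :=
    mul_lt_mul'' hxx hww hX0 hW0
  nlinarith

lemma map_hF {K : Type*} [CommRing K] [StarRing K] {f : Z5 ℤ →+* K}
    (hf : ∀ x, f (star x) = star (f x)) (v w : Fin 3 → Z5 ℤ) :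
    hF (f etaZ) (f ∘ v) (f ∘ w) = f (hF etaZ v w) := by
  simp [hF, hf]

lemma map_tv {K : Type*} [CommRing K] [StarRing K] {f : Z5 ℤ →+* K}
    (hf : ∀ x, f (star x) = star (f x)) (v : Fin 3 → Z5 ℤ) :
    tv f (f ∘ v) = f ∘ (tv (RingHom.id _) v) := by
  funext i; simp [tv, hf]

/-- `Q(v) = h(v, N v̄)` -/
def Q (v : Fin 3 → Z5 ℤ) : Z5 ℤ := hF etaZ v (tv (RingHom.id _) v)

lemma map_Q {K : Type*} [CommRing K] [StarRing K] {f : Z5 ℤ →+* K}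
    (hf : ∀ x, f (star x) = star (f x)) (v : Fin 3 → Z5 ℤ) :
    hF (f etaZ) (f ∘ v) (tv f (f ∘ v)) = f (Q v) := by
  rw [map_tv hf, map_hF hf, Q]

/-- bound at the definite place -/
lemma bound2 {v : Fin 3 → Z5 ℤ} (hv : hF etaZ v v = 1) : ‖ev2 (Q v)‖ ^ 2 ≤ 16 := by
  have h1 : hF (ev2 etaZ) (ev2 ∘ v) (ev2 ∘ v) = 1 := by rw [map_hF ev2_star, hv, map_one]
  have h2 := hF_W ev2_star (ev2 ∘ v) h1 (ev2 (Q v)) (map_Q ev2_star v)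
  rw [ev2_eta, hF_self, Complex.star_def, Complex.mul_conj'] at h2
  have h3 := congrArg Complex.re h2
  rw [Complex.ofReal_re] at h3
  have h4 : (16 * (16 - (‖ev2 (Q v)‖ : ℂ) ^ 2)).re = 16 * (16 - ‖ev2 (Q v)‖ ^ 2) := by
    have : (16 * (16 - (‖ev2 (Q v)‖ : ℂ) ^ 2)) = ((16 * (16 - ‖ev2 (Q v)‖ ^ 2) : ℝ) : ℂ) := by
      push_cast; ring
    rw [this, Complex.ofReal_re]
  rw [h4] at h3
  have h5 : 0 ≤ 16 * (16 - ‖ev2 (Q v)‖ ^ 2) := by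
    rw [← h3]
    have := lt_phi
    positivity
  linarith

/-- bound at the indefinite place -/
lemma bound1 {v : Fin 3 → Z5 ℤ} (hv : hF etaZ v v = 1) {x : Fin 3 → ℂ}
    (hxt : tv ev x = (4 : ℂ) • x) (hx : (hF ((1 - phi : ℝ) : ℂ) x x).re < 0)
    (hxv : hF ((1 - phi : ℝ) : ℂ) x (ev ∘ v) = 0) : ‖ev (Q v)‖ ^ 2 ≤ 16 := by
  have h1 : hF (ev etaZ) (ev ∘ v) (ev ∘ v) = 1 := by rw [map_hF ev_star, hv, map_one]
  have h2 := hF_W ev_star (ev ∘ v) h1 (ev (Q v)) (map_Q ev_star v)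
  have hxtv : hF (ev etaZ) x (tv ev (ev ∘ v)) = 0 := by
    have h := hF_tv ev_star x (ev ∘ v)
    rw [hxt, hF_smul_left, ev_eta, hxv] at h
    rw [ev_eta]
    simpa using h
  have hxW : hF ((1 - phi : ℝ) : ℂ) x ((16 : ℂ) • (ev ∘ v) - ev (Q v) • tv ev (ev ∘ v)) = 0 := by
    rw [ev_eta] at hxtv
    rw [hF_sub_right, hF_smul_right, hF_smul_right, hxv, hxtv]; simp
  have h5 := signature hx hxW
  rw [← ev_eta, h2, Complex.star_def, Complex.mul_conj'] at h5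
  have h4 : (16 * (16 - (‖ev (Q v)‖ : ℂ) ^ 2)).re = 16 * (16 - ‖ev (Q v)‖ ^ 2) := by
    have : (16 * (16 - (‖ev (Q v)‖ : ℂ) ^ 2)) = ((16 * (16 - ‖ev (Q v)‖ ^ 2) : ℝ) : ℂ) := by
      push_cast; ring
    rw [this, Complex.ofReal_re]
  rw [h4] at h5
  linarith

/-- equality at the definite place -/
lemma eq_of_norm2 {v : Fin 3 → Z5 ℤ} (hv : hF etaZ v v = 1) (hρ : Q v * star (Q v) = 16) :
    (16 : Z5 ℤ) • v = Q v • tv (RingHom.id _) v := by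
  have h1 : hF etaZ ((16 : Z5 ℤ) • v - Q v • tv (RingHom.id _) v)
      ((16 : Z5 ℤ) • v - Q v • tv (RingHom.id _) v) = 0 := by
    have h2 := hF_W (f := RingHom.id (Z5 ℤ)) (fun x => rfl) v hv (Q v) rfl
    rw [hρ] at h2
    simpa using h2
  set w := (16 : Z5 ℤ) • v - Q v • tv (RingHom.id _) v with hw
  have h3 : hF (ev2 etaZ) (ev2 ∘ w) (ev2 ∘ w) = 0 := by rw [map_hF ev2_star, h1, map_zero]
  rw [ev2_eta, hF_self] at h3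
  have h4 : ‖(ev2 ∘ w) 0‖ ^ 2 + ‖(ev2 ∘ w) 1‖ ^ 2 + phi * ‖(ev2 ∘ w) 2‖ ^ 2 = 0 := by
    exact_mod_cast h3
  have hphi := lt_phi
  have h0 : ‖(ev2 ∘ w) 0‖ ^ 2 = 0 := by
    nlinarith [sq_nonneg ‖(ev2 ∘ w) 0‖, sq_nonneg ‖(ev2 ∘ w) 1‖, sq_nonneg ‖(ev2 ∘ w) 2‖]
  have h1 : ‖(ev2 ∘ w) 1‖ ^ 2 = 0 := by
    nlinarith [sq_nonneg ‖(ev2 ∘ w) 0‖, sq_nonneg ‖(ev2 ∘ w) 1‖, sq_nonneg ‖(ev2 ∘ w) 2‖]
  have h2 : ‖(ev2 ∘ w) 2‖ ^ 2 = 0 := by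
    nlinarith [sq_nonneg ‖(ev2 ∘ w) 0‖, sq_nonneg ‖(ev2 ∘ w) 1‖, sq_nonneg ‖(ev2 ∘ w) 2‖]
  have key : ∀ i, ‖(ev2 ∘ w) i‖ ^ 2 = 0 → w i = 0 := by
    intro i hi
    have : ev2 (w i) = 0 := by simpa using hi
    exact ev2_injective (by rw [this, map_zero])
  have hw0 : w = 0 := by
    funext i
    fin_cases i
    · exact key 0 h0
    · exact key 1 h1
    · exact key 2 h2
  rw [hw] at hw0
  exact sub_eq_zero.mp hw0

end Pool.Agent.H.MP_c41128_gt
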