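import Pool.Agent.H.MP_c41128_gt.DataR

namespace Pool.Agent.H.MP_c41128_gt

lemma chk3 : ∀ s : Fin 60, 45 ≤ s.val → s.val < 60 → ∀ j : Fin 3,
    FR s * rfm j = un (us s j) • wmat (wd s j) (FR (nx s j)) := by decide +kernel

end Pool.Agent.H.MP_c41128_gt
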