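import Pool.Agent.H.MP_c41128_gt.Sub

namespace Pool.Agent.H.MP_c41128_gt

open Matrix

/-- the embedding of `ℝ³` onto the totally real subspace -/
noncomputable def emb (t : Fin 3 → ℝ) : Fin 3 → ℂ := EC *ᵥ (fun i => (t i : ℂ))

/-- the form in coordinates -/
noncomputable def Bf (s t : Fin 3 → ℝ) : ℝ :=
  (32 + 16 * phi) * (s 0 * t 0) + 16 * (s 1 * t 1) + 16 * (s 2 * t 2)
    - (16 + 8 * phi) * (s 0 * t 2 + s 2 * t 0) - 8 * (s 1 * t 2 + s 2 * t 1)

lemma hF_emb (s t : Fin 3 → ℝ) :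
    hF ((1 - phi : ℝ) : ℂ) (emb s) (emb t) = (Bf s t : ℂ) := by
  have hst : star (fun i => (t i : ℂ)) = fun i => (t i : ℂ) := by
    funext i; simp
  have h00 : ev ⟨32, 0, -16, -16⟩ = 32 + 16 * phi := by
    rw [ev_apply]; push_cast; linear_combination (-16 : ℂ) * zeta_add2
  have h02 : ev ⟨-16, 0, 8, 8⟩ = -(16 + 8 * phi) := by
    rw [ev_apply]; push_cast; linear_combination (8 : ℂ) * zeta_add2
  have h01 : ev ⟨0, 0, 0, 0⟩ = 0 := by rw [ev_apply]; simp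
  have h11 : ev ⟨16, 0, 0, 0⟩ = 16 := by rw [ev_apply]; simp
  have h12 : ev ⟨-8, 0, 0, 0⟩ = -8 := by rw [ev_apply]; simp
  rw [← ev_eta, emb, emb, hF_E, hst]
  simp only [dotProduct, Matrix.mulVec, Fin.sum_univ_three, GC, GG, Matrix.map_apply,
    Matrix.of_apply, Matrix.cons_val', Matrix.cons_val_zero, Matrix.cons_val_one,
    Matrix.cons_val, h00, h01, h02, h11, h12, Bf]
  push_cast
  ring

lemma Bf_signature {s t : Fin 3 → ℝ} (hs : Bf s s < 0) (hst : Bf s t = 0) : 0 ≤ Bf t t := by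
  have h := signature (x := emb s) (w := emb t) (by rw [hF_emb]; simpa using hs)
    (by rw [hF_emb, hst]; simp)
  rw [hF_emb] at h
  simpa using h

lemma Bf_comm (s t : Fin 3 → ℝ) : Bf s t = Bf t s := by unfold Bf; ring

lemma Bf_add_smul (s t e : Fin 3 → ℝ) (k : ℝ) : Bf s (t + k • e) = Bf s t + k * Bf s e := by
  simp [Bf]; ring

/-- the reduction inequality -/
lemma reduce {t x0 e : Fin 3 → ℝ} {k : ℝ} (ht : Bf t t < 0) (hx0 : Bf x0 x0 < 0)
    (htx : Bf t x0 < 0) (hk : 0 < k) (hke : k * Bf e e ≤ -2 * Bf x0 e) (hxe : Bf x0 e < 0)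
    (hmin : |Bf t x0| ≤ |Bf t (x0 + k • e)|) : Bf t e ≤ 0 := by
  by_contra hpos
  push Not at hpos
  rw [Bf_add_smul, abs_of_neg htx] at hmin
  by_cases hc : k * Bf t e < - Bf t x0
  · rw [abs_of_neg (by linarith)] at hmin
    have : 0 < k * Bf t e := mul_pos hk hpos
    linarith
  · push Not at hc
    set l := - Bf t x0 / Bf t e with hl
    have hl0 : 0 < l := div_pos (by linarith) hpos
    have hlk : l ≤ k := by
      rw [hl, div_le_iff₀ hpos]; exact hc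
    have h1 : Bf t (x0 + l • e) = 0 := by
      rw [Bf_add_smul, hl]; field_simp; ring
    have h2 := Bf_signature ht h1
    have h3 : Bf (x0 + l • e) (x0 + l • e) = Bf x0 x0 + l * (2 * Bf x0 e + l * Bf e e) := by
      simp [Bf]; ring
    have h4 : 2 * Bf x0 e + l * Bf e e ≤ 0 := by
      rcases le_total 0 (Bf e e) with h | h
      · have : l * Bf e e ≤ k * Bf e e := by gcongr
        linarith
      · have : l * Bf e e ≤ 0 := mul_nonpos_of_nonneg_of_nonpos hl0.le h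
        linarith
    have h5 : l * (2 * Bf x0 e + l * Bf e e) ≤ 0 := mul_nonpos_of_nonneg_of_nonpos hl0.le h4
    linarith

/-- the basis vectors -/
def ej (j : Fin 3) : Fin 3 → ℝ := Pi.single j 1

/-- the compact fundamental set -/
def TT : Set (Fin 3 → ℝ) := {t | Bf t t = -1 ∧ ∀ j, Bf t (ej j) ≤ 0}

lemma continuous_Bf_left (e : Fin 3 → ℝ) : Continuous fun t : Fin 3 → ℝ => Bf t e := by
  unfold Bf; fun_prop

lemma continuous_Bf_self : Continuous fun t : Fin 3 → ℝ => Bf t t := by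
  unfold Bf; fun_prop

lemma Bf_ej (t : Fin 3 → ℝ) : Bf t (ej 0) = (32 + 16 * phi) * t 0 - (16 + 8 * phi) * t 2 ∧
    Bf t (ej 1) = 16 * t 1 - 8 * t 2 ∧
    Bf t (ej 2) = 16 * t 2 - (16 + 8 * phi) * t 0 - 8 * t 1 := by
  refine ⟨?_, ?_, ?_⟩ <;> simp [Bf, ej]

lemma le_of_mul_self {y c : ℝ} (hc : 0 ≤ c) (h : y * y ≤ c * c) : y ≤ c := by
  by_contra hlt
  push Not at hlt
  nlinarith

lemma TT_bound {t : Fin 3 → ℝ} (ht : t ∈ TT) :
    (0 ≤ t 0 ∧ t 0 ≤ 10) ∧ (0 ≤ t 1 ∧ t 1 ≤ 10) ∧ (0 ≤ t 2 ∧ t 2 ≤ 10) := by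
  obtain ⟨h1, h2⟩ := ht
  obtain ⟨e0, e1, e2⟩ := Bf_ej t
  have f0 := h2 0
  have f1 := h2 1
  have f2 := h2 2
  rw [e0] at f0
  rw [e1] at f1
  rw [e2] at f2
  have hp := phi_sq
  have hlt := phi_lt
  have hgt := lt_phi
  obtain ⟨y0, hy0⟩ : ∃ y, y = -((32 + 16 * phi) * t 0 - (16 + 8 * phi) * t 2) := ⟨_, rfl⟩
  obtain ⟨y1, hy1⟩ : ∃ y, y = -(16 * t 1 - 8 * t 2) := ⟨_, rfl⟩
  obtain ⟨y2, hy2⟩ : ∃ y, y = -(16 * t 2 - (16 + 8 * phi) * t 0 - 8 * t 1) := ⟨_, rfl⟩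
  have g0 : 0 ≤ y0 := by linarith
  have g1 : 0 ≤ y1 := by linarith
  have g2 : 0 ≤ y2 := by linarith
  have t0 : 16 * t 0 = (6 * phi - 3) / 5 * y0 + phi * y1 + 2 * phi * y2 := by
    rw [hy0, hy1, hy2]; linear_combination (16 / 5 * t 0 - 48 / 5 * t 2) * hp
  have t1 : 16 * t 1 = phi * y0 + (phi - 1) * y1 + 2 * phi * y2 := by
    rw [hy0, hy1, hy2]; linear_combination (-8 * t 2) * hp
  have t2 : 16 * t 2 = 2 * phi * y0 + 2 * phi * y1 + 4 * phi * y2 := by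
    rw [hy0, hy1, hy2]; linear_combination (-16 * t 2) * hp
  have hsum : t 0 * y0 + t 1 * y1 + t 2 * y2 = 1 := by
    have : Bf t t = -(t 0 * y0 + t 1 * y1 + t 2 * y2) := by
      rw [hy0, hy1, hy2]; simp only [Bf]; ring
    linarith
  have p01 : 0 ≤ phi * y1 := by positivity
  have p02 : 0 ≤ phi * y2 := by positivity
  have p00 : 0 ≤ phi * y0 := by positivity
  have p10 : 0 ≤ (phi - 1.618) * y0 := mul_nonneg (by linarith) g0
  have p11 : 0 ≤ (phi - 1.618) * y1 := mul_nonneg (by linarith) g1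
  have p12 : 0 ≤ (phi - 1.618) * y2 := mul_nonneg (by linarith) g2
  have q0 : y0 ≤ 16 * t 0 := by linarith
  have q1 : y1 ≤ 32 * t 1 := by linarith
  have q2 : y2 ≤ 4 * t 2 := by linarith
  have s0 : 0 ≤ t 0 := by linarith
  have s1 : 0 ≤ t 1 := by linarith
  have s2 : 0 ≤ t 2 := by linarith
  have m0 : 0 ≤ t 0 * y0 := mul_nonneg s0 g0
  have m1 : 0 ≤ t 1 * y1 := mul_nonneg s1 g1
  have m2 : 0 ≤ t 2 * y2 := mul_nonneg s2 g2
  have w0 := mul_le_mul_of_nonneg_right q0 g0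
  have w1 := mul_le_mul_of_nonneg_right q1 g1
  have w2 := mul_le_mul_of_nonneg_right q2 g2
  have r0 : y0 ≤ 4 := le_of_mul_self (by norm_num) (by linarith)
  have r1 : y1 ≤ 6 := le_of_mul_self (by norm_num) (by linarith)
  have r2 : y2 ≤ 2 := le_of_mul_self (by norm_num) (by linarith)
  have k0 : phi * y0 ≤ 1.62 * 4 := by gcongr
  have k1 : phi * y1 ≤ 1.62 * 6 := by gcongr
  have k2 : phi * y2 ≤ 1.62 * 2 := by gcongr
  refine ⟨⟨s0, ?_⟩, ⟨s1, ?_⟩, ⟨s2, ?_⟩⟩ <;> linarith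

lemma isCompact_TT : IsCompact TT := by
  apply Metric.isCompact_of_isClosed_isBounded
  · have h1 : IsClosed {t : Fin 3 → ℝ | Bf t t = -1} := isClosed_eq continuous_Bf_self continuous_const
    have h2 : IsClosed {t : Fin 3 → ℝ | ∀ j, Bf t (ej j) ≤ 0} := by
      have : {t : Fin 3 → ℝ | ∀ j, Bf t (ej j) ≤ 0} = ⋂ j, {t | Bf t (ej j) ≤ 0} := by
        ext t; simp
      rw [this]
      exact isClosed_iInter fun j => isClosed_le (continuous_Bf_left _) continuous_const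
    exact h1.inter h2
  · rw [isBounded_iff_forall_norm_le]
    refine ⟨10, fun t ht => ?_⟩
    obtain ⟨⟨a0, b0⟩, ⟨a1, b1⟩, ⟨a2, b2⟩⟩ := TT_bound ht
    rw [pi_norm_le_iff_of_nonneg (by norm_num)]
    intro i
    fin_cases i
    · simpa [abs_of_nonneg a0] using b0
    · simpa [abs_of_nonneg a1] using b1
    · simpa [abs_of_nonneg a2] using b2

end Pool.Agent.H.MP_c41128_gt
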