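import Pool.Agent.H.MP_c41128_gt.Mini

namespace Pool.Agent.H.MP_c41128_gt

open Matrix

/-- reduction modulo 40 -/
def red : Z5 ℤ →+* Z5 (ZMod 40) := Z5.map (Int.castRingHom (ZMod 40))

/-- reduction modulo 40 of matrices -/
noncomputable def redG : GL (Fin 3) (Z5 ℤ) →* GL (Fin 3) (Z5 (ZMod 40)) :=
  Matrix.GeneralLinearGroup.map red

instance : Finite (Z5 (ZMod 40)) := by
  refine Finite.of_injective (fun z : Z5 (ZMod 40) => ((z.a, z.b), (z.c, z.d))) ?_
  intro x y h
  simp only [Prod.mk.injEq] at h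
  ext
  · exact h.1.1
  · exact h.1.2
  · exact h.2.1
  · exact h.2.2

instance : Finite (Matrix (Fin 3) (Fin 3) (Z5 (ZMod 40))) :=
  inferInstanceAs (Finite (Fin 3 → Fin 3 → Z5 (ZMod 40)))

instance : Finite (GL (Fin 3) (Z5 (ZMod 40))) :=
  Finite.of_injective (fun A => A.val) Units.val_injective

lemma red_eq_zero {x : Z5 ℤ} (h : red x = 0) : ∃ y, x = 40 * y := by
  have h2 : (⟨x.a, x.b, x.c, x.d⟩ : Z5 (ZMod 40)) = 0 := h
  simp only [Z5.ext_iff, Z5.zero_a, Z5.zero_b, Z5.zero_c, Z5.zero_d] at h2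
  obtain ⟨ha, hb, hc, hd⟩ := h2
  rw [ZMod.intCast_zmod_eq_zero_iff_dvd] at ha hb hc hd
  obtain ⟨a, ha⟩ := ha
  obtain ⟨b, hb⟩ := hb
  obtain ⟨c, hc⟩ := hc
  obtain ⟨d, hd⟩ := hd
  refine ⟨⟨a, b, c, d⟩, ?_⟩
  ext <;> simp <;> assumption

lemma redG_eq_one {A : GL (Fin 3) (Z5 ℤ)} (h : redG A = 1) :
    ∃ A' : Matrix (Fin 3) (Fin 3) (Z5 ℤ), A.val = 1 + (40 : Z5 ℤ) • A' := by
  have h2 : A.val.map red = 1 := congrArg Units.val h
  have h3 : ∀ i j, ∃ y, A.val i j - (1 : Matrix (Fin 3) (Fin 3) (Z5 ℤ)) i j = 40 * y := by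
    intro i j
    apply red_eq_zero
    have h4 := congrFun (congrFun h2 i) j
    simp only [Matrix.map_apply] at h4
    rw [map_sub, h4, Matrix.one_apply, Matrix.one_apply]
    split_ifs <;> simp
  choose A' hA' using h3
  refine ⟨Matrix.of A', ?_⟩
  ext1 i j
  have := hA' i j
  simp only [Matrix.add_apply, Matrix.smul_apply, Matrix.of_apply, smul_eq_mul]
  linear_combination this

lemma rho_cong {A : GL (Fin 3) (Z5 ℤ)} (h : redG A = 1) :
    ∃ M : Matrix (Fin 3) (Fin 3) (Z5 ℤ), (rho A).val = 1 + (lam • M).map ev := by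
  obtain ⟨A', hA'⟩ := redG_eq_one h
  refine ⟨EE * A' * MM, ?_⟩
  have h1 : EC * (EG⁻¹).val = 1 := EG.val_inv
  have h2 : (EG⁻¹).val = (1 / 40 : ℂ) • (lam • MM).map ev := rfl
  have h3 : A.val.map ev = 1 + (40 : ℂ) • A'.map ev := by
    rw [hA']
    ext i j
    simp only [Matrix.map_apply, Matrix.add_apply, Matrix.smul_apply, Matrix.one_apply,
      smul_eq_mul, map_add, map_mul]
    rw [map_ofNat]
    split_ifs <;> simp
  rw [rho_val, h3, Matrix.mul_add, Matrix.mul_one, Matrix.add_mul, h1, h2]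
  congr 1
  have h4 : (lam • MM).map ev = ev lam • MM.map ev := by
    ext i j; simp
  have h5 : (lam • (EE * A' * MM)).map ev = ev lam • (EC * A'.map ev * MM.map ev) := by
    have h6 : EC * A'.map ev * MM.map ev = (EE * A' * MM).map ev := by
      rw [Matrix.map_mul, Matrix.map_mul]; rfl
    rw [h6]
    ext i j
    simp only [Matrix.map_apply, Matrix.smul_apply, smul_eq_mul, map_mul]
  rw [h4, h5]
  simp only [Matrix.mul_smul, Matrix.smul_mul, smul_smul]
  congr 1
  ring

lemma det_of_cong {A : GL (Fin 3) (Z5 ℤ)} (hA : A ∈ W) (h : redG A = 1) : A.val.det = 1 := by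
  have h1 : A.val.det ^ 2 = 1 := by
    have h2 := congrArg Matrix.det hA.2
    rw [Matrix.det_mul, Matrix.det_mul, Matrix.det_transpose] at h2
    have h3 : GG.det ≠ 0 := by
      rw [Matrix.det_fin_three]; decide +kernel
    have h4 : ev GG.det * (ev (A.val.det ^ 2) - 1) = 0 := by
      rw [mul_sub, ← map_mul, mul_one, ← map_sub, ← map_zero ev]
      congr 1
      linear_combination h2
    rcases mul_eq_zero.mp h4 with h5 | h5
    · exfalso; exact h3 (ev_injective (by rw [h5, map_zero]))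
    · apply ev_injective; rw [map_one]; linear_combination h5
  have h2 : red A.val.det = 1 := by
    have h3 : A.val.map red = 1 := congrArg Units.val h
    rw [RingHom.map_det]
    change (A.val.map red).det = 1
    rw [h3, Matrix.det_one]
  have h3 : ev (A.val.det - 1) * ev (A.val.det + 1) = 0 := by
    rw [← map_mul, ← map_zero ev]
    congr 1
    linear_combination h1
  rcases mul_eq_zero.mp h3 with h5 | h5
  · have := ev_injective (h5.trans (map_zero ev).symm)
    linear_combination this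
  · exfalso
    have h6 := ev_injective (h5.trans (map_zero ev).symm)
    have h7 : A.val.det = -1 := by linear_combination h6
    rw [h7] at h2
    revert h2
    decide

lemma det_rho {A : GL (Fin 3) (Z5 ℤ)} (hA : A ∈ W) (h : redG A = 1) : (rho A).val.det = 1 := by
  have h1 : EC * (EG⁻¹).val = 1 := EG.val_inv
  have h2 := congrArg Matrix.det h1
  rw [Matrix.det_mul, Matrix.det_one] at h2
  rw [rho_val, Matrix.det_mul, Matrix.det_mul]
  have h3 : (A.val.map ev).det = 1 := by
    have := det_of_cong hA h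
    have h4 := RingHom.map_det ev A.val
    rw [this, map_one] at h4
    exact h4.symm
  rw [h3, mul_one, h2]

end Pool.Agent.H.MP_c41128_gt
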