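import Pool.Agent.H.MP_c41128_gt.Mini

namespace Pool.Agent.H.MP_c41128_gt

open Matrix

/-- the half twists (indices 0 to 3) and their inverses (indices 4 to 7) -/
def RZm : Fin 8 → Matrix (Fin 3) (Fin 3) (Z5 ℤ) := ![
  Matrix.of ![![⟨0, 0, 0, -1⟩, ⟨0, 0, 0, 0⟩, ⟨0, 0, 0, 0⟩],
    ![⟨0, 0, 0, 0⟩, ⟨1, 0, 0, 0⟩, ⟨0, 0, 0, 0⟩],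
    ![⟨0, 0, 0, 0⟩, ⟨0, 0, 0, 0⟩, ⟨1, 0, 0, 0⟩]],
  Matrix.of ![![⟨1, 1, 1, 0⟩, ⟨0, 1, 1, 0⟩, ⟨0, -1, -1, 0⟩],
    ![⟨0, 1, 1, 0⟩, ⟨1, 1, 1, 0⟩, ⟨0, -1, -1, 0⟩],
    ![⟨1, 2, 2, 1⟩, ⟨1, 2, 2, 1⟩, ⟨0, -2, -2, -1⟩]],
  Matrix.of ![![⟨1, 0, 0, 0⟩, ⟨0, 0, 0, 0⟩, ⟨0, 0, 0, 0⟩],
    ![⟨0, 0, 0, 0⟩, ⟨0, 0, 0, -1⟩, ⟨0, 0, 0, 0⟩],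
    ![⟨0, 0, 0, 0⟩, ⟨0, 0, 0, 0⟩, ⟨1, 0, 0, 0⟩]],
  Matrix.of ![![⟨1, 0, 0, 0⟩, ⟨0, 0, 0, 0⟩, ⟨0, 0, 0, 0⟩],
    ![⟨0, 0, 0, 0⟩, ⟨1, 1, 1, 0⟩, ⟨-1, -1, -1, -1⟩],
    ![⟨0, 0, 0, 0⟩, ⟨0, 1, 1, 0⟩, ⟨0, -1, -1, -1⟩]],
  Matrix.of ![![⟨0, 0, -1, 0⟩, ⟨0, 0, 0, 0⟩, ⟨0, 0, 0, 0⟩],
    ![⟨0, 0, 0, 0⟩, ⟨1, 0, 0, 0⟩, ⟨0, 0, 0, 0⟩],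
    ![⟨0, 0, 0, 0⟩, ⟨0, 0, 0, 0⟩, ⟨1, 0, 0, 0⟩]],
  Matrix.of ![![⟨0, -1, -1, 0⟩, ⟨-1, -1, -1, 0⟩, ⟨1, 1, 1, 0⟩],
    ![⟨-1, -1, -1, 0⟩, ⟨0, -1, -1, 0⟩, ⟨1, 1, 1, 0⟩],
    ![⟨-1, -2, -1, 0⟩, ⟨-1, -2, -1, 0⟩, ⟨2, 2, 1, 0⟩]],
  Matrix.of ![![⟨1, 0, 0, 0⟩, ⟨0, 0, 0, 0⟩, ⟨0, 0, 0, 0⟩],
    ![⟨0, 0, 0, 0⟩, ⟨0, 0, -1, 0⟩, ⟨0, 0, 0, 0⟩],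
    ![⟨0, 0, 0, 0⟩, ⟨0, 0, 0, 0⟩, ⟨1, 0, 0, 0⟩]],
  Matrix.of ![![⟨1, 0, 0, 0⟩, ⟨0, 0, 0, 0⟩, ⟨0, 0, 0, 0⟩],
    ![⟨0, 0, 0, 0⟩, ⟨0, -1, -1, 0⟩, ⟨0, 1, 0, 0⟩],
    ![⟨0, 0, 0, 0⟩, ⟨-1, -1, -1, 0⟩, ⟨1, 1, 0, 0⟩]]]

/-- action of a word in the half twists on a matrix -/
def wmat : List (Fin 8) → Matrix (Fin 3) (Fin 3) (Z5 ℤ) → Matrix (Fin 3) (Fin 3) (Z5 ℤ)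
  | [], M => M
  | i :: l, M => RZm i * wmat l M

/-- the units `±ζ^k` -/
def un : Fin 10 → Z5 ℤ := ![⟨1, 0, 0, 0⟩, ⟨-1, 0, 0, 0⟩, ⟨0, 1, 0, 0⟩, ⟨0, -1, 0, 0⟩, ⟨0, 0, 1, 0⟩, ⟨0, 0, -1, 0⟩, ⟨0, 0, 0, 1⟩, ⟨0, 0, 0, -1⟩, ⟨-1, -1, -1, -1⟩, ⟨1, 1, 1, 1⟩]

/-- the sixty frames -/
def FR : Fin 60 → Matrix (Fin 3) (Fin 3) (Z5 ℤ) := ![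
  Matrix.of ![![⟨-5, -5, 0, 0⟩, ⟨0, 2, 0, 1⟩, ⟨2, 2, 0, 0⟩],
    ![⟨0, -1, 1, 0⟩, ⟨-1, -3, 1, 1⟩, ⟨0, 2, -2, 0⟩],
    ![⟨-2, 0, 0, 2⟩, ⟨0, 2, 2, 0⟩, ⟨0, 0, 0, 0⟩]],
  Matrix.of ![![⟨-5, -5, 0, 0⟩, ⟨0, -2, 0, -1⟩, ⟨3, 3, 0, 0⟩],
    ![⟨0, -1, 1, 0⟩, ⟨1, 3, -1, -1⟩, ⟨0, -1, 1, 0⟩],
    ![⟨-2, 0, 0, 2⟩, ⟨0, -2, -2, 0⟩, ⟨2, 0, 0, -2⟩]],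
  Matrix.of ![![⟨-5, -5, 0, 0⟩, ⟨0, -2, 0, -1⟩, ⟨2, 4, 0, 1⟩],
    ![⟨-2, -1, 2, 1⟩, ⟨0, 3, 1, -1⟩, ⟨0, -1, -1, -1⟩],
    ![⟨-1, -4, -5, 0⟩, ⟨-1, -1, 1, 0⟩, ⟨-1, 1, 1, 0⟩]],
  Matrix.of ![![⟨-2, -3, 3, 2⟩, ⟨1, 1, 1, -1⟩, ⟨0, 2, -2, 0⟩],
    ![⟨-2, 0, 1, 1⟩, ⟨1, 0, 2, 4⟩, ⟨0, 0, -2, -2⟩],
    ![⟨-2, 0, 0, 2⟩, ⟨0, 2, 2, 0⟩, ⟨0, 0, 0, 0⟩]],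
  Matrix.of ![![⟨-5, -5, 0, 0⟩, ⟨0, 2, 0, 1⟩, ⟨3, 1, 0, -1⟩],
    ![⟨-2, -1, 2, 1⟩, ⟨0, -3, -1, 1⟩, ⟨2, 2, -1, 0⟩],
    ![⟨-3, -4, 1, 1⟩, ⟨0, -2, -1, -1⟩, ⟨1, 2, -2, -2⟩]],
  Matrix.of ![![⟨-3, -1, 2, 2⟩, ⟨-2, -2, 0, -1⟩, ⟨3, 1, 0, -1⟩],
    ![⟨-1, -3, 3, 1⟩, ⟨1, 2, 0, -1⟩, ⟨0, 1, -1, 0⟩],
    ![⟨-1, 1, 3, 2⟩, ⟨0, -1, 0, -2⟩, ⟨1, 2, -1, 0⟩]],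
  Matrix.of ![![⟨-2, -2, 0, 4⟩, ⟨0, 0, 2, 2⟩, ⟨-1, 0, -2, -4⟩],
    ![⟨0, -2, 0, 2⟩, ⟨2, 0, 0, -2⟩, ⟨0, 1, 1, 0⟩],
    ![⟨-2, 0, 0, 2⟩, ⟨-2, 0, 2, 0⟩, ⟨1, -1, -1, 0⟩]],
  Matrix.of ![![⟨-3, -2, 2, 3⟩, ⟨-2, -1, 1, 0⟩, ⟨1, 2, -2, -1⟩],
    ![⟨-2, 0, 1, 1⟩, ⟨-1, 0, -2, -4⟩, ⟨2, 0, 1, 1⟩],
    ![⟨0, -3, 0, 3⟩, ⟨-2, -1, 1, 1⟩, ⟨0, 1, 0, -1⟩]],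
  Matrix.of ![![⟨-2, -3, 3, 2⟩, ⟨-1, -1, -1, 1⟩, ⟨1, 3, -1, -1⟩],
    ![⟨-2, 0, 1, 1⟩, ⟨-1, 0, -2, -4⟩, ⟨1, 0, 0, 2⟩],
    ![⟨-2, 0, 0, 2⟩, ⟨0, -2, -2, 0⟩, ⟨0, 2, 2, 0⟩]],
  Matrix.of ![![⟨-2, -3, 2, 3⟩, ⟨2, 1, 1, 3⟩, ⟨0, 1, -2, -3⟩],
    ![⟨-2, 1, 0, 1⟩, ⟨0, -3, -3, -1⟩, ⟨0, 1, 0, -1⟩],
    ![⟨-2, 0, 0, 2⟩, ⟨0, -2, -2, 0⟩, ⟨2, 0, 0, -2⟩]],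
  Matrix.of ![![⟨-3, -1, 2, 2⟩, ⟨2, 2, 0, 1⟩, ⟨0, 0, -2, -1⟩],
    ![⟨-1, -3, 3, 1⟩, ⟨-1, -2, 0, 1⟩, ⟨1, 2, -2, -1⟩],
    ![⟨-1, 1, 3, 2⟩, ⟨0, 1, 0, 2⟩, ⟨0, -3, -2, -2⟩]],
  Matrix.of ![![⟨-3, -1, 2, 2⟩, ⟨2, 2, 0, 1⟩, ⟨1, -1, 0, -2⟩],
    ![⟨-2, 0, 2, 0⟩, ⟨-2, -2, 2, 0⟩, ⟨2, 0, -2, 0⟩],
    ![⟨-2, -1, 0, -2⟩, ⟨-1, 0, 1, 2⟩, ⟨0, -1, -2, 0⟩]],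
  Matrix.of ![![⟨-6, -4, 0, 0⟩, ⟨0, 0, -2, 0⟩, ⟨2, 1, 0, -1⟩],
    ![⟨0, -2, 0, 2⟩, ⟨-2, 0, 0, 2⟩, ⟨0, 1, -1, -2⟩],
    ![⟨-2, -2, 2, 2⟩, ⟨0, -2, 0, 0⟩, ⟨-1, 0, -3, -2⟩]],
  Matrix.of ![![⟨-4, -6, 0, 0⟩, ⟨0, 0, 0, -2⟩, ⟨3, 3, 0, 1⟩],
    ![⟨-2, 0, 0, 2⟩, ⟨-2, 0, 2, 0⟩, ⟨3, 1, -1, 0⟩],
    ![⟨-2, -2, 2, 2⟩, ⟨0, 2, 0, 0⟩, ⟨1, 0, -3, -2⟩]],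
  Matrix.of ![![⟨-5, -4, -1, 0⟩, ⟨1, -3, -1, 0⟩, ⟨2, 3, 0, 0⟩],
    ![⟨-2, -3, 3, 2⟩, ⟨1, 1, 1, -1⟩, ⟨1, 0, -2, -1⟩],
    ![⟨-3, -2, 1, 4⟩, ⟨1, -1, -1, 0⟩, ⟨0, -1, -2, -4⟩]],
  Matrix.of ![![⟨-2, -3, 3, 2⟩, ⟨1, -1, 1, 1⟩, ⟨1, 2, -2, -1⟩],
    ![⟨-2, -2, 0, -1⟩, ⟨1, 3, 0, -1⟩, ⟨1, 1, 0, 2⟩],
    ![⟨-2, -1, -1, -1⟩, ⟨2, 0, -1, 0⟩, ⟨0, 1, 0, -1⟩]],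
  Matrix.of ![![⟨-2, 1, 0, 1⟩, ⟨0, 3, 3, 1⟩, ⟨2, -2, 0, 0⟩],
    ![⟨-1, 2, 4, 5⟩, ⟨2, -1, 1, 0⟩, ⟨0, 0, -2, -2⟩],
    ![⟨-2, 0, 0, 2⟩, ⟨0, 2, 2, 0⟩, ⟨0, 0, 0, 0⟩]],
  Matrix.of ![![⟨-3, 0, 0, -2⟩, ⟨-1, 0, 3, 1⟩, ⟨2, 0, -1, 1⟩],
    ![⟨-2, -3, 2, 3⟩, ⟨-2, -1, -1, -3⟩, ⟨2, 2, -1, 0⟩],
    ![⟨-2, -2, -1, 0⟩, ⟨0, -1, -2, -1⟩, ⟨0, 1, -1, -1⟩]],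
  Matrix.of ![![⟨-3, -1, 2, 2⟩, ⟨-2, -2, 0, -1⟩, ⟨2, 2, -2, 0⟩],
    ![⟨-2, 0, 2, 0⟩, ⟨2, 2, -2, 0⟩, ⟨0, 0, 0, 0⟩],
    ![⟨-1, 1, -1, 1⟩, ⟨1, 2, 0, -1⟩, ⟨0, 0, 2, 0⟩]],
  Matrix.of ![![⟨-4, 0, 2, 2⟩, ⟨0, 0, 0, -2⟩, ⟨3, 0, -1, 1⟩],
    ![⟨-2, 0, 0, 2⟩, ⟨0, -2, -2, 2⟩, ⟨1, 1, 1, -1⟩],
    ![⟨-2, 0, 2, 0⟩, ⟨0, -2, -2, 0⟩, ⟨0, -1, 0, 0⟩]],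
  Matrix.of ![![⟨-4, -6, 0, 0⟩, ⟨0, 0, 0, 2⟩, ⟨1, 3, 0, -1⟩],
    ![⟨0, -2, 0, 2⟩, ⟨2, 0, 0, -2⟩, ⟨-2, 1, -1, 0⟩],
    ![⟨-2, -2, 2, 2⟩, ⟨0, -2, 0, 0⟩, ⟨1, 2, 1, 0⟩]],
  Matrix.of ![![⟨-3, -2, 2, 3⟩, ⟨2, -1, 1, 0⟩, ⟨0, 1, -1, -2⟩],
    ![⟨-2, -2, -1, 0⟩, ⟨-2, 1, 2, 1⟩, ⟨2, -1, 0, -1⟩],
    ![⟨-1, 4, 2, 0⟩, ⟨1, 0, -1, -1⟩, ⟨1, 0, 1, 1⟩]],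
  Matrix.of ![![⟨-1, -2, 2, 1⟩, ⟨2, -1, -1, -2⟩, ⟨1, 2, 0, 1⟩],
    ![⟨-1, -1, 4, 3⟩, ⟨-1, 1, 0, 2⟩, ⟨1, -1, -2, -3⟩],
    ![⟨-2, 0, 0, 2⟩, ⟨0, -2, -2, 0⟩, ⟨2, 0, 0, -2⟩]],
  Matrix.of ![![⟨-2, -3, 3, 2⟩, ⟨-1, 1, -1, -1⟩, ⟨1, 1, -1, -1⟩],
    ![⟨-2, -2, 0, -1⟩, ⟨-1, -3, 0, 1⟩, ⟨1, 1, 0, -1⟩],
    ![⟨-1, 1, 0, 0⟩, ⟨0, 2, 0, -1⟩, ⟨2, 0, 2, 1⟩]],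
  Matrix.of ![![⟨-2, -3, 3, 2⟩, ⟨-1, 1, -1, -1⟩, ⟨2, 1, -1, 0⟩],
    ![⟨0, -1, -2, -2⟩, ⟨1, 2, -1, -2⟩, ⟨-2, -1, 0, 0⟩],
    ![⟨-1, -1, -3, 0⟩, ⟨0, 1, -2, -2⟩, ⟨1, -1, 1, 0⟩]],
  Matrix.of ![![⟨-3, 0, 0, -2⟩, ⟨1, 0, -3, -1⟩, ⟨1, 0, 1, 1⟩],
    ![⟨-2, -3, 2, 3⟩, ⟨2, 1, 1, 3⟩, ⟨0, 1, -1, -3⟩],
    ![⟨-1, -2, -2, 0⟩, ⟨-1, 0, 1, 1⟩, ⟨-1, 0, 1, -1⟩]],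
  Matrix.of ![![⟨-1, -2, 2, 1⟩, ⟨-2, 1, 1, 2⟩, ⟨0, 0, -2, -2⟩],
    ![⟨-1, -1, 4, 3⟩, ⟨1, -1, 0, -2⟩, ⟨0, 2, -2, 0⟩],
    ![⟨-2, 0, 0, 2⟩, ⟨0, 2, 2, 0⟩, ⟨0, 0, 0, 0⟩]],
  Matrix.of ![![⟨-3, -3, 4, 2⟩, ⟨0, 0, 2, 1⟩, ⟨2, 2, -2, 0⟩],
    ![⟨-2, 0, 2, 0⟩, ⟨2, 2, -2, 0⟩, ⟨0, 0, 0, 0⟩],
    ![⟨-2, 0, 3, 4⟩, ⟨0, 3, 2, 1⟩, ⟨2, 0, 0, 0⟩]],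
  Matrix.of ![![⟨-4, 0, 2, 2⟩, ⟨0, 0, 0, 2⟩, ⟨1, 0, -1, -3⟩],
    ![⟨-2, 0, 0, 2⟩, ⟨0, 2, 2, -2⟩, ⟨1, -1, -1, -1⟩],
    ![⟨-2, 0, 2, 0⟩, ⟨0, 2, 2, 0⟩, ⟨2, 1, -2, 0⟩]],
  Matrix.of ![![⟨-4, 0, 2, 2⟩, ⟨0, 0, 0, 2⟩, ⟨3, 0, -1, -1⟩],
    ![⟨-2, 0, 0, 2⟩, ⟨0, 2, -2, -2⟩, ⟨1, -1, 1, -1⟩],
    ![⟨-2, 0, 2, 0⟩, ⟨0, -2, -2, 0⟩, ⟨0, -1, -2, -2⟩]],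
  Matrix.of ![![⟨-5, -2, 0, 2⟩, ⟨1, 0, 1, 3⟩, ⟨1, 0, -1, -3⟩],
    ![⟨-3, 0, 0, 3⟩, ⟨0, 1, -1, -2⟩, ⟨2, -1, 1, 0⟩],
    ![⟨-3, -4, 0, 2⟩, ⟨1, 0, 1, 1⟩, ⟨1, 0, -1, -1⟩]],
  Matrix.of ![![⟨-3, -2, 2, 3⟩, ⟨-2, 1, -1, 0⟩, ⟨3, 1, -1, -1⟩],
    ![⟨0, -2, -2, -1⟩, ⟨1, 3, 0, -1⟩, ⟨-1, -1, 2, 0⟩],
    ![⟨-1, 4, 2, 0⟩, ⟨-1, 0, 1, 1⟩, ⟨0, -4, -3, -1⟩]],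
  Matrix.of ![![⟨-3, -2, 2, 3⟩, ⟨-2, 1, -1, 0⟩, ⟨2, 0, 0, -2⟩],
    ![⟨-1, 2, -1, 0⟩, ⟨-1, -3, -3, 0⟩, ⟨2, 0, 2, 0⟩],
    ![⟨-2, 0, 0, 2⟩, ⟨0, 2, 2, 0⟩, ⟨0, 0, 0, 0⟩]],
  Matrix.of ![![⟨-3, 1, 1, 1⟩, ⟨-1, -2, 2, 1⟩, ⟨2, 1, -1, 0⟩],
    ![⟨-1, -1, 4, 3⟩, ⟨1, -1, 0, -2⟩, ⟨0, 0, -2, -1⟩],
    ![⟨0, -3, -2, 0⟩, ⟨1, 0, -1, -2⟩, ⟨-1, 1, -1, 0⟩]],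
  Matrix.of ![![⟨-2, -3, 3, 2⟩, ⟨1, -1, 1, 1⟩, ⟨0, 2, -2, -2⟩],
    ![⟨-2, 0, 2, 0⟩, ⟨2, 2, -2, 0⟩, ⟨0, 0, 0, 0⟩],
    ![⟨0, 0, -2, -3⟩, ⟨-1, -1, 0, 1⟩, ⟨0, -2, 0, 0⟩]],
  Matrix.of ![![⟨-4, 0, 2, 2⟩, ⟨0, 0, 0, -2⟩, ⟨1, 0, -1, -1⟩],
    ![⟨-2, 0, 0, 2⟩, ⟨0, -2, 2, 2⟩, ⟨1, 1, -1, -1⟩],
    ![⟨-2, 0, 2, 0⟩, ⟨0, 2, 2, 0⟩, ⟨2, 1, 0, 2⟩]],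
  Matrix.of ![![⟨-2, -2, 0, 4⟩, ⟨-2, -2, 0, 0⟩, ⟨0, 1, -1, -3⟩],
    ![⟨0, -2, 0, 2⟩, ⟨0, 2, 0, -2⟩, ⟨1, 0, 1, 0⟩],
    ![⟨-2, 0, 0, 2⟩, ⟨-2, 0, 0, 2⟩, ⟨1, -1, 0, -1⟩]],
  Matrix.of ![![⟨-3, 1, 1, 1⟩, ⟨1, 2, -2, -1⟩, ⟨1, -2, 0, -1⟩],
    ![⟨-1, -1, 4, 3⟩, ⟨-1, 1, 0, 2⟩, ⟨1, 1, -2, -2⟩],
    ![⟨0, -3, -2, 0⟩, ⟨-1, 0, 1, 2⟩, ⟨1, 2, 3, 0⟩]],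
  Matrix.of ![![⟨-2, 0, 2, 0⟩, ⟨-2, -2, 2, 0⟩, ⟨2, 0, -2, 0⟩],
    ![⟨-1, -2, 3, 5⟩, ⟨0, 0, 1, -1⟩, ⟨-1, 0, -3, -3⟩],
    ![⟨-4, -3, 1, 1⟩, ⟨0, 0, 1, 2⟩, ⟨0, -1, -3, -3⟩]],
  Matrix.of ![![⟨-1, -2, 3, 5⟩, ⟨0, 0, 1, -1⟩, ⟨2, 2, -1, -1⟩],
    ![⟨0, -1, 1, 0⟩, ⟨1, 1, -1, -3⟩, ⟨-1, 1, -1, 1⟩],
    ![⟨-3, 0, 2, 1⟩, ⟨2, 1, 1, -2⟩, ⟨2, 1, -1, 0⟩]],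
  Matrix.of ![![⟨-6, -2, 2, 1⟩, ⟨1, 1, 0, 1⟩, ⟨3, 1, 0, -1⟩],
    ![⟨-1, 0, 0, 1⟩, ⟨0, 3, -1, -2⟩, ⟨0, -1, 1, 0⟩],
    ![⟨-2, 1, 4, 2⟩, ⟨1, 0, -1, -2⟩, ⟨1, 2, -1, 0⟩]],
  Matrix.of ![![⟨-3, 0, 0, 3⟩, ⟨0, -1, 1, 2⟩, ⟨1, 1, -1, -3⟩],
    ![⟨-2, 0, 5, 2⟩, ⟨2, -1, 0, -1⟩, ⟨0, 1, -3, -1⟩],
    ![⟨-2, 0, 3, 4⟩, ⟨0, -1, 0, -1⟩, ⟨2, 1, -1, -3⟩]],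
  Matrix.of ![![⟨-3, -4, -3, 0⟩, ⟨-1, 3, 1, 0⟩, ⟨2, 0, 2, 0⟩],
    ![⟨-3, 0, 0, 3⟩, ⟨0, -1, 1, 2⟩, ⟨2, 0, 0, -2⟩],
    ![⟨-2, 0, 0, 2⟩, ⟨0, 2, 2, 0⟩, ⟨0, 0, 0, 0⟩]],
  Matrix.of ![![⟨-3, -2, 2, 3⟩, ⟨2, -1, 1, 0⟩, ⟨1, 2, -2, -1⟩],
    ![⟨-3, 0, -1, -1⟩, ⟨-2, -2, 1, 1⟩, ⟨1, 0, -1, -1⟩],
    ![⟨-2, 0, 0, 2⟩, ⟨0, -2, -2, 0⟩, ⟨2, 0, 0, -2⟩]],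
  Matrix.of ![![⟨-2, -5, 0, 2⟩, ⟨1, 0, 1, 0⟩, ⟨2, 3, 0, 0⟩],
    ![⟨-2, -2, 0, -1⟩, ⟨1, -3, -2, 1⟩, ⟨0, 2, 0, -1⟩],
    ![⟨-2, 0, 0, 2⟩, ⟨0, -2, -2, 0⟩, ⟨2, 0, 0, -2⟩]],
  Matrix.of ![![⟨-2, -3, 1, 4⟩, ⟨-1, -1, 1, 1⟩, ⟨0, 2, -2, -2⟩],
    ![⟨-2, 0, 2, 0⟩, ⟨2, 2, -2, 0⟩, ⟨0, 0, 0, 0⟩],
    ![⟨-1, -4, -2, 2⟩, ⟨-1, 0, 1, 3⟩, ⟨0, 0, 0, -2⟩]],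
  Matrix.of ![![⟨-4, -6, 0, 0⟩, ⟨0, 2, 0, 0⟩, ⟨1, 2, 0, 0⟩],
    ![⟨-2, 0, 0, 2⟩, ⟨-2, 0, 0, 2⟩, ⟨1, -1, 0, -3⟩],
    ![⟨-4, -4, -2, 0⟩, ⟨0, 0, 2, 0⟩, ⟨0, 1, 0, 0⟩]],
  Matrix.of ![![⟨-4, -6, 0, 0⟩, ⟨0, 2, 0, 0⟩, ⟨3, 2, 0, 0⟩],
    ![⟨-2, 0, 0, 2⟩, ⟨-2, 0, 0, 2⟩, ⟨3, 1, 0, -1⟩],
    ![⟨-4, -4, -2, 0⟩, ⟨0, 0, 2, 0⟩, ⟨4, 3, 0, 0⟩]],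
  Matrix.of ![![⟨-1, -2, 3, 5⟩, ⟨0, 0, -1, 1⟩, ⟨-1, 0, -2, -4⟩],
    ![⟨0, -1, 1, 0⟩, ⟨-1, -1, 1, 3⟩, ⟨1, 0, 0, -1⟩],
    ![⟨-2, -1, 0, 3⟩, ⟨0, -3, -1, 1⟩, ⟨0, 0, -1, -2⟩]],
  Matrix.of ![![⟨-4, -2, 1, 0⟩, ⟨2, 1, 0, -1⟩, ⟨0, -1, -1, -1⟩],
    ![⟨-3, -5, 1, 2⟩, ⟨-2, -1, -2, 0⟩, ⟨1, 2, -1, -2⟩],
    ![⟨-5, -3, 1, 2⟩, ⟨-2, -1, -2, -2⟩, ⟨3, 0, -1, 0⟩]],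
  Matrix.of ![![⟨-1, 0, 0, 1⟩, ⟨0, -3, 1, 2⟩, ⟨1, 1, -1, -1⟩],
    ![⟨0, 0, -5, -5⟩, ⟨-1, -2, 0, 0⟩, ⟨-1, 0, 1, 1⟩],
    ![⟨-1, -2, 2, 1⟩, ⟨2, 3, 3, 0⟩, ⟨-1, 1, -1, 1⟩]],
  Matrix.of ![![⟨-3, 0, 0, 3⟩, ⟨0, 1, -1, -2⟩, ⟨1, 0, 0, -1⟩],
    ![⟨-2, -4, 0, 1⟩, ⟨-3, -3, 0, -1⟩, ⟨2, 4, 0, 1⟩],
    ![⟨0, -3, -2, 0⟩, ⟨-3, -2, -1, 0⟩, ⟨0, 1, 2, 0⟩]],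
  Matrix.of ![![⟨-4, -2, 0, 1⟩, ⟨1, -1, 0, -3⟩, ⟨2, 2, 0, 1⟩],
    ![⟨-4, -2, 1, 0⟩, ⟨-2, -1, 0, 1⟩, ⟨2, 0, -1, -2⟩],
    ![⟨-2, 0, 0, 2⟩, ⟨0, -2, -2, 0⟩, ⟨2, 0, 0, -2⟩]],
  Matrix.of ![![⟨-2, -5, 0, 2⟩, ⟨-1, 0, -1, 0⟩, ⟨0, 2, 0, -2⟩],
    ![⟨-2, -2, 0, -1⟩, ⟨-1, 3, 2, -1⟩, ⟨2, 0, 0, 2⟩],
    ![⟨-2, 0, 0, 2⟩, ⟨0, 2, 2, 0⟩, ⟨0, 0, 0, 0⟩]],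
  Matrix.of ![![⟨-2, -5, 0, 2⟩, ⟨-1, 0, -1, 0⟩, ⟨3, 3, 1, 0⟩],
    ![⟨0, -1, 1, 0⟩, ⟨3, -1, -1, -1⟩, ⟨-1, 2, 0, 1⟩],
    ![⟨-3, -1, -1, 0⟩, ⟨0, -1, -2, 0⟩, ⟨3, 2, 1, 0⟩]],
  Matrix.of ![![⟨-3, -4, 1, 1⟩, ⟨0, 2, 1, -1⟩, ⟨1, 2, -1, 1⟩],
    ![⟨-2, 0, 2, 0⟩, ⟨-2, -2, 2, 0⟩, ⟨2, 0, -2, 0⟩],
    ![⟨0, -1, -1, 2⟩, ⟨-1, 1, 3, 1⟩, ⟨0, -1, -1, 0⟩]],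
  Matrix.of ![![⟨-4, -6, 0, 0⟩, ⟨0, -2, 0, 0⟩, ⟨1, 4, 0, 0⟩],
    ![⟨0, -2, 0, 2⟩, ⟨0, 2, 0, -2⟩, ⟨-1, 0, -1, 0⟩],
    ![⟨-4, -4, -2, 0⟩, ⟨0, 0, -2, 0⟩, ⟨0, 1, 2, 0⟩]],
  Matrix.of ![![⟨-2, -5, 0, 2⟩, ⟨1, 0, 1, 0⟩, ⟨-1, 2, -1, -2⟩],
    ![⟨0, 0, -1, 1⟩, ⟨-1, -4, 0, 0⟩, ⟨1, 2, 0, 0⟩],
    ![⟨-3, -1, -1, 0⟩, ⟨0, 1, 2, 0⟩, ⟨0, -1, 0, 0⟩]],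
  Matrix.of ![![⟨-4, -3, -1, 3⟩, ⟨0, 0, 1, 2⟩, ⟨0, 0, -1, -4⟩],
    ![⟨-4, -2, 0, 1⟩, ⟨1, -1, 0, -3⟩, ⟨1, 1, 0, 1⟩],
    ![⟨-3, 1, 5, 2⟩, ⟨0, 1, 0, 0⟩, ⟨0, -1, -2, 0⟩]],
  Matrix.of ![![⟨-4, -2, 0, 1⟩, ⟨-1, 1, 0, 3⟩, ⟨2, 0, 0, -2⟩],
    ![⟨-4, -2, 1, 0⟩, ⟨2, 1, 0, -1⟩, ⟨2, 2, 0, 2⟩],
    ![⟨-2, 0, 0, 2⟩, ⟨0, 2, 2, 0⟩, ⟨0, 0, 0, 0⟩]]]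

/-- neighbouring frames -/
def nx : Fin 60 → Fin 3 → Fin 60 := ![
  ![1, 2, 3],
  ![0, 4, 5],
  ![4, 0, 6],
  ![7, 8, 0],
  ![2, 1, 9],
  ![10, 11, 1],
  ![12, 13, 2],
  ![3, 14, 15],
  ![14, 3, 13],
  ![16, 17, 4],
  ![5, 18, 19],
  ![18, 5, 17],
  ![6, 20, 21],
  ![20, 6, 8],
  ![8, 7, 22],
  ![23, 24, 7],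
  ![9, 25, 26],
  ![25, 9, 11],
  ![11, 10, 27],
  ![28, 29, 10],
  ![13, 12, 30],
  ![31, 32, 12],
  ![26, 33, 14],
  ![15, 34, 35],
  ![34, 15, 33],
  ![17, 16, 36],
  ![22, 37, 16],
  ![38, 39, 18],
  ![19, 35, 40],
  ![35, 19, 39],
  ![41, 42, 20],
  ![21, 43, 44],
  ![43, 21, 42],
  ![37, 22, 24],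
  ![24, 23, 45],
  ![29, 28, 23],
  ![46, 47, 25],
  ![33, 26, 47],
  ![27, 48, 49],
  ![48, 27, 29],
  ![50, 45, 28],
  ![30, 51, 52],
  ![51, 30, 32],
  ![32, 31, 50],
  ![53, 54, 31],
  ![55, 40, 34],
  ![36, 56, 57],
  ![56, 36, 37],
  ![39, 38, 51],
  ![58, 52, 38],
  ![40, 55, 43],
  ![42, 41, 48],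
  ![59, 49, 41],
  ![44, 57, 59],
  ![57, 44, 55],
  ![45, 50, 54],
  ![47, 46, 58],
  ![54, 53, 46],
  ![49, 59, 56],
  ![52, 58, 53]]

/-- words of the transitions -/
def wd : Fin 60 → Fin 3 → List (Fin 8) := ![
  ![[], [0, 0, 0, 2, 2, 7, 2, 2], [1, 0, 2, 1, 4, 4, 4, 4, 6, 6, 6]],
  ![[], [0, 2, 2, 7], [0, 2, 5, 6, 7, 6, 5, 0]],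
  ![[4, 4, 6, 6], [4, 4, 4, 6, 6, 3, 6, 6], [2, 4, 4, 4, 4]],
  ![[1, 2, 3, 2, 1, 0, 6, 6, 6], [], [0, 0, 0, 0, 2, 2, 2, 5, 4, 6, 5]],
  ![[0, 0, 2, 2], [3, 4, 6, 6], [0, 1, 0, 7, 6]],
  ![[], [4, 4, 4, 4, 7, 6], [3, 2, 4, 1, 2, 3, 4, 6]],
  ![[0, 1, 2, 3, 2, 1, 6, 6, 6], [0, 0, 2, 2, 7, 6, 1, 0, 6, 7], [0, 0, 0, 0, 6]],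
  ![[0, 1, 2, 1, 1, 1, 3, 6, 5], [6, 6, 6, 6, 1, 0, 7, 6], [2, 2, 2, 2]],
  ![[0, 2, 1, 0, 7, 2, 1], [], [2, 2, 4, 1, 7, 6]],
  ![[5, 4, 6, 5, 4], [3, 3, 6, 5, 4, 7, 6, 5], [0, 2, 1, 0, 7]],
  ![[], [4, 4, 4, 7], [0, 0, 2, 2, 2, 1, 0, 3, 2, 1]],
  ![[0, 2], [0, 0, 0, 0, 2, 3], [4, 7, 6]],
  ![[0, 0, 2, 7, 6, 1, 0, 6, 7], [0, 1, 2, 3, 2, 1, 6, 6], [0, 1, 2, 3, 4, 5, 2, 2, 2, 2]],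
  ![[6], [0, 1, 2, 3, 2, 1, 6, 6, 6, 6], [2, 3, 5, 0, 6, 6]],
  ![[2, 5, 0, 6, 1, 7, 6], [2, 3, 4, 5, 2, 2, 2, 2], [1, 2, 1, 3, 2, 4, 5, 4]],
  ![[4, 4, 4, 6, 6, 6], [7, 6, 6], [6, 6, 6, 6]],
  ![[0, 1, 0, 2, 1], [1, 2, 1, 7, 6, 5, 0, 0, 0], [0, 0, 2, 2, 2, 2, 5, 4, 6, 5]],
  ![[0, 2], [1, 0, 2, 1, 3, 2, 7, 7], [0, 2, 3]],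
  ![[4, 6], [0, 0, 0, 3], [2, 4, 4, 4, 4]],
  ![[], [0, 2, 3, 6], [0, 0, 1, 0, 2, 1, 7, 6, 6, 6]],
  ![[2], [0, 0, 7, 6, 1, 0, 6, 7], [2, 2, 2, 4]],
  ![[6, 6], [0, 0, 0, 2, 2, 2, 7, 2, 2, 2, 2], [2, 2, 2, 2, 3, 5, 2, 4, 1, 4]],
  ![[], [0, 1, 2, 1, 7, 6, 5, 0, 0], [0, 1, 0, 6, 5, 7, 6, 5]],
  ![[0, 0, 0, 2, 2, 2], [0, 0, 0, 0, 6, 6, 6, 6, 3, 6, 6, 6], [1, 0, 2, 1, 4, 4, 6, 6, 6]],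
  ![[0, 0, 0, 2, 3, 6, 6, 6, 6], [2, 2, 3], [0, 0, 0, 0, 0, 2]],
  ![[4, 6], [0, 0, 0, 2, 3, 2, 5, 6, 7], [1, 0, 2, 1, 4, 4, 4]],
  ![[], [0, 1, 2, 1, 7, 6, 5, 0, 0], [1, 0, 2, 1, 4, 4, 6, 6, 6, 6]],
  ![[0, 1, 0, 2, 1, 7], [3, 2, 4, 5, 4, 7], [0, 0, 0, 0, 6]],
  ![[], [0, 2, 3, 6], [1, 0, 0, 6, 1, 7]],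
  ![[], [2, 4, 7, 6], [0, 2, 5, 6, 7, 6, 5]],
  ![[0, 1, 0, 2, 1], [1, 2, 3, 2, 1, 6, 6], [0, 6, 6, 6]],
  ![[2, 2], [0, 3, 2, 7, 7, 7, 2, 2], [0, 3, 2, 5, 7, 2, 1]],
  ![[6, 6, 6], [2, 2, 2, 2, 4, 7, 2, 2, 2, 2, 2], [0, 0, 0, 0, 2, 2, 2, 2, 5, 4, 6, 5]],
  ![[], [4, 4, 1, 2, 3, 5, 6, 5, 4], [0, 0, 0, 0, 0, 6]],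
  ![[2, 2, 2, 2, 4, 4, 4, 7, 6], [2, 2, 2, 4, 4, 4, 4, 7, 2, 2, 2, 2], [0, 0, 0, 0, 6]],
  ![[], [2, 4, 7, 6], [0, 0, 2, 2, 2, 5, 4, 6, 5]],
  ![[1, 2, 3, 2, 1, 6, 6, 6], [1, 2, 3, 2, 1, 6, 6, 6], [0, 0, 0, 5, 4, 6, 5]],
  ![[], [4, 4, 1, 2, 3, 5, 6, 5, 4], [6, 6, 4, 4, 4, 4, 1, 0, 1, 2, 7, 6, 5, 4, 2]],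
  ![[3, 5, 4, 6, 5, 4], [4, 1, 2, 3, 4, 5], [3, 2, 1, 0, 6]],
  ![[0, 2], [0, 1, 0, 3, 6, 7], [1, 2, 3, 2, 1, 4, 6]],
  ![[5, 0, 6, 1, 3, 3, 3, 4, 6, 7], [0, 1, 2, 1, 3, 2, 2, 2, 2, 2], [0, 0, 1, 7, 2, 5]],
  ![[5, 4, 6, 5, 4], [0, 0, 0, 0, 3, 2], [3, 2, 1, 7]],
  ![[0, 1, 0, 2, 1, 4, 4, 7], [2, 2, 5, 6, 7, 6, 5], [0, 0, 0, 0, 2, 2, 2, 2, 5, 4, 6, 5]],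
  ![[2, 2, 2], [4, 6, 6, 3, 3, 3, 6, 7], [0, 0, 2, 2, 7, 6, 1, 4, 4, 4, 6, 7]],
  ![[], [2, 3], [2, 5, 4, 6, 3, 6, 7]],
  ![[0, 1, 2, 1, 1, 1, 1, 3, 6, 5, 0], [0, 0, 2, 2, 2, 7, 6, 1, 0, 6], [2, 4, 4, 4, 4]],
  ![[2, 2, 2, 5, 6, 7, 6, 5], [6], [0, 0, 0, 0, 2, 2, 2, 5, 4, 6, 5]],
  ![[6], [2, 2, 2, 5, 6, 7, 6, 5], [0, 1, 2, 3, 5, 4, 6, 5, 2, 2, 0, 0, 0]],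
  ![[4, 6], [1, 0, 7, 6, 5, 0], [0, 2, 2, 5, 4, 6, 5]],
  ![[0, 1, 2, 3, 4, 4, 6], [0, 0, 2, 1, 0, 3, 2, 1], [0, 1, 2, 1, 3]],
  ![[0, 3, 2, 5, 4, 7, 7, 7, 2, 1], [0, 0, 3, 2, 5, 0, 7, 7, 7, 7, 6], [0, 0, 0, 3, 2, 5, 2, 3, 4, 4, 6, 6]],
  ![[0, 0, 3, 5, 4, 6, 5, 4], [4, 4, 4, 4, 6, 7], [1, 0, 2, 1, 4, 6, 6]],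
  ![[], [0, 0, 1, 0, 2, 1, 7, 6], [3, 5, 6, 7]],
  ![[], [2, 3, 6, 6], [2, 2, 4, 4, 4, 4]],
  ![[6, 6], [7, 6], [2, 2, 5, 4, 6, 3, 5, 6]],
  ![[0, 1, 2, 1, 1, 1, 1, 3, 6, 5, 0], [0, 7, 2, 2, 7, 6, 1, 4, 4, 6, 7], [2, 1, 0, 5, 5, 7, 2, 1]],
  ![[2], [2], [2, 4, 4, 4, 4]],
  ![[2, 2], [2, 2, 7, 6], [1, 0, 2, 1, 4, 4, 4, 4, 6, 6, 6]],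
  ![[0, 0, 2, 3, 2, 1, 0], [5, 4, 6, 5, 4, 7, 2], [0, 0, 0, 0, 6]],
  ![[], [0, 6, 1, 0, 3, 2, 1], [0, 0, 0, 0, 6, 6]]]

/-- units of the transitions -/
def us : Fin 60 → Fin 3 → Fin 10 := ![
  ![1, 3, 9],
  ![1, 5, 1],
  ![3, 9, 0],
  ![2, 0, 3],
  ![9, 7, 7],
  ![1, 4, 1],
  ![2, 1, 0],
  ![2, 8, 1],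
  ![8, 0, 1],
  ![2, 6, 7],
  ![1, 9, 1],
  ![4, 6, 3],
  ![0, 6, 1],
  ![1, 3, 1],
  ![4, 2, 0],
  ![8, 0, 1],
  ![8, 8, 3],
  ![4, 4, 9],
  ![6, 3, 5],
  ![1, 5, 7],
  ![1, 6, 3],
  ![1, 3, 1],
  ![1, 5, 0],
  ![2, 6, 2],
  ![2, 0, 0],
  ![6, 0, 2],
  ![1, 5, 9],
  ![5, 9, 7],
  ![1, 5, 7],
  ![1, 7, 1],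
  ![5, 6, 9],
  ![1, 5, 7],
  ![1, 7, 3],
  ![1, 7, 0],
  ![8, 4, 7],
  ![1, 7, 8],
  ![9, 8, 8],
  ![1, 7, 4],
  ![7, 0, 2],
  ![4, 3, 1],
  ![6, 3, 7],
  ![7, 6, 9],
  ![7, 4, 3],
  ![1, 7, 4],
  ![1, 0, 5],
  ![7, 1, 5],
  ![3, 0, 3],
  ![1, 2, 6],
  ![6, 0, 5],
  ![4, 2, 2],
  ![4, 8, 6],
  ![5, 4, 7],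
  ![1, 4, 3],
  ![1, 0, 0],
  ![1, 0, 2],
  ![7, 0, 8],
  ![1, 0, 0],
  ![1, 0, 9],
  ![0, 3, 0],
  ![1, 9, 0]]

end Pool.Agent.H.MP_c41128_gt
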