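import Pool.Agent.H.MP_c41128_gt.DataR

namespace Pool.Agent.H.MP_c41128_gt

open Matrix

/-- the 120 permutation braids -/
def TT5 : Fin 120 → Matrix (Fin 3) (Fin 3) (Z5 ℤ) := ![
  Matrix.of ![![⟨1, 0, 0, 0⟩, ⟨0, 0, 0, 0⟩, ⟨0, 0, 0, 0⟩],
    ![⟨0, 0, 0, 0⟩, ⟨1, 0, 0, 0⟩, ⟨0, 0, 0, 0⟩],
    ![⟨0, 0, 0, 0⟩, ⟨0, 0, 0, 0⟩, ⟨1, 0, 0, 0⟩]],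
  Matrix.of ![![⟨0, 0, 0, -1⟩, ⟨0, 0, 0, 0⟩, ⟨0, 0, 0, 0⟩],
    ![⟨0, 0, 0, 0⟩, ⟨1, 0, 0, 0⟩, ⟨0, 0, 0, 0⟩],
    ![⟨0, 0, 0, 0⟩, ⟨0, 0, 0, 0⟩, ⟨1, 0, 0, 0⟩]],
  Matrix.of ![![⟨1, 1, 1, 0⟩, ⟨0, 1, 1, 0⟩, ⟨0, -1, -1, 0⟩],
    ![⟨0, 1, 1, 0⟩, ⟨1, 1, 1, 0⟩, ⟨0, -1, -1, 0⟩],
    ![⟨1, 2, 2, 1⟩, ⟨1, 2, 2, 1⟩, ⟨0, -2, -2, -1⟩]],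
  Matrix.of ![![⟨1, 0, 0, 0⟩, ⟨0, 0, 0, 0⟩, ⟨0, 0, 0, 0⟩],
    ![⟨0, 0, 0, 0⟩, ⟨0, 0, 0, -1⟩, ⟨0, 0, 0, 0⟩],
    ![⟨0, 0, 0, 0⟩, ⟨0, 0, 0, 0⟩, ⟨1, 0, 0, 0⟩]],
  Matrix.of ![![⟨1, 0, 0, 0⟩, ⟨0, 0, 0, 0⟩, ⟨0, 0, 0, 0⟩],
    ![⟨0, 0, 0, 0⟩, ⟨1, 1, 1, 0⟩, ⟨-1, -1, -1, -1⟩],
    ![⟨0, 0, 0, 0⟩, ⟨0, 1, 1, 0⟩, ⟨0, -1, -1, -1⟩]],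
  Matrix.of ![![⟨0, 1, 1, 0⟩, ⟨0, 1, 1, 0⟩, ⟨0, -1, -1, 0⟩],
    ![⟨0, 1, 1, 1⟩, ⟨1, 1, 1, 0⟩, ⟨0, -1, -1, 0⟩],
    ![⟨0, 1, 2, 1⟩, ⟨1, 2, 2, 1⟩, ⟨0, -2, -2, -1⟩]],
  Matrix.of ![![⟨0, 0, 0, -1⟩, ⟨0, 0, 0, 0⟩, ⟨0, 0, 0, 0⟩],
    ![⟨0, 0, 0, 0⟩, ⟨0, 0, 0, -1⟩, ⟨0, 0, 0, 0⟩],
    ![⟨0, 0, 0, 0⟩, ⟨0, 0, 0, 0⟩, ⟨1, 0, 0, 0⟩]],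
  Matrix.of ![![⟨0, 0, 0, -1⟩, ⟨0, 0, 0, 0⟩, ⟨0, 0, 0, 0⟩],
    ![⟨0, 0, 0, 0⟩, ⟨1, 1, 1, 0⟩, ⟨-1, -1, -1, -1⟩],
    ![⟨0, 0, 0, 0⟩, ⟨0, 1, 1, 0⟩, ⟨0, -1, -1, -1⟩]],
  Matrix.of ![![⟨0, 1, 1, 0⟩, ⟨0, 1, 1, 1⟩, ⟨0, -1, -1, -1⟩],
    ![⟨0, 1, 1, 0⟩, ⟨1, 1, 1, 0⟩, ⟨0, -1, -1, 0⟩],
    ![⟨1, 2, 2, 1⟩, ⟨1, 2, 2, 1⟩, ⟨0, -2, -2, -1⟩]],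
  Matrix.of ![![⟨1, 1, 1, 0⟩, ⟨0, 1, 1, 0⟩, ⟨0, -1, -1, 0⟩],
    ![⟨0, 1, 1, 1⟩, ⟨0, 1, 1, 0⟩, ⟨0, -1, -1, -1⟩],
    ![⟨1, 2, 2, 1⟩, ⟨1, 2, 2, 1⟩, ⟨0, -2, -2, -1⟩]],
  Matrix.of ![![⟨1, 1, 1, 0⟩, ⟨0, 1, 1, 0⟩, ⟨0, -1, -1, 0⟩],
    ![⟨0, 1, 1, 0⟩, ⟨1, 2, 2, 0⟩, ⟨-1, -2, -2, -1⟩],
    ![⟨1, 2, 2, 1⟩, ⟨1, 3, 3, 1⟩, ⟨-1, -3, -3, -2⟩]],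
  Matrix.of ![![⟨1, 1, 1, 0⟩, ⟨0, 1, 1, 1⟩, ⟨0, -1, -1, 0⟩],
    ![⟨0, 1, 1, 0⟩, ⟨0, 1, 1, 0⟩, ⟨0, -1, -1, 0⟩],
    ![⟨1, 2, 2, 1⟩, ⟨0, 1, 2, 1⟩, ⟨0, -2, -2, -1⟩]],
  Matrix.of ![![⟨1, 0, 0, 0⟩, ⟨0, 0, 0, 0⟩, ⟨0, 0, 0, 0⟩],
    ![⟨0, 0, 0, 0⟩, ⟨0, 1, 1, 0⟩, ⟨-1, -1, -1, -1⟩],
    ![⟨0, 0, 0, 0⟩, ⟨0, 1, 1, 1⟩, ⟨0, -1, -1, -1⟩]],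
  Matrix.of ![![⟨1, 0, 0, 0⟩, ⟨0, 0, 0, 0⟩, ⟨0, 0, 0, 0⟩],
    ![⟨0, 0, 0, 0⟩, ⟨0, 1, 1, 0⟩, ⟨0, 0, -1, 0⟩],
    ![⟨0, 0, 0, 0⟩, ⟨0, 1, 1, 0⟩, ⟨0, -1, -1, -1⟩]],
  Matrix.of ![![⟨0, 1, 1, 1⟩, ⟨0, 1, 1, 1⟩, ⟨0, -1, -1, -1⟩],
    ![⟨0, 1, 1, 1⟩, ⟨1, 1, 1, 0⟩, ⟨0, -1, -1, 0⟩],
    ![⟨0, 1, 2, 1⟩, ⟨1, 2, 2, 1⟩, ⟨0, -2, -2, -1⟩]],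
  Matrix.of ![![⟨0, 1, 1, 0⟩, ⟨0, 1, 1, 0⟩, ⟨0, -1, -1, 0⟩],
    ![⟨0, 0, 1, 1⟩, ⟨0, 1, 1, 0⟩, ⟨0, -1, -1, -1⟩],
    ![⟨0, 1, 2, 1⟩, ⟨1, 2, 2, 1⟩, ⟨0, -2, -2, -1⟩]],
  Matrix.of ![![⟨0, 1, 1, 0⟩, ⟨0, 1, 1, 0⟩, ⟨0, -1, -1, 0⟩],
    ![⟨0, 1, 1, 1⟩, ⟨1, 2, 2, 0⟩, ⟨-1, -2, -2, -1⟩],
    ![⟨0, 1, 2, 1⟩, ⟨1, 3, 3, 1⟩, ⟨-1, -3, -3, -2⟩]],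
  Matrix.of ![![⟨0, 1, 1, 0⟩, ⟨0, 1, 1, 1⟩, ⟨0, -1, -1, 0⟩],
    ![⟨0, 1, 1, 1⟩, ⟨0, 1, 1, 0⟩, ⟨0, -1, -1, 0⟩],
    ![⟨0, 1, 2, 1⟩, ⟨0, 1, 2, 1⟩, ⟨0, -2, -2, -1⟩]],
  Matrix.of ![![⟨0, 0, 0, -1⟩, ⟨0, 0, 0, 0⟩, ⟨0, 0, 0, 0⟩],
    ![⟨0, 0, 0, 0⟩, ⟨0, 1, 1, 0⟩, ⟨-1, -1, -1, -1⟩],
    ![⟨0, 0, 0, 0⟩, ⟨0, 1, 1, 1⟩, ⟨0, -1, -1, -1⟩]],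
  Matrix.of ![![⟨0, 0, 0, -1⟩, ⟨0, 0, 0, 0⟩, ⟨0, 0, 0, 0⟩],
    ![⟨0, 0, 0, 0⟩, ⟨0, 1, 1, 0⟩, ⟨0, 0, -1, 0⟩],
    ![⟨0, 0, 0, 0⟩, ⟨0, 1, 1, 0⟩, ⟨0, -1, -1, -1⟩]],
  Matrix.of ![![⟨0, 1, 1, 0⟩, ⟨0, 1, 1, 1⟩, ⟨0, -1, -1, -1⟩],
    ![⟨0, 1, 1, 1⟩, ⟨0, 1, 1, 0⟩, ⟨0, -1, -1, -1⟩],
    ![⟨1, 2, 2, 1⟩, ⟨1, 2, 2, 1⟩, ⟨0, -2, -2, -1⟩]],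
  Matrix.of ![![⟨0, 1, 1, 0⟩, ⟨0, 1, 1, 1⟩, ⟨0, -1, -1, -1⟩],
    ![⟨0, 1, 1, 0⟩, ⟨1, 2, 2, 0⟩, ⟨-1, -2, -2, -1⟩],
    ![⟨1, 2, 2, 1⟩, ⟨1, 3, 3, 1⟩, ⟨-1, -3, -3, -2⟩]],
  Matrix.of ![![⟨1, 1, 1, 0⟩, ⟨0, 1, 1, 1⟩, ⟨0, -1, -1, 0⟩],
    ![⟨0, 1, 1, 1⟩, ⟨0, 1, 1, 1⟩, ⟨0, -1, -1, -1⟩],
    ![⟨1, 2, 2, 1⟩, ⟨0, 1, 2, 1⟩, ⟨0, -2, -2, -1⟩]],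
  Matrix.of ![![⟨1, 1, 1, 0⟩, ⟨0, 1, 1, 0⟩, ⟨0, -1, -1, 0⟩],
    ![⟨0, 0, 0, 0⟩, ⟨0, 1, 1, 0⟩, ⟨-1, -1, -1, -1⟩],
    ![⟨1, 1, 1, 0⟩, ⟨1, 2, 2, 1⟩, ⟨-1, -2, -2, -1⟩]],
  Matrix.of ![![⟨1, 1, 1, 0⟩, ⟨0, 1, 1, 0⟩, ⟨0, -1, -1, 0⟩],
    ![⟨0, 1, 1, 1⟩, ⟨0, 2, 2, 1⟩, ⟨0, -1, -2, -1⟩],
    ![⟨1, 2, 2, 1⟩, ⟨1, 3, 3, 1⟩, ⟨-1, -3, -3, -2⟩]],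
  Matrix.of ![![⟨0, 1, 1, 0⟩, ⟨0, 0, 1, 1⟩, ⟨0, -1, -1, -1⟩],
    ![⟨0, 1, 1, 0⟩, ⟨0, 1, 1, 0⟩, ⟨0, -1, -1, 0⟩],
    ![⟨1, 2, 2, 1⟩, ⟨0, 1, 2, 1⟩, ⟨0, -2, -2, -1⟩]],
  Matrix.of ![![⟨1, 1, 1, 0⟩, ⟨0, 1, 1, 1⟩, ⟨0, -1, -1, 0⟩],
    ![⟨0, 1, 1, 0⟩, ⟨0, 2, 2, 1⟩, ⟨-1, -2, -2, -1⟩],
    ![⟨1, 2, 2, 1⟩, ⟨0, 2, 3, 2⟩, ⟨-1, -3, -3, -2⟩]],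
  Matrix.of ![![⟨1, 0, 0, 0⟩, ⟨0, 0, 0, 0⟩, ⟨0, 0, 0, 0⟩],
    ![⟨0, 0, 0, 0⟩, ⟨0, 1, 1, 1⟩, ⟨0, 0, -1, 0⟩],
    ![⟨0, 0, 0, 0⟩, ⟨0, 1, 1, 1⟩, ⟨0, -1, -1, -1⟩]],
  Matrix.of ![![⟨1, 1, 1, 0⟩, ⟨0, 0, 0, 0⟩, ⟨0, -1, 0, 0⟩],
    ![⟨0, 1, 1, 0⟩, ⟨0, 1, 1, 0⟩, ⟨0, -1, -1, 0⟩],
    ![⟨1, 2, 2, 1⟩, ⟨0, 1, 1, 0⟩, ⟨-1, -2, -2, -1⟩]],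
  Matrix.of ![![⟨0, 1, 1, 1⟩, ⟨0, 1, 1, 1⟩, ⟨0, -1, -1, -1⟩],
    ![⟨0, 0, 1, 1⟩, ⟨0, 1, 1, 0⟩, ⟨0, -1, -1, -1⟩],
    ![⟨0, 1, 2, 1⟩, ⟨1, 2, 2, 1⟩, ⟨0, -2, -2, -1⟩]],
  Matrix.of ![![⟨0, 1, 1, 1⟩, ⟨0, 1, 1, 1⟩, ⟨0, -1, -1, -1⟩],
    ![⟨0, 1, 1, 1⟩, ⟨1, 2, 2, 0⟩, ⟨-1, -2, -2, -1⟩],
    ![⟨0, 1, 2, 1⟩, ⟨1, 3, 3, 1⟩, ⟨-1, -3, -3, -2⟩]],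
  Matrix.of ![![⟨0, 1, 1, 0⟩, ⟨0, 1, 1, 1⟩, ⟨0, -1, -1, 0⟩],
    ![⟨0, 0, 1, 1⟩, ⟨0, 1, 1, 1⟩, ⟨0, -1, -1, -1⟩],
    ![⟨0, 1, 2, 1⟩, ⟨0, 1, 2, 1⟩, ⟨0, -2, -2, -1⟩]],
  Matrix.of ![![⟨0, 1, 1, 0⟩, ⟨0, 1, 1, 0⟩, ⟨0, -1, -1, 0⟩],
    ![⟨0, 0, 0, 0⟩, ⟨0, 1, 1, 0⟩, ⟨-1, -1, -1, -1⟩],
    ![⟨0, 1, 1, 0⟩, ⟨1, 2, 2, 1⟩, ⟨-1, -2, -2, -1⟩]],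
  Matrix.of ![![⟨0, 1, 1, 0⟩, ⟨0, 1, 1, 0⟩, ⟨0, -1, -1, 0⟩],
    ![⟨0, 0, 1, 1⟩, ⟨0, 2, 2, 1⟩, ⟨0, -1, -2, -1⟩],
    ![⟨0, 1, 2, 1⟩, ⟨1, 3, 3, 1⟩, ⟨-1, -3, -3, -2⟩]],
  Matrix.of ![![⟨0, 1, 1, 1⟩, ⟨0, 0, 1, 1⟩, ⟨0, -1, -1, -1⟩],
    ![⟨0, 1, 1, 1⟩, ⟨0, 1, 1, 0⟩, ⟨0, -1, -1, 0⟩],
    ![⟨0, 1, 2, 1⟩, ⟨0, 1, 2, 1⟩, ⟨0, -2, -2, -1⟩]],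
  Matrix.of ![![⟨0, 1, 1, 0⟩, ⟨0, 1, 1, 1⟩, ⟨0, -1, -1, 0⟩],
    ![⟨0, 1, 1, 1⟩, ⟨0, 2, 2, 1⟩, ⟨-1, -2, -2, -1⟩],
    ![⟨0, 1, 2, 1⟩, ⟨0, 2, 3, 2⟩, ⟨-1, -3, -3, -2⟩]],
  Matrix.of ![![⟨0, 0, 0, -1⟩, ⟨0, 0, 0, 0⟩, ⟨0, 0, 0, 0⟩],
    ![⟨0, 0, 0, 0⟩, ⟨0, 1, 1, 1⟩, ⟨0, 0, -1, 0⟩],
    ![⟨0, 0, 0, 0⟩, ⟨0, 1, 1, 1⟩, ⟨0, -1, -1, -1⟩]],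
  Matrix.of ![![⟨0, 1, 1, 0⟩, ⟨0, 0, 0, 0⟩, ⟨0, -1, 0, 0⟩],
    ![⟨0, 1, 1, 1⟩, ⟨0, 1, 1, 0⟩, ⟨0, -1, -1, 0⟩],
    ![⟨0, 1, 2, 1⟩, ⟨0, 1, 1, 0⟩, ⟨-1, -2, -2, -1⟩]],
  Matrix.of ![![⟨0, 0, 0, 0⟩, ⟨0, 0, 0, 1⟩, ⟨0, 0, 0, 0⟩],
    ![⟨0, 0, 0, 1⟩, ⟨0, 0, 0, 0⟩, ⟨0, 0, 0, 0⟩],
    ![⟨0, 0, 0, 0⟩, ⟨0, 0, 0, 0⟩, ⟨0, -1, 0, 0⟩]],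
  Matrix.of ![![⟨0, 1, 1, 0⟩, ⟨0, 1, 1, 1⟩, ⟨0, -1, -1, -1⟩],
    ![⟨0, 0, 0, 0⟩, ⟨0, 1, 1, 0⟩, ⟨-1, -1, -1, -1⟩],
    ![⟨1, 1, 1, 0⟩, ⟨1, 2, 2, 1⟩, ⟨-1, -2, -2, -1⟩]],
  Matrix.of ![![⟨0, 1, 1, 0⟩, ⟨0, 1, 1, 1⟩, ⟨0, -1, -1, -1⟩],
    ![⟨0, 1, 1, 1⟩, ⟨0, 2, 2, 1⟩, ⟨0, -1, -2, -1⟩],
    ![⟨1, 2, 2, 1⟩, ⟨1, 3, 3, 1⟩, ⟨-1, -3, -3, -2⟩]],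
  Matrix.of ![![⟨0, 1, 1, 0⟩, ⟨0, 0, 1, 1⟩, ⟨0, -1, -1, -1⟩],
    ![⟨0, 1, 1, 1⟩, ⟨0, 1, 1, 1⟩, ⟨0, -1, -1, -1⟩],
    ![⟨1, 2, 2, 1⟩, ⟨0, 1, 2, 1⟩, ⟨0, -2, -2, -1⟩]],
  Matrix.of ![![⟨1, 1, 1, 0⟩, ⟨0, 1, 1, 1⟩, ⟨0, -1, -1, 0⟩],
    ![⟨0, 0, 0, 0⟩, ⟨0, 1, 1, 1⟩, ⟨-1, -1, -1, -1⟩],
    ![⟨1, 1, 1, 0⟩, ⟨0, 1, 2, 1⟩, ⟨-1, -2, -2, -1⟩]],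
  Matrix.of ![![⟨1, 1, 1, 0⟩, ⟨0, 1, 1, 0⟩, ⟨0, -1, -1, 0⟩],
    ![⟨0, 0, 0, 0⟩, ⟨0, 1, 1, 1⟩, ⟨0, 0, -1, 0⟩],
    ![⟨1, 1, 1, 0⟩, ⟨1, 2, 2, 1⟩, ⟨-1, -2, -2, -1⟩]],
  Matrix.of ![![⟨1, 1, 1, 0⟩, ⟨0, 0, 0, 0⟩, ⟨0, -1, 0, 0⟩],
    ![⟨0, 1, 1, 1⟩, ⟨0, 1, 1, 1⟩, ⟨0, -1, -1, -1⟩],
    ![⟨1, 2, 2, 1⟩, ⟨0, 1, 1, 0⟩, ⟨-1, -2, -2, -1⟩]],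
  Matrix.of ![![⟨0, 1, 1, 0⟩, ⟨0, 0, 1, 1⟩, ⟨0, -1, -1, -1⟩],
    ![⟨0, 1, 1, 0⟩, ⟨0, 2, 2, 1⟩, ⟨-1, -2, -2, -1⟩],
    ![⟨1, 2, 2, 1⟩, ⟨0, 2, 3, 2⟩, ⟨-1, -3, -3, -2⟩]],
  Matrix.of ![![⟨1, 1, 1, 0⟩, ⟨0, 1, 1, 1⟩, ⟨0, -1, -1, 0⟩],
    ![⟨0, 1, 1, 1⟩, ⟨0, 1, 2, 2⟩, ⟨0, -1, -2, -1⟩],
    ![⟨1, 2, 2, 1⟩, ⟨0, 2, 3, 2⟩, ⟨-1, -3, -3, -2⟩]],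
  Matrix.of ![![⟨1, 1, 1, 0⟩, ⟨0, 0, 0, 0⟩, ⟨0, -1, 0, 0⟩],
    ![⟨0, 1, 1, 0⟩, ⟨0, 1, 1, 1⟩, ⟨0, -1, -1, 0⟩],
    ![⟨1, 2, 2, 1⟩, ⟨0, 1, 1, 1⟩, ⟨-1, -2, -2, -1⟩]],
  Matrix.of ![![⟨0, 1, 1, 0⟩, ⟨0, 0, 0, 0⟩, ⟨-1, -1, -1, -1⟩],
    ![⟨0, 1, 1, 0⟩, ⟨0, 1, 1, 0⟩, ⟨0, -1, -1, 0⟩],
    ![⟨1, 2, 2, 1⟩, ⟨0, 1, 1, 0⟩, ⟨-1, -2, -2, -1⟩]],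
  Matrix.of ![![⟨0, 0, 0, 0⟩, ⟨0, 0, 0, 1⟩, ⟨0, 0, 0, 0⟩],
    ![⟨0, -1, 0, 0⟩, ⟨0, 0, 0, 0⟩, ⟨0, 0, 0, 0⟩],
    ![⟨0, 0, 0, 0⟩, ⟨0, 0, 0, 0⟩, ⟨0, -1, 0, 0⟩]],
  Matrix.of ![![⟨0, 1, 1, 1⟩, ⟨0, 1, 1, 1⟩, ⟨0, -1, -1, -1⟩],
    ![⟨0, 0, 0, 0⟩, ⟨0, 1, 1, 0⟩, ⟨-1, -1, -1, -1⟩],
    ![⟨0, 1, 1, 0⟩, ⟨1, 2, 2, 1⟩, ⟨-1, -2, -2, -1⟩]],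
  Matrix.of ![![⟨0, 1, 1, 1⟩, ⟨0, 1, 1, 1⟩, ⟨0, -1, -1, -1⟩],
    ![⟨0, 0, 1, 1⟩, ⟨0, 2, 2, 1⟩, ⟨0, -1, -2, -1⟩],
    ![⟨0, 1, 2, 1⟩, ⟨1, 3, 3, 1⟩, ⟨-1, -3, -3, -2⟩]],
  Matrix.of ![![⟨0, 1, 1, 1⟩, ⟨0, 0, 1, 1⟩, ⟨0, -1, -1, -1⟩],
    ![⟨0, 0, 1, 1⟩, ⟨0, 1, 1, 1⟩, ⟨0, -1, -1, -1⟩],
    ![⟨0, 1, 2, 1⟩, ⟨0, 1, 2, 1⟩, ⟨0, -2, -2, -1⟩]],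
  Matrix.of ![![⟨0, 1, 1, 0⟩, ⟨0, 1, 1, 1⟩, ⟨0, -1, -1, 0⟩],
    ![⟨0, 0, 0, 0⟩, ⟨0, 1, 1, 1⟩, ⟨-1, -1, -1, -1⟩],
    ![⟨0, 1, 1, 0⟩, ⟨0, 1, 2, 1⟩, ⟨-1, -2, -2, -1⟩]],
  Matrix.of ![![⟨0, 1, 1, 0⟩, ⟨0, 1, 1, 0⟩, ⟨0, -1, -1, 0⟩],
    ![⟨0, 0, 0, 0⟩, ⟨0, 1, 1, 1⟩, ⟨0, 0, -1, 0⟩],
    ![⟨0, 1, 1, 0⟩, ⟨1, 2, 2, 1⟩, ⟨-1, -2, -2, -1⟩]],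
  Matrix.of ![![⟨0, 1, 1, 0⟩, ⟨0, 0, 0, 0⟩, ⟨0, -1, 0, 0⟩],
    ![⟨0, 0, 1, 1⟩, ⟨0, 1, 1, 1⟩, ⟨0, -1, -1, -1⟩],
    ![⟨0, 1, 2, 1⟩, ⟨0, 1, 1, 0⟩, ⟨-1, -2, -2, -1⟩]],
  Matrix.of ![![⟨0, 1, 1, 1⟩, ⟨0, 0, 1, 1⟩, ⟨0, -1, -1, -1⟩],
    ![⟨0, 1, 1, 1⟩, ⟨0, 2, 2, 1⟩, ⟨-1, -2, -2, -1⟩],
    ![⟨0, 1, 2, 1⟩, ⟨0, 2, 3, 2⟩, ⟨-1, -3, -3, -2⟩]],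
  Matrix.of ![![⟨0, 1, 1, 0⟩, ⟨0, 1, 1, 1⟩, ⟨0, -1, -1, 0⟩],
    ![⟨0, 0, 1, 1⟩, ⟨0, 1, 2, 2⟩, ⟨0, -1, -2, -1⟩],
    ![⟨0, 1, 2, 1⟩, ⟨0, 2, 3, 2⟩, ⟨-1, -3, -3, -2⟩]],
  Matrix.of ![![⟨0, 1, 1, 0⟩, ⟨0, 0, 0, 0⟩, ⟨0, -1, 0, 0⟩],
    ![⟨0, 1, 1, 1⟩, ⟨0, 1, 1, 1⟩, ⟨0, -1, -1, 0⟩],
    ![⟨0, 1, 2, 1⟩, ⟨0, 1, 1, 1⟩, ⟨-1, -2, -2, -1⟩]],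
  Matrix.of ![![⟨0, 1, 1, 1⟩, ⟨0, 0, 0, 0⟩, ⟨-1, -1, -1, -1⟩],
    ![⟨0, 1, 1, 1⟩, ⟨0, 1, 1, 0⟩, ⟨0, -1, -1, 0⟩],
    ![⟨0, 1, 2, 1⟩, ⟨0, 1, 1, 0⟩, ⟨-1, -2, -2, -1⟩]],
  Matrix.of ![![⟨0, 0, 0, 0⟩, ⟨0, -1, 0, 0⟩, ⟨0, 0, 0, 0⟩],
    ![⟨0, 0, 0, 1⟩, ⟨0, 0, 0, 0⟩, ⟨0, 0, 0, 0⟩],
    ![⟨0, 0, 0, 0⟩, ⟨0, 0, 0, 0⟩, ⟨0, -1, 0, 0⟩]],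
  Matrix.of ![![⟨0, 0, 0, 0⟩, ⟨0, 0, 0, 1⟩, ⟨0, 0, 0, 0⟩],
    ![⟨0, -1, -1, 0⟩, ⟨0, 0, 0, 0⟩, ⟨-1, 0, 0, 0⟩],
    ![⟨0, -1, -1, -1⟩, ⟨0, 0, 0, 0⟩, ⟨-1, -1, 0, 0⟩]],
  Matrix.of ![![⟨0, 1, 1, 0⟩, ⟨0, 1, 1, 1⟩, ⟨0, -1, -1, -1⟩],
    ![⟨0, 0, 0, 0⟩, ⟨0, 1, 1, 1⟩, ⟨0, 0, -1, 0⟩],
    ![⟨1, 1, 1, 0⟩, ⟨1, 2, 2, 1⟩, ⟨-1, -2, -2, -1⟩]],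
  Matrix.of ![![⟨0, 0, 0, 0⟩, ⟨0, -1, -1, 0⟩, ⟨0, 0, 1, 0⟩],
    ![⟨0, 0, 0, 1⟩, ⟨0, 0, 0, 0⟩, ⟨0, 0, 0, 0⟩],
    ![⟨0, 0, 0, 0⟩, ⟨0, 0, -1, -1⟩, ⟨-1, -1, 0, 0⟩]],
  Matrix.of ![![⟨0, 1, 1, 0⟩, ⟨0, 0, 1, 1⟩, ⟨0, -1, -1, -1⟩],
    ![⟨0, 0, 0, 0⟩, ⟨0, 1, 1, 1⟩, ⟨-1, -1, -1, -1⟩],
    ![⟨1, 1, 1, 0⟩, ⟨0, 1, 2, 1⟩, ⟨-1, -2, -2, -1⟩]],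
  Matrix.of ![![⟨1, 1, 1, 0⟩, ⟨0, 1, 1, 1⟩, ⟨0, -1, -1, 0⟩],
    ![⟨0, 0, 0, 0⟩, ⟨0, 0, 1, 1⟩, ⟨0, 0, -1, 0⟩],
    ![⟨1, 1, 1, 0⟩, ⟨0, 1, 2, 1⟩, ⟨-1, -2, -2, -1⟩]],
  Matrix.of ![![⟨1, 1, 1, 0⟩, ⟨0, 0, 0, 0⟩, ⟨0, -1, 0, 0⟩],
    ![⟨0, 0, 0, 0⟩, ⟨0, 0, 0, 1⟩, ⟨0, 0, 0, 0⟩],
    ![⟨1, 1, 1, 0⟩, ⟨0, 0, 0, 0⟩, ⟨-1, -1, -1, 0⟩]],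
  Matrix.of ![![⟨0, 1, 1, 0⟩, ⟨0, 0, 0, 0⟩, ⟨-1, -1, -1, -1⟩],
    ![⟨0, 1, 1, 1⟩, ⟨0, 1, 1, 1⟩, ⟨0, -1, -1, -1⟩],
    ![⟨1, 2, 2, 1⟩, ⟨0, 1, 1, 0⟩, ⟨-1, -2, -2, -1⟩]],
  Matrix.of ![![⟨0, 1, 1, 0⟩, ⟨0, 0, 1, 1⟩, ⟨0, -1, -1, -1⟩],
    ![⟨0, 1, 1, 1⟩, ⟨0, 1, 2, 2⟩, ⟨0, -1, -2, -1⟩],
    ![⟨1, 2, 2, 1⟩, ⟨0, 2, 3, 2⟩, ⟨-1, -3, -3, -2⟩]],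
  Matrix.of ![![⟨1, 1, 1, 0⟩, ⟨0, 0, 0, 0⟩, ⟨0, -1, 0, 0⟩],
    ![⟨0, 1, 1, 1⟩, ⟨0, 0, 1, 1⟩, ⟨0, -1, -1, -1⟩],
    ![⟨1, 2, 2, 1⟩, ⟨0, 1, 1, 1⟩, ⟨-1, -2, -2, -1⟩]],
  Matrix.of ![![⟨0, 1, 1, 0⟩, ⟨0, 0, 0, 0⟩, ⟨-1, -1, -1, -1⟩],
    ![⟨0, 1, 1, 0⟩, ⟨0, 1, 1, 1⟩, ⟨0, -1, -1, 0⟩],
    ![⟨1, 2, 2, 1⟩, ⟨0, 1, 1, 1⟩, ⟨-1, -2, -2, -1⟩]],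
  Matrix.of ![![⟨0, 0, 0, 0⟩, ⟨0, -1, 0, 0⟩, ⟨0, 0, 0, 0⟩],
    ![⟨0, -1, 0, 0⟩, ⟨0, 0, 0, 0⟩, ⟨0, 0, 0, 0⟩],
    ![⟨0, 0, 0, 0⟩, ⟨0, 0, 0, 0⟩, ⟨0, -1, 0, 0⟩]],
  Matrix.of ![![⟨0, 0, 0, 0⟩, ⟨0, 0, 0, 1⟩, ⟨0, 0, 0, 0⟩],
    ![⟨0, -1, -1, -1⟩, ⟨0, 0, 0, 0⟩, ⟨-1, 0, 0, 0⟩],
    ![⟨0, 0, -1, -1⟩, ⟨0, 0, 0, 0⟩, ⟨-1, -1, 0, 0⟩]],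
  Matrix.of ![![⟨0, 1, 1, 1⟩, ⟨0, 1, 1, 1⟩, ⟨0, -1, -1, -1⟩],
    ![⟨0, 0, 0, 0⟩, ⟨0, 1, 1, 1⟩, ⟨0, 0, -1, 0⟩],
    ![⟨0, 1, 1, 0⟩, ⟨1, 2, 2, 1⟩, ⟨-1, -2, -2, -1⟩]],
  Matrix.of ![![⟨0, 0, 0, 0⟩, ⟨0, -1, -1, 0⟩, ⟨0, 0, 1, 0⟩],
    ![⟨0, -1, 0, 0⟩, ⟨0, 0, 0, 0⟩, ⟨0, 0, 0, 0⟩],
    ![⟨0, 0, 0, 0⟩, ⟨0, 0, -1, -1⟩, ⟨-1, -1, 0, 0⟩]],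
  Matrix.of ![![⟨0, 1, 1, 1⟩, ⟨0, 0, 1, 1⟩, ⟨0, -1, -1, -1⟩],
    ![⟨0, 0, 0, 0⟩, ⟨0, 1, 1, 1⟩, ⟨-1, -1, -1, -1⟩],
    ![⟨0, 1, 1, 0⟩, ⟨0, 1, 2, 1⟩, ⟨-1, -2, -2, -1⟩]],
  Matrix.of ![![⟨0, 1, 1, 0⟩, ⟨0, 1, 1, 1⟩, ⟨0, -1, -1, 0⟩],
    ![⟨0, 0, 0, 0⟩, ⟨0, 0, 1, 1⟩, ⟨0, 0, -1, 0⟩],
    ![⟨0, 1, 1, 0⟩, ⟨0, 1, 2, 1⟩, ⟨-1, -2, -2, -1⟩]],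
  Matrix.of ![![⟨0, 1, 1, 0⟩, ⟨0, 0, 0, 0⟩, ⟨0, -1, 0, 0⟩],
    ![⟨0, 0, 0, 0⟩, ⟨0, 0, 0, 1⟩, ⟨0, 0, 0, 0⟩],
    ![⟨0, 1, 1, 0⟩, ⟨0, 0, 0, 0⟩, ⟨-1, -1, -1, 0⟩]],
  Matrix.of ![![⟨0, 1, 1, 1⟩, ⟨0, 0, 0, 0⟩, ⟨-1, -1, -1, -1⟩],
    ![⟨0, 0, 1, 1⟩, ⟨0, 1, 1, 1⟩, ⟨0, -1, -1, -1⟩],
    ![⟨0, 1, 2, 1⟩, ⟨0, 1, 1, 0⟩, ⟨-1, -2, -2, -1⟩]],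
  Matrix.of ![![⟨0, 1, 1, 1⟩, ⟨0, 0, 1, 1⟩, ⟨0, -1, -1, -1⟩],
    ![⟨0, 0, 1, 1⟩, ⟨0, 1, 2, 2⟩, ⟨0, -1, -2, -1⟩],
    ![⟨0, 1, 2, 1⟩, ⟨0, 2, 3, 2⟩, ⟨-1, -3, -3, -2⟩]],
  Matrix.of ![![⟨0, 1, 1, 0⟩, ⟨0, 0, 0, 0⟩, ⟨0, -1, 0, 0⟩],
    ![⟨0, 0, 1, 1⟩, ⟨0, 0, 1, 1⟩, ⟨0, -1, -1, -1⟩],
    ![⟨0, 1, 2, 1⟩, ⟨0, 1, 1, 1⟩, ⟨-1, -2, -2, -1⟩]],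
  Matrix.of ![![⟨0, 1, 1, 1⟩, ⟨0, 0, 0, 0⟩, ⟨-1, -1, -1, -1⟩],
    ![⟨0, 1, 1, 1⟩, ⟨0, 1, 1, 1⟩, ⟨0, -1, -1, 0⟩],
    ![⟨0, 1, 2, 1⟩, ⟨0, 1, 1, 1⟩, ⟨-1, -2, -2, -1⟩]],
  Matrix.of ![![⟨0, 0, 0, 0⟩, ⟨0, -1, 0, 0⟩, ⟨0, 0, 0, 0⟩],
    ![⟨0, -1, -1, 0⟩, ⟨0, 0, 0, 0⟩, ⟨-1, 0, 0, 0⟩],
    ![⟨0, -1, -1, -1⟩, ⟨0, 0, 0, 0⟩, ⟨-1, -1, 0, 0⟩]],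
  Matrix.of ![![⟨0, 0, 0, 0⟩, ⟨0, 0, 0, 1⟩, ⟨0, 0, 0, 0⟩],
    ![⟨0, -1, -1, -1⟩, ⟨0, 0, 0, 0⟩, ⟨0, 0, 0, 1⟩],
    ![⟨0, -1, -1, -1⟩, ⟨0, 0, 0, 0⟩, ⟨-1, -1, 0, 0⟩]],
  Matrix.of ![![⟨0, 0, 0, 0⟩, ⟨0, -1, -1, 0⟩, ⟨0, 0, 1, 0⟩],
    ![⟨0, -1, -1, 0⟩, ⟨0, -1, -1, 0⟩, ⟨0, 1, 1, 1⟩],
    ![⟨0, -1, -1, -1⟩, ⟨0, -1, -2, -1⟩, ⟨-1, 0, 1, 1⟩]],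
  Matrix.of ![![⟨0, 0, 0, 0⟩, ⟨0, -1, -1, -1⟩, ⟨-1, 0, 0, 0⟩],
    ![⟨0, 0, 0, 1⟩, ⟨0, 0, 0, 0⟩, ⟨0, 0, 0, 0⟩],
    ![⟨0, 0, 0, 0⟩, ⟨0, 0, -1, -1⟩, ⟨-1, -1, 0, 0⟩]],
  Matrix.of ![![⟨0, 1, 1, 0⟩, ⟨0, 0, 1, 1⟩, ⟨0, -1, -1, -1⟩],
    ![⟨0, 0, 0, 0⟩, ⟨0, 0, 1, 1⟩, ⟨0, 0, -1, 0⟩],
    ![⟨1, 1, 1, 0⟩, ⟨0, 1, 2, 1⟩, ⟨-1, -2, -2, -1⟩]],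
  Matrix.of ![![⟨1, 1, 1, 0⟩, ⟨0, 0, 0, 0⟩, ⟨0, -1, 0, 0⟩],
    ![⟨0, 0, 0, 0⟩, ⟨0, -1, 0, 0⟩, ⟨0, 0, 0, 0⟩],
    ![⟨1, 1, 1, 0⟩, ⟨0, 0, 0, 0⟩, ⟨-1, -1, -1, 0⟩]],
  Matrix.of ![![⟨0, 1, 1, 0⟩, ⟨0, 0, 0, 0⟩, ⟨-1, -1, -1, -1⟩],
    ![⟨0, 0, 0, 0⟩, ⟨0, 0, 0, 1⟩, ⟨0, 0, 0, 0⟩],
    ![⟨1, 1, 1, 0⟩, ⟨0, 0, 0, 0⟩, ⟨-1, -1, -1, 0⟩]],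
  Matrix.of ![![⟨0, 0, 0, 0⟩, ⟨0, -1, -1, -1⟩, ⟨0, 0, 1, 0⟩],
    ![⟨0, 0, 0, 1⟩, ⟨0, 0, 0, 0⟩, ⟨0, 0, 0, 0⟩],
    ![⟨0, 0, 0, 0⟩, ⟨1, 1, 0, 0⟩, ⟨-1, -1, 0, 0⟩]],
  Matrix.of ![![⟨0, 1, 1, 0⟩, ⟨0, 0, 0, 0⟩, ⟨-1, -1, -1, -1⟩],
    ![⟨0, 1, 1, 1⟩, ⟨0, 0, 1, 1⟩, ⟨0, -1, -1, -1⟩],
    ![⟨1, 2, 2, 1⟩, ⟨0, 1, 1, 1⟩, ⟨-1, -2, -2, -1⟩]],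
  Matrix.of ![![⟨0, 0, 0, 0⟩, ⟨0, -1, 0, 0⟩, ⟨0, 0, 0, 0⟩],
    ![⟨0, -1, -1, -1⟩, ⟨0, 0, 0, 0⟩, ⟨-1, 0, 0, 0⟩],
    ![⟨0, 0, -1, -1⟩, ⟨0, 0, 0, 0⟩, ⟨-1, -1, 0, 0⟩]],
  Matrix.of ![![⟨0, 0, 0, 0⟩, ⟨0, 0, 0, 1⟩, ⟨0, 0, 0, 0⟩],
    ![⟨0, 0, -1, -1⟩, ⟨0, 0, 0, 0⟩, ⟨0, 0, 0, 1⟩],
    ![⟨0, 0, -1, -1⟩, ⟨0, 0, 0, 0⟩, ⟨-1, -1, 0, 0⟩]],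
  Matrix.of ![![⟨0, 0, 0, 0⟩, ⟨0, -1, -1, 0⟩, ⟨0, 0, 1, 0⟩],
    ![⟨0, -1, -1, -1⟩, ⟨0, -1, -1, 0⟩, ⟨0, 1, 1, 1⟩],
    ![⟨0, 0, -1, -1⟩, ⟨0, -1, -2, -1⟩, ⟨-1, 0, 1, 1⟩]],
  Matrix.of ![![⟨0, 0, 0, 0⟩, ⟨0, -1, -1, -1⟩, ⟨-1, 0, 0, 0⟩],
    ![⟨0, -1, 0, 0⟩, ⟨0, 0, 0, 0⟩, ⟨0, 0, 0, 0⟩],
    ![⟨0, 0, 0, 0⟩, ⟨0, 0, -1, -1⟩, ⟨-1, -1, 0, 0⟩]],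
  Matrix.of ![![⟨0, 1, 1, 1⟩, ⟨0, 0, 1, 1⟩, ⟨0, -1, -1, -1⟩],
    ![⟨0, 0, 0, 0⟩, ⟨0, 0, 1, 1⟩, ⟨0, 0, -1, 0⟩],
    ![⟨0, 1, 1, 0⟩, ⟨0, 1, 2, 1⟩, ⟨-1, -2, -2, -1⟩]],
  Matrix.of ![![⟨0, 1, 1, 0⟩, ⟨0, 0, 0, 0⟩, ⟨0, -1, 0, 0⟩],
    ![⟨0, 0, 0, 0⟩, ⟨0, -1, 0, 0⟩, ⟨0, 0, 0, 0⟩],
    ![⟨0, 1, 1, 0⟩, ⟨0, 0, 0, 0⟩, ⟨-1, -1, -1, 0⟩]],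
  Matrix.of ![![⟨0, 1, 1, 1⟩, ⟨0, 0, 0, 0⟩, ⟨-1, -1, -1, -1⟩],
    ![⟨0, 0, 0, 0⟩, ⟨0, 0, 0, 1⟩, ⟨0, 0, 0, 0⟩],
    ![⟨0, 1, 1, 0⟩, ⟨0, 0, 0, 0⟩, ⟨-1, -1, -1, 0⟩]],
  Matrix.of ![![⟨0, 0, 0, 0⟩, ⟨0, -1, -1, -1⟩, ⟨0, 0, 1, 0⟩],
    ![⟨0, -1, 0, 0⟩, ⟨0, 0, 0, 0⟩, ⟨0, 0, 0, 0⟩],
    ![⟨0, 0, 0, 0⟩, ⟨1, 1, 0, 0⟩, ⟨-1, -1, 0, 0⟩]],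
  Matrix.of ![![⟨0, 1, 1, 1⟩, ⟨0, 0, 0, 0⟩, ⟨-1, -1, -1, -1⟩],
    ![⟨0, 0, 1, 1⟩, ⟨0, 0, 1, 1⟩, ⟨0, -1, -1, -1⟩],
    ![⟨0, 1, 2, 1⟩, ⟨0, 1, 1, 1⟩, ⟨-1, -2, -2, -1⟩]],
  Matrix.of ![![⟨0, 0, 0, 0⟩, ⟨0, -1, 0, 0⟩, ⟨0, 0, 0, 0⟩],
    ![⟨0, -1, -1, -1⟩, ⟨0, 0, 0, 0⟩, ⟨0, 0, 0, 1⟩],
    ![⟨0, -1, -1, -1⟩, ⟨0, 0, 0, 0⟩, ⟨-1, -1, 0, 0⟩]],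
  Matrix.of ![![⟨0, 0, 0, 0⟩, ⟨0, -1, -1, 0⟩, ⟨0, 0, 1, 0⟩],
    ![⟨0, -1, -1, -1⟩, ⟨0, -1, -1, -1⟩, ⟨0, 0, 1, 1⟩],
    ![⟨0, -1, -1, -1⟩, ⟨0, -1, -2, -1⟩, ⟨-1, 0, 1, 1⟩]],
  Matrix.of ![![⟨0, 0, 0, 0⟩, ⟨0, -1, -1, -1⟩, ⟨-1, 0, 0, 0⟩],
    ![⟨0, -1, -1, 0⟩, ⟨0, -1, -1, 0⟩, ⟨0, 1, 1, 1⟩],
    ![⟨0, -1, -1, -1⟩, ⟨0, -1, -2, -1⟩, ⟨-1, 0, 1, 1⟩]],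
  Matrix.of ![![⟨0, 0, 0, 0⟩, ⟨0, -1, -1, -1⟩, ⟨0, 0, 1, 0⟩],
    ![⟨0, -1, -1, 0⟩, ⟨0, -1, -1, -1⟩, ⟨0, 1, 1, 1⟩],
    ![⟨0, -1, -1, -1⟩, ⟨1, 0, -1, -1⟩, ⟨-1, 0, 1, 1⟩]],
  Matrix.of ![![⟨0, 1, 1, 0⟩, ⟨0, 0, 0, 0⟩, ⟨-1, -1, -1, -1⟩],
    ![⟨0, 0, 0, 0⟩, ⟨0, -1, 0, 0⟩, ⟨0, 0, 0, 0⟩],
    ![⟨1, 1, 1, 0⟩, ⟨0, 0, 0, 0⟩, ⟨-1, -1, -1, 0⟩]],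
  Matrix.of ![![⟨0, 0, 0, 0⟩, ⟨0, 0, -1, -1⟩, ⟨-1, 0, 0, 0⟩],
    ![⟨0, 0, 0, 1⟩, ⟨0, 0, 0, 0⟩, ⟨0, 0, 0, 0⟩],
    ![⟨0, 0, 0, 0⟩, ⟨1, 1, 0, 0⟩, ⟨-1, -1, 0, 0⟩]],
  Matrix.of ![![⟨0, 0, 0, 0⟩, ⟨0, -1, 0, 0⟩, ⟨0, 0, 0, 0⟩],
    ![⟨0, 0, -1, -1⟩, ⟨0, 0, 0, 0⟩, ⟨0, 0, 0, 1⟩],
    ![⟨0, 0, -1, -1⟩, ⟨0, 0, 0, 0⟩, ⟨-1, -1, 0, 0⟩]],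
  Matrix.of ![![⟨0, 0, 0, 0⟩, ⟨0, -1, -1, 0⟩, ⟨0, 0, 1, 0⟩],
    ![⟨0, 0, -1, -1⟩, ⟨0, -1, -1, -1⟩, ⟨0, 0, 1, 1⟩],
    ![⟨0, 0, -1, -1⟩, ⟨0, -1, -2, -1⟩, ⟨-1, 0, 1, 1⟩]],
  Matrix.of ![![⟨0, 0, 0, 0⟩, ⟨0, -1, -1, -1⟩, ⟨-1, 0, 0, 0⟩],
    ![⟨0, -1, -1, -1⟩, ⟨0, -1, -1, 0⟩, ⟨0, 1, 1, 1⟩],
    ![⟨0, 0, -1, -1⟩, ⟨0, -1, -2, -1⟩, ⟨-1, 0, 1, 1⟩]],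
  Matrix.of ![![⟨0, 0, 0, 0⟩, ⟨0, -1, -1, -1⟩, ⟨0, 0, 1, 0⟩],
    ![⟨0, -1, -1, -1⟩, ⟨0, -1, -1, -1⟩, ⟨0, 1, 1, 1⟩],
    ![⟨0, 0, -1, -1⟩, ⟨1, 0, -1, -1⟩, ⟨-1, 0, 1, 1⟩]],
  Matrix.of ![![⟨0, 1, 1, 1⟩, ⟨0, 0, 0, 0⟩, ⟨-1, -1, -1, -1⟩],
    ![⟨0, 0, 0, 0⟩, ⟨0, -1, 0, 0⟩, ⟨0, 0, 0, 0⟩],
    ![⟨0, 1, 1, 0⟩, ⟨0, 0, 0, 0⟩, ⟨-1, -1, -1, 0⟩]],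
  Matrix.of ![![⟨0, 0, 0, 0⟩, ⟨0, 0, -1, -1⟩, ⟨-1, 0, 0, 0⟩],
    ![⟨0, -1, 0, 0⟩, ⟨0, 0, 0, 0⟩, ⟨0, 0, 0, 0⟩],
    ![⟨0, 0, 0, 0⟩, ⟨1, 1, 0, 0⟩, ⟨-1, -1, 0, 0⟩]],
  Matrix.of ![![⟨0, 0, 0, 0⟩, ⟨0, -1, -1, -1⟩, ⟨0, 0, 1, 0⟩],
    ![⟨0, -1, -1, -1⟩, ⟨0, 0, -1, -1⟩, ⟨0, 0, 1, 1⟩],
    ![⟨0, -1, -1, -1⟩, ⟨1, 0, -1, -1⟩, ⟨-1, 0, 1, 1⟩]],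
  Matrix.of ![![⟨0, 0, 0, 0⟩, ⟨0, -1, -1, -1⟩, ⟨-1, 0, 0, 0⟩],
    ![⟨0, -1, -1, -1⟩, ⟨0, -1, -1, -1⟩, ⟨0, 0, 1, 1⟩],
    ![⟨0, -1, -1, -1⟩, ⟨0, -1, -2, -1⟩, ⟨-1, 0, 1, 1⟩]],
  Matrix.of ![![⟨0, 0, 0, 0⟩, ⟨0, 0, -1, -1⟩, ⟨-1, 0, 0, 0⟩],
    ![⟨0, -1, -1, 0⟩, ⟨0, -1, -1, -1⟩, ⟨0, 1, 1, 1⟩],
    ![⟨0, -1, -1, -1⟩, ⟨1, 0, -1, -1⟩, ⟨-1, 0, 1, 1⟩]],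
  Matrix.of ![![⟨0, 0, 0, 0⟩, ⟨0, -1, -1, -1⟩, ⟨0, 0, 1, 0⟩],
    ![⟨0, 0, -1, -1⟩, ⟨0, 0, -1, -1⟩, ⟨0, 0, 1, 1⟩],
    ![⟨0, 0, -1, -1⟩, ⟨1, 0, -1, -1⟩, ⟨-1, 0, 1, 1⟩]],
  Matrix.of ![![⟨0, 0, 0, 0⟩, ⟨0, -1, -1, -1⟩, ⟨-1, 0, 0, 0⟩],
    ![⟨0, 0, -1, -1⟩, ⟨0, -1, -1, -1⟩, ⟨0, 0, 1, 1⟩],
    ![⟨0, 0, -1, -1⟩, ⟨0, -1, -2, -1⟩, ⟨-1, 0, 1, 1⟩]],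
  Matrix.of ![![⟨0, 0, 0, 0⟩, ⟨0, 0, -1, -1⟩, ⟨-1, 0, 0, 0⟩],
    ![⟨0, -1, -1, -1⟩, ⟨0, -1, -1, -1⟩, ⟨0, 1, 1, 1⟩],
    ![⟨0, 0, -1, -1⟩, ⟨1, 0, -1, -1⟩, ⟨-1, 0, 1, 1⟩]],
  Matrix.of ![![⟨0, 0, 0, 0⟩, ⟨0, 0, -1, -1⟩, ⟨-1, 0, 0, 0⟩],
    ![⟨0, -1, -1, -1⟩, ⟨0, 0, -1, -1⟩, ⟨0, 0, 1, 1⟩],
    ![⟨0, -1, -1, -1⟩, ⟨1, 0, -1, -1⟩, ⟨-1, 0, 1, 1⟩]],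
  Matrix.of ![![⟨0, 0, 0, 0⟩, ⟨0, 0, -1, -1⟩, ⟨-1, 0, 0, 0⟩],
    ![⟨0, 0, -1, -1⟩, ⟨0, 0, -1, -1⟩, ⟨0, 0, 1, 1⟩],
    ![⟨0, 0, -1, -1⟩, ⟨1, 0, -1, -1⟩, ⟨-1, 0, 1, 1⟩]]]

/-- left multiplication by the simple transpositions -/
def nx5 : Fin 120 → Fin 4 → Fin 120 := ![
  ![1, 2, 3, 4],
  ![0, 5, 6, 7],
  ![8, 0, 9, 10],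
  ![6, 11, 0, 12],
  ![7, 10, 13, 0],
  ![14, 1, 15, 16],
  ![3, 17, 1, 18],
  ![4, 16, 19, 1],
  ![2, 14, 20, 21],
  ![20, 22, 2, 23],
  ![21, 4, 24, 2],
  ![25, 3, 22, 26],
  ![18, 26, 27, 3],
  ![19, 28, 4, 27],
  ![5, 8, 29, 30],
  ![29, 31, 5, 32],
  ![30, 7, 33, 5],
  ![34, 6, 31, 35],
  ![12, 35, 36, 6],
  ![13, 37, 7, 36],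
  ![9, 38, 8, 39],
  ![10, 30, 40, 8],
  ![41, 9, 11, 42],
  ![39, 42, 43, 9],
  ![40, 44, 10, 43],
  ![11, 34, 41, 45],
  ![45, 12, 46, 11],
  ![36, 47, 12, 13],
  ![48, 13, 44, 47],
  ![15, 49, 14, 50],
  ![16, 21, 51, 14],
  ![52, 15, 17, 53],
  ![50, 53, 54, 15],
  ![51, 55, 16, 54],
  ![17, 25, 52, 56],
  ![56, 18, 57, 17],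
  ![27, 58, 18, 19],
  ![59, 19, 55, 58],
  ![60, 20, 49, 61],
  ![23, 61, 62, 20],
  ![24, 63, 21, 62],
  ![22, 60, 25, 64],
  ![64, 23, 65, 22],
  ![62, 66, 23, 24],
  ![67, 24, 28, 66],
  ![26, 56, 68, 25],
  ![68, 69, 26, 65],
  ![70, 27, 69, 28],
  ![28, 59, 67, 70],
  ![71, 29, 38, 72],
  ![32, 72, 73, 29],
  ![33, 74, 30, 73],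
  ![31, 71, 34, 75],
  ![75, 32, 76, 31],
  ![73, 77, 32, 33],
  ![78, 33, 37, 77],
  ![35, 45, 79, 34],
  ![79, 80, 35, 76],
  ![81, 36, 80, 37],
  ![37, 48, 78, 81],
  ![38, 41, 71, 82],
  ![82, 39, 83, 38],
  ![43, 84, 39, 40],
  ![85, 40, 74, 84],
  ![42, 82, 86, 41],
  ![86, 87, 42, 46],
  ![88, 43, 87, 44],
  ![44, 85, 48, 88],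
  ![46, 89, 45, 86],
  ![90, 46, 47, 87],
  ![47, 81, 90, 48],
  ![49, 52, 60, 91],
  ![91, 50, 92, 49],
  ![54, 93, 50, 51],
  ![94, 51, 63, 93],
  ![53, 91, 95, 52],
  ![95, 96, 53, 57],
  ![97, 54, 96, 55],
  ![55, 94, 59, 97],
  ![57, 98, 56, 95],
  ![99, 57, 58, 96],
  ![58, 70, 99, 59],
  ![61, 64, 100, 60],
  ![100, 101, 61, 92],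
  ![102, 62, 101, 63],
  ![63, 67, 94, 102],
  ![65, 103, 64, 68],
  ![104, 65, 66, 69],
  ![66, 102, 104, 67],
  ![105, 68, 98, 103],
  ![69, 105, 70, 104],
  ![72, 75, 106, 71],
  ![106, 107, 72, 83],
  ![108, 73, 107, 74],
  ![74, 78, 85, 108],
  ![76, 109, 75, 79],
  ![110, 76, 77, 80],
  ![77, 108, 110, 78],
  ![111, 79, 89, 109],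
  ![80, 111, 81, 110],
  ![83, 112, 82, 106],
  ![113, 83, 84, 107],
  ![84, 88, 113, 85],
  ![114, 86, 112, 89],
  ![87, 114, 88, 90],
  ![89, 90, 111, 114],
  ![92, 115, 91, 100],
  ![116, 92, 93, 101],
  ![93, 97, 116, 94],
  ![117, 95, 115, 98],
  ![96, 117, 97, 99],
  ![98, 99, 105, 117],
  ![118, 100, 103, 115],
  ![101, 118, 102, 116],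
  ![103, 104, 118, 105],
  ![119, 106, 109, 112],
  ![107, 119, 108, 113],
  ![109, 110, 119, 111],
  ![112, 113, 114, 119],
  ![115, 116, 117, 118]]

/-- whether the length goes up -/
def up5 : Fin 120 → Fin 4 → Bool := ![
  ![true, true, true, true],
  ![false, true, true, true],
  ![true, false, true, true],
  ![true, true, false, true],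
  ![true, true, true, false],
  ![true, false, true, true],
  ![false, true, false, true],
  ![false, true, true, false],
  ![false, true, true, true],
  ![true, true, false, true],
  ![true, false, true, false],
  ![true, false, true, true],
  ![true, true, true, false],
  ![true, true, false, true],
  ![false, false, true, true],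
  ![true, true, false, true],
  ![true, false, true, false],
  ![true, false, true, true],
  ![false, true, true, false],
  ![false, true, false, true],
  ![false, true, false, true],
  ![false, true, true, false],
  ![true, false, false, true],
  ![true, true, true, false],
  ![true, true, false, true],
  ![false, true, true, true],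
  ![true, false, true, false],
  ![true, true, false, false],
  ![true, false, true, true],
  ![false, true, false, true],
  ![false, false, true, false],
  ![true, false, false, true],
  ![true, true, true, false],
  ![true, true, false, true],
  ![false, false, true, true],
  ![true, false, true, false],
  ![false, true, false, false],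
  ![true, false, true, true],
  ![true, false, true, true],
  ![false, true, true, false],
  ![false, true, false, true],
  ![false, true, false, true],
  ![true, false, true, false],
  ![true, true, false, false],
  ![true, false, false, true],
  ![false, true, true, false],
  ![true, true, false, true],
  ![true, false, true, false],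
  ![false, true, true, true],
  ![true, false, false, true],
  ![false, true, true, false],
  ![false, true, false, true],
  ![false, true, false, true],
  ![true, false, true, false],
  ![true, true, false, false],
  ![true, false, false, true],
  ![false, false, true, false],
  ![true, true, false, true],
  ![true, false, true, false],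
  ![false, false, true, true],
  ![false, false, true, true],
  ![true, false, true, false],
  ![false, true, false, false],
  ![true, false, true, true],
  ![false, true, true, false],
  ![true, true, false, false],
  ![true, false, true, false],
  ![false, true, false, true],
  ![false, true, false, true],
  ![true, false, false, true],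
  ![false, true, true, false],
  ![false, false, false, true],
  ![true, false, true, false],
  ![false, true, false, false],
  ![true, false, false, true],
  ![false, true, true, false],
  ![true, true, false, false],
  ![true, false, true, false],
  ![false, true, false, true],
  ![false, true, false, true],
  ![true, false, false, true],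
  ![false, false, true, false],
  ![false, false, true, false],
  ![true, true, false, true],
  ![true, false, true, false],
  ![false, false, true, true],
  ![false, true, false, false],
  ![true, false, false, false],
  ![false, true, true, false],
  ![true, false, true, true],
  ![false, true, false, true],
  ![false, false, true, false],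
  ![true, true, false, false],
  ![true, false, true, false],
  ![false, false, false, true],
  ![false, true, false, false],
  ![true, false, false, false],
  ![false, true, true, false],
  ![true, false, false, true],
  ![false, true, false, true],
  ![false, true, false, true],
  ![true, false, false, true],
  ![false, false, true, false],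
  ![true, false, true, false],
  ![false, true, false, false],
  ![false, false, true, true],
  ![false, true, false, false],
  ![true, false, false, false],
  ![false, false, true, false],
  ![true, false, true, false],
  ![false, true, false, false],
  ![false, false, false, true],
  ![true, false, false, true],
  ![false, true, false, true],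
  ![false, false, true, false],
  ![true, false, false, false],
  ![false, true, false, false],
  ![false, false, true, false],
  ![false, false, false, true],
  ![false, false, false, false]]

lemma nx5_nx5 : ∀ k i, nx5 (nx5 k i) i = k := by decide +kernel

lemma up5_nx5 : ∀ k i, up5 (nx5 k i) i = !(up5 k i) := by decide +kernel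

lemma chkT : ∀ k : Fin 120, ∀ i : Fin 4, up5 k i = true →
    RZm (Fin.castLE (by decide) i) * TT5 k = TT5 (nx5 k i) := by decide +kernel

lemma TT5_zero : TT5 0 = 1 := by decide +kernel

end Pool.Agent.H.MP_c41128_gt
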