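import Pool.Agent.H.MP_c41128_gt.Chk0
import Pool.Agent.H.MP_c41128_gt.Chk1
import Pool.Agent.H.MP_c41128_gt.Chk2
import Pool.Agent.H.MP_c41128_gt.Chk3
import Pool.Agent.H.MP_c41128_gt.DataT

namespace Pool.Agent.H.MP_c41128_gt

open Matrix

lemma RZm_inv : ∀ i : Fin 4, RZm (Fin.castLE (by decide) i) * RZm (Fin.natAdd 4 i) = 1 ∧
    RZm (Fin.natAdd 4 i) * RZm (Fin.castLE (by decide) i) = 1 := by decide +kernel

/-- the half twists -/
def RZ (i : Fin 4) : GL (Fin 3) (Z5 ℤ) :=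
  ⟨RZm (Fin.castLE (by decide) i), RZm (Fin.natAdd 4 i), (RZm_inv i).1, (RZm_inv i).2⟩

/-- the group generated by the half twists -/
def DZ : Subgroup (GL (Fin 3) (Z5 ℤ)) := Subgroup.closure (Set.range RZ)

/-- the subgroup generated by the conjugates of the full twists -/
def NZ : Subgroup (GL (Fin 3) (Z5 ℤ)) :=
  Subgroup.closure {x | ∃ g ∈ DZ, ∃ i, x = g * RZ i ^ 2 * g⁻¹}

lemma RZ_mem (i : Fin 4) : RZ i ∈ DZ := Subgroup.subset_closure ⟨i, rfl⟩

lemma letter_mem (l : Fin 8) : ∃ g ∈ DZ, g.val = RZm l := by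
  refine Fin.addCases (m := 4) (n := 4) (motive := fun l : Fin 8 => ∃ g ∈ DZ, g.val = RZm l)
    (fun i => ⟨RZ i, RZ_mem i, rfl⟩) (fun i => ⟨(RZ i)⁻¹, DZ.inv_mem (RZ_mem i), rfl⟩) l

lemma wmat_mem (w : List (Fin 8)) : ∃ g ∈ DZ, ∀ M, wmat w M = g.val * M := by
  induction w with
  | nil => exact ⟨1, DZ.one_mem, fun M => by simp [wmat]⟩
  | cons l w ih =>
    obtain ⟨g, hg, h⟩ := ih
    obtain ⟨k, hk, hk2⟩ := letter_mem l
    exact ⟨k * g, DZ.mul_mem hk hg, fun M => by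
      rw [wmat, h, ← hk2, Units.val_mul, Matrix.mul_assoc]⟩

lemma chkR (s : Fin 60) (j : Fin 3) :
    FR s * rfm j = un (us s j) • wmat (wd s j) (FR (nx s j)) := by
  have hs := s.isLt
  rcases lt_or_ge s.val 15 with h | h
  · exact chk0 s (Nat.zero_le _) h j
  rcases lt_or_ge s.val 30 with h2 | h2
  · exact chk1 s h h2 j
  rcases lt_or_ge s.val 45 with h3 | h3
  · exact chk2 s h2 h3 j
  · exact chk3 s h3 hs j

lemma un_mul : ∀ i j : Fin 10, ∃ k : Fin 10, un i * un j = un k := by decide +kernel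

lemma un_star : ∀ i : Fin 10, un i * star (un i) = 1 := by decide +kernel

lemma start : EE = un 2 • wmat [1, 0, 2, 1, 6, 6, 6, 0] (FR 0) := by decide +kernel

/-- the group generated by the three real reflections -/
def W0 : Subgroup (GL (Fin 3) (Z5 ℤ)) := Subgroup.closure (Set.range rfl')

lemma W0_le : W0 ≤ W := by
  rw [W0, Subgroup.closure_le]
  rintro _ ⟨j, rfl⟩
  exact rfl'_mem j

lemma rfl'_mem_W0 (j : Fin 3) : rfl' j ∈ W0 := Subgroup.subset_closure ⟨j, rfl⟩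

lemma rfl'_inv (j : Fin 3) : (rfl' j)⁻¹ = rfl' j := by
  apply Units.ext; rfl

lemma frame_step {w : GL (Fin 3) (Z5 ℤ)} (j : Fin 3)
    (h : ∃ (s : Fin 60) (k : Fin 10), ∃ g ∈ DZ, EE * w.val = un k • (g.val * FR s)) :
    ∃ (s : Fin 60) (k : Fin 10), ∃ g ∈ DZ, EE * (w * rfl' j).val = un k • (g.val * FR s) := by
  obtain ⟨s, k, g, hg, h⟩ := h
  obtain ⟨g', hg', h'⟩ := wmat_mem (wd s j)
  obtain ⟨k', hk'⟩ := un_mul k (us s j)
  refine ⟨nx s j, k', g * g', DZ.mul_mem hg hg', ?_⟩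
  have h1 := chkR s j
  rw [h'] at h1
  rw [Units.val_mul, ← Matrix.mul_assoc, h, Matrix.smul_mul, Matrix.mul_assoc]
  change un k • (g.val * (FR s * rfm j)) = _
  rw [h1, Matrix.mul_smul, smul_smul, hk', Units.val_mul, Matrix.mul_assoc]

lemma frame_lemma {w : GL (Fin 3) (Z5 ℤ)} (hw : w ∈ W0) :
    ∃ (s : Fin 60) (k : Fin 10), ∃ g ∈ DZ, EE * w.val = un k • (g.val * FR s) := by
  induction hw using Subgroup.closure_induction_right with
  | one =>
    obtain ⟨g, hg, h⟩ := wmat_mem [1, 0, 2, 1, 6, 6, 6, 0]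
    refine ⟨0, 2, g, hg, ?_⟩
    rw [Units.val_one, Matrix.mul_one, ← h]
    exact start
  | mul_right x hx y hy ih =>
    obtain ⟨j, rfl⟩ := hy
    exact frame_step j ih
  | mul_inv_cancel x hx y hy ih =>
    obtain ⟨j, rfl⟩ := hy
    rw [rfl'_inv]
    exact frame_step j ih

lemma NZ_le : NZ ≤ DZ := by
  rw [NZ, Subgroup.closure_le]
  rintro _ ⟨g, hg, i, rfl⟩
  exact DZ.mul_mem (DZ.mul_mem hg (DZ.pow_mem (RZ_mem i) 2)) (DZ.inv_mem hg)

lemma sq_mem_NZ (i : Fin 4) : RZ i ^ 2 ∈ NZ :=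
  Subgroup.subset_closure ⟨1, DZ.one_mem, i, by simp⟩

lemma NZ_conj {g n : GL (Fin 3) (Z5 ℤ)} (hg : g ∈ DZ) (hn : n ∈ NZ) : g * n * g⁻¹ ∈ NZ := by
  have : NZ ≤ NZ.comap (MulAut.conj g).toMonoidHom := by
    conv_lhs => rw [NZ]
    rw [Subgroup.closure_le]
    rintro _ ⟨k, hk, i, rfl⟩
    refine Subgroup.subset_closure ⟨g * k, DZ.mul_mem hg hk, i, ?_⟩
    simp only [MulEquiv.coe_toMonoidHom, MulAut.conj_apply, _root_.mul_inv_rev]
    group
  exact this hn

lemma coset_up (k : Fin 120) (i : Fin 4) (h : up5 k i = true) :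
    (RZ i).val * TT5 k = TT5 (nx5 k i) := chkT k i h

lemma coset_down (k : Fin 120) (i : Fin 4) (h : up5 k i = false) :
    (RZ i).val * TT5 (nx5 k i) = TT5 k := by
  have h1 : up5 (nx5 k i) i = true := by rw [up5_nx5, h]; rfl
  have h2 := chkT (nx5 k i) i h1
  rw [nx5_nx5] at h2
  exact h2

/-- every element of `DZ` is in the coset of a permutation braid -/
lemma coset_lemma {g : GL (Fin 3) (Z5 ℤ)} (hg : g ∈ DZ) :
    ∃ k : Fin 120, ∃ n ∈ NZ, g.val = n.val * TT5 k := by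
  induction hg using Subgroup.closure_induction_left with
  | one => exact ⟨0, 1, NZ.one_mem, by rw [TT5_zero]; simp⟩
  | mul_left x hx y hy ih =>
    obtain ⟨i, rfl⟩ := hx
    obtain ⟨k, n, hn, h⟩ := ih
    have hc := NZ_conj (RZ_mem i) hn
    cases hu : up5 k i with
    | true =>
      refine ⟨nx5 k i, RZ i * n * (RZ i)⁻¹, hc, ?_⟩
      rw [← coset_up k i hu, Units.val_mul, h, ← Matrix.mul_assoc, ← Matrix.mul_assoc,
        ← Units.val_mul, ← Units.val_mul]
      congr 2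
      group
    | false =>
      refine ⟨nx5 k i, RZ i * n * (RZ i)⁻¹ * RZ i ^ 2, NZ.mul_mem hc (sq_mem_NZ i), ?_⟩
      rw [← coset_down k i hu] at h
      rw [Units.val_mul, h, ← Matrix.mul_assoc, ← Matrix.mul_assoc,
        ← Units.val_mul, ← Units.val_mul]
      congr 2
      group
  | inv_mul_cancel x hx y hy ih =>
    obtain ⟨i, rfl⟩ := hx
    obtain ⟨k, n, hn, h⟩ := ih
    have hc := NZ_conj (DZ.inv_mem (RZ_mem i)) hn
    rw [inv_inv] at hc
    cases hu : up5 k i with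
    | true =>
      refine ⟨nx5 k i, (RZ i)⁻¹ * n * RZ i * (RZ i ^ 2)⁻¹, NZ.mul_mem hc
        (NZ.inv_mem (sq_mem_NZ i)), ?_⟩
      rw [← coset_up k i hu, Units.val_mul, h, ← Matrix.mul_assoc, ← Matrix.mul_assoc,
        ← Units.val_mul, ← Units.val_mul]
      congr 2
      group
    | false =>
      refine ⟨nx5 k i, (RZ i)⁻¹ * n * RZ i, hc, ?_⟩
      rw [← coset_down k i hu] at h
      rw [Units.val_mul, h, ← Matrix.mul_assoc, ← Matrix.mul_assoc,
        ← Units.val_mul, ← Units.val_mul, _root_.mul_assoc]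

/-- the finite data attached to an element of `W0` -/
abbrev Cls := Fin 60 × Fin 10 × Fin 120 × Bool

/-- `w` has the class `c` -/
def HasCls (w : GL (Fin 3) (Z5 ℤ)) (c : Cls) : Prop :=
  (∃ n ∈ NZ, EE * w.val = un c.2.1 • (n.val * (TT5 c.2.2.1 * FR c.1))) ∧
    w.val.det = if c.2.2.2 then 1 else -1

lemma det_W {w : GL (Fin 3) (Z5 ℤ)} (hA : w ∈ W) : w.val.det = 1 ∨ w.val.det = -1 := by
  have h1 : w.val.det ^ 2 = 1 := by
    have h2 := congrArg Matrix.det hA.2
    rw [Matrix.det_mul, Matrix.det_mul, Matrix.det_transpose] at h2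
    have h3 : GG.det ≠ 0 := by
      rw [Matrix.det_fin_three]; decide +kernel
    have h4 : ev GG.det * (ev (w.val.det ^ 2) - 1) = 0 := by
      rw [mul_sub, ← map_mul, mul_one, ← map_sub, ← map_zero ev]
      congr 1
      linear_combination h2
    rcases mul_eq_zero.mp h4 with h5 | h5
    · exfalso; exact h3 (ev_injective (by rw [h5, map_zero]))
    · apply ev_injective; rw [map_one]; linear_combination h5
  have h3 : ev (w.val.det - 1) * ev (w.val.det + 1) = 0 := by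
    rw [← map_mul, ← map_zero ev]
    congr 1
    linear_combination h1
  rcases mul_eq_zero.mp h3 with h5 | h5
  · left
    have := ev_injective (h5.trans (map_zero ev).symm)
    linear_combination this
  · right
    have := ev_injective (h5.trans (map_zero ev).symm)
    linear_combination this

lemma exists_cls {w : GL (Fin 3) (Z5 ℤ)} (hw : w ∈ W0) : ∃ c, HasCls w c := by
  obtain ⟨s, k, g, hg, h⟩ := frame_lemma hw
  obtain ⟨t, n, hn, h2⟩ := coset_lemma hg
  rcases det_W (W0_le hw) with hd | hd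
  · refine ⟨(s, k, t, true), ⟨n, hn, ?_⟩, by simpa using hd⟩
    rw [h, h2, Matrix.mul_assoc]
  · refine ⟨(s, k, t, false), ⟨n, hn, ?_⟩, by simpa using hd⟩
    rw [h, h2, Matrix.mul_assoc]

/-- two elements of the same class differ by an element of `NZ` -/
lemma same_cls {w w' : GL (Fin 3) (Z5 ℤ)} {c : Cls} (h : HasCls w c) (h' : HasCls w' c) :
    ∃ n ∈ NZ, rho (w * w'⁻¹) = Matrix.GeneralLinearGroup.map ev n ∧
      (w * w'⁻¹).val.det = 1 := by
  obtain ⟨⟨n, hn, h1⟩, hd⟩ := h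
  obtain ⟨⟨n', hn', h1'⟩, hd'⟩ := h'
  refine ⟨n * n'⁻¹, NZ.mul_mem hn (NZ.inv_mem hn'), ?_, ?_⟩
  · have h2 : EE * w.val = (n * n'⁻¹).val * (EE * w'.val) := by
      rw [h1, h1', Units.val_mul, Matrix.mul_assoc, Matrix.mul_smul, Matrix.mul_smul,
        ← Matrix.mul_assoc (n'⁻¹).val, ← Units.val_mul, inv_mul_cancel, Units.val_one,
        Matrix.one_mul]
    have h3 : EE * (w * w'⁻¹).val = (n * n'⁻¹).val * EE := by
      rw [Units.val_mul, ← Matrix.mul_assoc, h2, Matrix.mul_assoc, Matrix.mul_assoc,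
        ← Units.val_mul, mul_inv_cancel, Units.val_one, Matrix.mul_one]
    apply Units.ext
    rw [rho_val]
    have h4 := congrArg (fun M => Matrix.map M ev) h3
    simp only [Matrix.map_mul] at h4
    change EC * (w * w'⁻¹).val.map ev = (n * n'⁻¹).val.map ev * EC at h4
    rw [h4, Matrix.mul_assoc]
    have h5 : EC * (EG⁻¹).val = 1 := EG.val_inv
    rw [h5, Matrix.mul_one]
    rfl
  · have h6 : w'.val.det * (w'⁻¹).val.det = 1 := by
      rw [← Matrix.det_mul, ← Units.val_mul, mul_inv_cancel, Units.val_one, Matrix.det_one]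
    rw [Units.val_mul, Matrix.det_mul, hd, ← hd', h6]

end Pool.Agent.H.MP_c41128_gt
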