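import Pool.Agent.H.MP_c41128_gt.Bound

namespace Pool.Agent.H.MP_c41128_gt

/-- reduction modulo `1 - ζ` -/
def r5 : Z5 ℤ →+* ZMod 5 := Z5.evalAt (1 : ZMod 5) (by decide)

lemma r5_apply (x : Z5 ℤ) : r5 x = ((x.a + x.b + x.c + x.d : ℤ) : ZMod 5) := by
  simp [r5, Z5.evalAt_apply]

lemma r5_star (x : Z5 ℤ) : r5 (star x) = r5 x := by
  have h5 : (5 : ZMod 5) = 0 := by decide
  simp only [r5_apply, Z5.star_a, Z5.star_b, Z5.star_c, Z5.star_d]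
  push_cast
  linear_combination (-(x.b : ZMod 5)) * h5

/-- reduction modulo `4` -/
def r4 : Z5 ℤ →+* Z5 (ZMod 4) := Z5.map (Int.castRingHom (ZMod 4))

def cc : Z5 ℤ := ⟨2, 1, 1, 2⟩

def ll (v : Fin 3 → Z5 ℤ) : Z5 ℤ :=
  ⟨-1, -2, -5, 0⟩ * v 0 + ⟨-1, -2, -1, -1⟩ * v 1 + ⟨0, 2, 2, 0⟩ * v 2

/-- the bilinear identity `Q = c ℓ^2 + 4 R` -/
lemma Q_eq (v : Fin 3 → Z5 ℤ) : ∃ r, Q v = cc * ll v ^ 2 + 4 * r := by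
  refine ⟨⟨4, 4, 1, 8⟩ * v 0 ^ 2 + 2 * (⟨-2, -1, 0, -2⟩ * (v 0 * v 1)) +
    2 * (⟨-2, 0, -2, -2⟩ * (v 0 * v 2)) + v 1 ^ 2 + ⟨-1, -1, 0, -1⟩ * v 2 ^ 2, ?_⟩
  simp only [Q, hF, tv, ll, RingHom.id_apply, star_add, star_mul', star_star]
  have e00 : star (NN 0 0) = cc * ⟨-1, -2, -5, 0⟩ ^ 2 + 4 * ⟨4, 4, 1, 8⟩ := by decide
  have e01 : star (NN 0 1) + star (NN 1 0) =
    2 * cc * ⟨-1, -2, -5, 0⟩ * ⟨-1, -2, -1, -1⟩ + 8 * ⟨-2, -1, 0, -2⟩ := by decide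
  have e02 : star (NN 0 2) + etaZ * star (NN 2 0) =
    2 * cc * ⟨-1, -2, -5, 0⟩ * ⟨0, 2, 2, 0⟩ + 8 * ⟨-2, 0, -2, -2⟩ := by decide
  have e11 : star (NN 1 1) = cc * ⟨-1, -2, -1, -1⟩ ^ 2 + 4 := by decide
  have e12 : star (NN 1 2) + etaZ * star (NN 2 1) =
    2 * cc * ⟨-1, -2, -1, -1⟩ * ⟨0, 2, 2, 0⟩ := by decide
  have e22 : etaZ * star (NN 2 2) = cc * ⟨0, 2, 2, 0⟩ ^ 2 + 4 * ⟨-1, -1, 0, -1⟩ := by decide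
  linear_combination v 0 ^ 2 * e00 + v 0 * v 1 * e01 + v 0 * v 2 * e02 + v 1 ^ 2 * e11 +
    v 1 * v 2 * e12 + v 2 ^ 2 * e22

/-- the residue classes modulo `4` of the values of `Q` -/
def cls : List (ZMod 4 × ZMod 4 × ZMod 4 × ZMod 4) :=
  [(0, 0, 0, 0), (0, 0, 0, 3), (0, 0, 3, 0), (0, 1, 3, 1), (0, 3, 0, 0), (0, 3, 2, 3),
   (1, 1, 0, 3), (1, 1, 1, 1), (1, 2, 2, 1), (1, 3, 1, 0), (2, 0, 3, 3), (2, 1, 1, 2),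
   (3, 0, 0, 0), (3, 0, 1, 1), (3, 2, 3, 0), (3, 3, 0, 2)]

lemma cls_mem : ∀ a b c d : ZMod 4,
    ((r4 cc * (⟨a, b, c, d⟩ : Z5 (ZMod 4)) ^ 2).a, (r4 cc * (⟨a, b, c, d⟩ : Z5 (ZMod 4)) ^ 2).b,
     (r4 cc * (⟨a, b, c, d⟩ : Z5 (ZMod 4)) ^ 2).c, (r4 cc * (⟨a, b, c, d⟩ : Z5 (ZMod 4)) ^ 2).d)
      ∈ cls := by
  decide

lemma Q_cls (v : Fin 3 → Z5 ℤ) :
    (((Q v).a : ZMod 4), ((Q v).b : ZMod 4), ((Q v).c : ZMod 4), ((Q v).d : ZMod 4)) ∈ cls := by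
  obtain ⟨r, hr⟩ := Q_eq v
  have h4 : r4 4 = 0 := by decide
  have h : r4 (Q v) = r4 cc * (r4 (ll v)) ^ 2 := by rw [hr]; simp [h4]
  have h2 := cls_mem (r4 (ll v)).a (r4 (ll v)).b (r4 (ll v)).c (r4 (ll v)).d
  have h3 : r4 (Q v) = ⟨(Q v).a, (Q v).b, (Q v).c, (Q v).d⟩ := rfl
  rw [h] at h3
  have h5 : (⟨(r4 (ll v)).a, (r4 (ll v)).b, (r4 (ll v)).c, (r4 (ll v)).d⟩ : Z5 (ZMod 4))
    = r4 (ll v) := rfl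
  rw [h5, h3] at h2
  exact h2

end Pool.Agent.H.MP_c41128_gt
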