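import Pool.Agent.H.MP_c41128_gt.Enum

namespace Pool.Agent.H.MP_c41128_gt

/-- mask of the classes: bit `a+4b+16c+64d` -/
def maskN : ℕ := [(0, 0, 0, 0), (0, 0, 0, 3), (0, 0, 3, 0), (0, 1, 3, 1), (0, 3, 0, 0), (0, 3, 2, 3),
   (1, 1, 0, 3), (1, 1, 1, 1), (1, 2, 2, 1), (1, 3, 1, 0), (2, 0, 3, 3), (2, 1, 1, 2),
   (3, 0, 0, 0), (3, 0, 1, 1), (3, 2, 3, 0), (3, 3, 0, 2)].foldl
   (fun (m : ℕ) (t : ℕ × ℕ × ℕ × ℕ) => m + 2 ^ (t.1 + 4 * t.2.1 + 16 * t.2.2.1 + 64 * t.2.2.2)) 0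

/-- the list of the surviving values -/
def L25 : List (ℤ × ℤ × ℤ × ℤ) :=
  [(-4, -4, -4, -4), (-4, 0, 0, 0), (-2, 0, -1, -1), (-1, -2, -1, 0), (-1, -1, 0, -2), (-1, 0, 0, 0), (-1, 0, 1, 1), (0, -4, 0, 0), (0, -1, -2, -1), (0, -1, 0, 0), (0, 0, -4, 0), (0, 0, -1, 0), (0, 0, 0, -4), (0, 0, 0, -1), (0, 0, 0, 4), (0, 0, 4, 0), (0, 1, -1, 1), (0, 4, 0, 0), (1, -1, 1, 0), (1, 1, 0, -1), (1, 1, 1, 1), (1, 2, 2, 1), (2, 1, 1, 2), (4, 0, 0, 0), (4, 4, 4, 4)]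

/-- the check for the value with coordinates `a-5, b-5, c-5, d-5` -/
def chk (a b c d : ℕ) : Bool :=
  !(Nat.testBit maskN ((a + 3) % 4 + 4 * ((b + 3) % 4) + 16 * ((c + 3) % 4) + 64 * ((d + 3) % 4))) ||
  (a + b + c + d) % 5 == 0 || (a + b + c + d) % 5 == 3 ||
  (let x : ℤ := (a : ℤ) - 5
   let y : ℤ := (b : ℤ) - 5
   let z : ℤ := (c : ℤ) - 5
   let w : ℤ := (d : ℤ) - 5
   let P := x * y + y * z + z * w
   let R := x * z + y * w + x * w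
   let A := x * x + y * y + z * z + w * w - P
   let B := P - R
   let t := 32 - 2 * A - B
   decide (t < 0) || decide (t * t < 5 * (B * B)) || L25.contains (x, y, z, w))

lemma chk_all : (List.range 11).all (fun a => (List.range 11).all fun b =>
    (List.range 11).all fun c => (List.range 11).all fun d => chk a b c d) = true := by
  decide +kernel

lemma coord_bound {x : Z5 ℤ} (h : 2 * Z5.nA x + Z5.nB x ≤ 32) :
    (-5 ≤ x.a ∧ x.a ≤ 5) ∧ (-5 ≤ x.b ∧ x.b ≤ 5) ∧ (-5 ≤ x.c ∧ x.c ≤ 5) ∧ (-5 ≤ x.d ∧ x.d ≤ 5) := by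
  have hs := Z5.sum_nA_nB x
  have key : ∀ p q r s : ℤ, p ^ 2 + q ^ 2 + r ^ 2 + s ^ 2 + (p - q) ^ 2 + (p - r) ^ 2 + (p - s) ^ 2
      + (q - r) ^ 2 + (q - s) ^ 2 + (r - s) ^ 2 ≤ 64 → -5 ≤ p ∧ p ≤ 5 := by
    intro p q r s h
    have h1 : 5 * p ^ 2 ≤ 128 := by
      nlinarith [sq_nonneg (2 * q - p), sq_nonneg (2 * r - p), sq_nonneg (2 * s - p),
        sq_nonneg (q - r), sq_nonneg (q - s), sq_nonneg (r - s)]
    constructor <;> nlinarith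
  refine ⟨key x.a x.b x.c x.d (by linarith), key x.b x.a x.c x.d (by linarith),
    key x.c x.a x.b x.d (by linarith), key x.d x.a x.b x.c (by linarith)⟩

lemma mask_ok : ∀ p q r s : ZMod 4, (p, q, r, s) ∈ cls →
    Nat.testBit maskN (p.val + 4 * q.val + 16 * r.val + 64 * s.val) = true := by
  decide +kernel

lemma cast_val (n : ℕ) : ((((n : ℤ) - 5 : ℤ)) : ZMod 4).val = (n + 3) % 4 := by
  have : ((((n : ℤ) - 5 : ℤ)) : ZMod 4) = ((n + 3 : ℕ) : ZMod 4) := by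
    push_cast
    have h8 : (8 : ZMod 4) = 0 := by decide
    linear_combination -h8
  rw [this, ZMod.val_natCast]

lemma cast5 (n : ℕ) (r : ℕ) (h : n % 5 = r) : ((n : ℕ) : ZMod 5) = ((r : ℕ) : ZMod 5) := by
  rw [← h, ZMod.natCast_mod]

lemma mem_L25 {x : Z5 ℤ} (h1 : ‖ev x‖ ^ 2 ≤ 16) (h2 : ‖ev2 x‖ ^ 2 ≤ 16)
    (h4 : ((x.a : ZMod 4), (x.b : ZMod 4), (x.c : ZMod 4), (x.d : ZMod 4)) ∈ cls)
    (h5 : r5 x = 1 ∨ r5 x = 2 ∨ r5 x = 4) : (x.a, x.b, x.c, x.d) ∈ L25 := by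
  rw [ev_norm] at h1
  rw [ev2_norm] at h2
  have hlin : 2 * Z5.nA x + Z5.nB x ≤ 32 := by
    have : (2 * Z5.nA x + Z5.nB x : ℝ) ≤ 32 := by linarith
    exact_mod_cast this
  have hsq : 5 * (Z5.nB x * Z5.nB x) ≤ (32 - 2 * Z5.nA x - Z5.nB x) * (32 - 2 * Z5.nA x - Z5.nB x) := by
    have h5 : Real.sqrt 5 * Real.sqrt 5 = 5 := Real.mul_self_sqrt (by norm_num)
    have e1 : (Z5.nB x : ℝ) * Real.sqrt 5 ≤ 32 - 2 * Z5.nA x - Z5.nB x := by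
      unfold phi at h1; linarith
    have e2 : -((Z5.nB x : ℝ) * Real.sqrt 5) ≤ 32 - 2 * Z5.nA x - Z5.nB x := by
      unfold phi at h2; linarith
    have e3 : (5 * (Z5.nB x * Z5.nB x) : ℝ) ≤
        (32 - 2 * Z5.nA x - Z5.nB x) * (32 - 2 * Z5.nA x - Z5.nB x) := by
      nlinarith
    exact_mod_cast e3
  obtain ⟨⟨ha1, ha2⟩, ⟨hb1, hb2⟩, ⟨hc1, hc2⟩, ⟨hd1, hd2⟩⟩ := coord_bound hlin
  obtain ⟨a, b, c, d⟩ := x
  simp only at ha1 ha2 hb1 hb2 hc1 hc2 hd1 hd2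
  obtain ⟨a', rfl⟩ : ∃ n : ℕ, a = (n : ℤ) - 5 := ⟨(a + 5).toNat, by omega⟩
  obtain ⟨b', rfl⟩ : ∃ n : ℕ, b = (n : ℤ) - 5 := ⟨(b + 5).toNat, by omega⟩
  obtain ⟨c', rfl⟩ : ∃ n : ℕ, c = (n : ℤ) - 5 := ⟨(c + 5).toNat, by omega⟩
  obtain ⟨d', rfl⟩ : ∃ n : ℕ, d = (n : ℤ) - 5 := ⟨(d + 5).toNat, by omega⟩
  have hall := chk_all
  rw [List.all_eq_true] at hall
  have g1 := hall a' (List.mem_range.mpr (by omega))
  rw [List.all_eq_true] at g1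
  have g2 := g1 b' (List.mem_range.mpr (by omega))
  rw [List.all_eq_true] at g2
  have g3 := g2 c' (List.mem_range.mpr (by omega))
  rw [List.all_eq_true] at g3
  have g4 := g3 d' (List.mem_range.mpr (by omega))
  unfold chk at g4
  simp only [Bool.or_eq_true, decide_eq_true_eq, Bool.not_eq_true', beq_iff_eq,
    List.contains_iff_mem] at g4
  have h6 := mask_ok _ _ _ _ h4
  rw [cast_val, cast_val, cast_val, cast_val] at h6
  have h7 : r5 ⟨(a' : ℤ) - 5, (b' : ℤ) - 5, (c' : ℤ) - 5, (d' : ℤ) - 5⟩ =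
      ((a' + b' + c' + d' : ℕ) : ZMod 5) := by
    rw [r5_apply]
    push_cast
    have h20 : (20 : ZMod 5) = 0 := by decide
    linear_combination -h20
  rw [h7] at h5
  rcases g4 with ((g | g) | g) | g
  · rw [h6] at g; exact absurd g (by decide)
  · rw [cast5 _ _ g] at h5; exfalso; revert h5; decide
  · rw [cast5 _ _ g] at h5; exfalso; revert h5; decide
  · rcases g with (g | g) | g
    · exfalso
      simp only [Z5.nA, Z5.nB] at hlin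
      linarith
    · exfalso
      have e : ∀ A A' B B' : ℤ, A = A' → B = B' →
          ((32 - 2 * A - B) * (32 - 2 * A - B) < 5 * (B * B)) →
          ((32 - 2 * A' - B') * (32 - 2 * A' - B') < 5 * (B' * B')) := by
        rintro A A' B B' rfl rfl h; exact h
      exact absurd hsq (not_le.mpr (e _ _ _ _ (by simp only [Z5.nA]; ring)
        (by simp only [Z5.nB]) g))
    · exact g

end Pool.Agent.H.MP_c41128_gt
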