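import Pool.Agent.H.MP_c41128_gt.Cong

namespace Pool.Agent.H.MP_c41128_gt

open Matrix

/-- the totally real subspace -/
noncomputable def embL : (Fin 3 → ℝ) →ₗ[ℝ] (Fin 3 → ℂ) where
  toFun := emb
  map_add' s t := by
    have : (fun i => (((s + t) i : ℝ) : ℂ)) = (fun i => (s i : ℂ)) + fun i => (t i : ℂ) := by
      funext i; simp
    rw [emb, this, Matrix.mulVec_add]; rfl
  map_smul' c t := by
    have : (fun i => (((c • t) i : ℝ) : ℂ)) = (c : ℂ) • fun i => (t i : ℂ) := by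
      funext i; simp
    rw [emb, this, Matrix.mulVec_smul]
    funext i
    simp [emb]

/-- the totally real subspace -/
noncomputable def VV : Submodule ℝ (Fin 3 → ℂ) := LinearMap.range embL

lemma mem_VV {x : Fin 3 → ℂ} : x ∈ VV ↔ ∃ t, emb t = x := Iff.rfl

lemma finrank_VV : Module.finrank ℝ VV = 3 := by
  rw [VV, LinearMap.finrank_range_of_inj (f := embL) emb_injective]
  simp

lemma emb_fix (t : Fin 3 → ℝ) : tv ev (emb t) = (4 : ℂ) • emb t := by
  have h1 : NNm.map ev * EC.map star = (4 : ℂ) • EC := by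
    have h := congrArg (fun M => Matrix.map M ev) NN_EE
    simp only [Matrix.map_mul] at h
    have h2 : (EE.map star).map ev = EC.map star := by
      ext i j; simp [EC, ev_star]
    rw [h2] at h
    rw [h]
    ext i j
    simp only [Matrix.map_apply, Matrix.smul_apply, smul_eq_mul, map_mul, EC]
    rw [map_ofNat]
  have h3 : tv ev (emb t) = NNm.map ev *ᵥ star (emb t) := by
    funext i
    simp only [tv, Matrix.mulVec, dotProduct, Fin.sum_univ_three, NNm, Matrix.map_apply,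
      Matrix.of_apply, Pi.star_apply]
  have hst : star (fun i => (t i : ℂ)) = fun i => (t i : ℂ) := by
    funext i; simp
  rw [h3, emb, star_mulVec', hst, Matrix.mulVec_mulVec, h1, Matrix.smul_mulVec]

lemma VV_totally_real {x : Fin 3 → ℂ} (h1 : x ∈ VV) (h2 : Complex.I • x ∈ VV) : x = 0 := by
  obtain ⟨t, rfl⟩ := h1
  obtain ⟨s, hs⟩ := h2
  have e1 := emb_fix t
  have e2 := emb_fix s
  change emb s = Complex.I • emb t at hs
  rw [hs, tv_smul, e1] at e2
  change emb t = 0
  funext i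
  have := congrFun e2 i
  simp at this
  have h3 : (8 * Complex.I) * emb t i = 0 := by linear_combination -this
  simpa using h3

theorem misses {x : Fin 3 → ℂ} (hx : x ∈ VV) (hneg : (hF ((1 - phi : ℝ) : ℂ) x x).re < 0)
    {v : Fin 3 → Z5 ℤ} (hv : hF etaZ v v = 1) : hF ((1 - phi : ℝ) : ℂ) x (ev ∘ v) ≠ 0 := by
  intro h
  obtain ⟨t, rfl⟩ := hx
  exact no_vector hv (bound1 hv (emb_fix t) hneg h)

/-- representatives of the residue classes -/
noncomputable def rep (W0 : Subgroup (GL (Fin 3) (Z5 ℤ))) (c : GL (Fin 3) (Z5 (ZMod 40))) :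
    GL (Fin 3) (Z5 ℤ) :=
  open Classical in if h : ∃ A ∈ W0, redG A = c then h.choose else 1

lemma rep_mem (W0 : Subgroup (GL (Fin 3) (Z5 ℤ))) (c : GL (Fin 3) (Z5 (ZMod 40))) :
    rep W0 c ∈ W0 := by
  unfold rep
  split_ifs with h
  · exact h.choose_spec.1
  · exact W0.one_mem

lemma redG_rep (W0 : Subgroup (GL (Fin 3) (Z5 ℤ))) {A : GL (Fin 3) (Z5 ℤ)} (hA : A ∈ W0) :
    redG (rep W0 (redG A)) = redG A := by
  have h : ∃ B ∈ W0, redG B = redG A := ⟨A, hA, rfl⟩
  unfold rep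
  rw [dif_pos h]
  exact h.choose_spec.2

lemma continuous_emb : Continuous emb := by
  unfold emb
  apply Continuous.matrix_mulVec continuous_const
  fun_prop

/-- the compact set -/
noncomputable def KK : Set (Fin 3 → ℂ) :=
  ⋃ c : GL (Fin 3) (Z5 (ZMod 40)), (fun t => (rho (rep W c)).val *ᵥ emb t) '' TT

lemma isCompact_KK : IsCompact KK := by
  apply isCompact_iUnion
  intro c
  apply isCompact_TT.image
  exact Continuous.matrix_mulVec continuous_const continuous_emb

lemma KK_sub {x : Fin 3 → ℂ} (hx : x ∈ KK) :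
    x ∈ VV ∧ (hF ((1 - phi : ℝ) : ℂ) x x).re < 0 := by
  simp only [KK, Set.mem_iUnion, Set.mem_image] at hx
  obtain ⟨c, t, ht, rfl⟩ := hx
  have hc := rep_mem W c
  rw [← emb_act hc]
  refine ⟨⟨_, rfl⟩, ?_⟩
  rw [hF_emb, Bf_act hc, Complex.ofReal_re, ht.1]
  norm_num

theorem cocompact {x : Fin 3 → ℂ} (hx : x ∈ VV) (hneg : (hF ((1 - phi : ℝ) : ℂ) x x).re < 0) :
    ∃ B ∈ W, redG B = 1 ∧ ∃ c : ℝ, c ≠ 0 ∧ (c : ℂ) • ((rho B).val *ᵥ x) ∈ KK := by
  obtain ⟨t, rfl⟩ := hx
  change (hF ((1 - phi : ℝ) : ℂ) (emb t) (emb t)).re < 0 at hneg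
  rw [hF_emb, Complex.ofReal_re] at hneg
  obtain ⟨A, hA, c, hc, hcA⟩ := reduce_TT le_rfl rfl'_mem hneg
  have hAi := W.inv_mem hA
  set C := rep W (redG A⁻¹) with hC
  have hCm : C ∈ W := rep_mem W _
  have hCr : redG C = redG A⁻¹ := redG_rep W hAi
  refine ⟨C * A, W.mul_mem hCm hA, ?_, c, hc, ?_⟩
  · rw [map_mul, hCr, map_inv, inv_mul_cancel]
  · simp only [KK, Set.mem_iUnion, Set.mem_image]
    refine ⟨redG A⁻¹, c • act A t, hcA, ?_⟩
    change (rho C).val *ᵥ emb (c • act A t) = (c : ℂ) • ((rho (C * A)).val *ᵥ emb t)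
    have h1 : emb (c • act A t) = (c : ℂ) • emb (act A t) := by
      have := embL.map_smul c (act A t)
      change emb (c • act A t) = c • emb (act A t) at this
      rw [this]
      funext i; simp
    rw [h1, Matrix.mulVec_smul, emb_act hA, map_mul, Units.val_mul, Matrix.mulVec_mulVec]

end Pool.Agent.H.MP_c41128_gt
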