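import Pool.Agent.H.MP_c41128_gt.Delta
import Pool.Agent.H.MP_c41128_gt.Final

namespace Pool.Agent.H.MP_c41128_gt

open Matrix

/-- representatives of the classes -/
noncomputable def rep2 (c : Cls) : GL (Fin 3) (Z5 ℤ) :=
  open Classical in if h : ∃ A ∈ W0, HasCls A c then h.choose else 1

lemma rep2_mem (c : Cls) : rep2 c ∈ W0 := by
  unfold rep2
  split_ifs with h
  · exact h.choose_spec.1
  · exact W0.one_mem

lemma rep2_cls {A : GL (Fin 3) (Z5 ℤ)} {c : Cls} (hA : A ∈ W0) (hc : HasCls A c) :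
    HasCls (rep2 c) c := by
  have h : ∃ A ∈ W0, HasCls A c := ⟨A, hA, hc⟩
  unfold rep2
  rw [dif_pos h]
  exact h.choose_spec.2

/-- the compact set -/
noncomputable def KK2 : Set (Fin 3 → ℂ) :=
  ⋃ c : Cls, (fun t => (rho (rep2 c)).val *ᵥ emb t) '' TT

lemma isCompact_KK2 : IsCompact KK2 := by
  apply isCompact_iUnion
  intro c
  apply isCompact_TT.image
  exact Continuous.matrix_mulVec continuous_const continuous_emb

lemma KK2_sub {x : Fin 3 → ℂ} (hx : x ∈ KK2) :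
    x ∈ VV ∧ (hF ((1 - phi : ℝ) : ℂ) x x).re < 0 := by
  simp only [KK2, Set.mem_iUnion, Set.mem_image] at hx
  obtain ⟨c, t, ht, rfl⟩ := hx
  have hc := W0_le (rep2_mem c)
  rw [← emb_act hc]
  refine ⟨⟨_, rfl⟩, ?_⟩
  rw [hF_emb, Bf_act hc, Complex.ofReal_re, ht.1]
  norm_num

theorem cocompact2 {x : Fin 3 → ℂ} (hx : x ∈ VV)
    (hneg : (hF ((1 - phi : ℝ) : ℂ) x x).re < 0) :
    ∃ B ∈ W, (∃ n ∈ NZ, rho B = Matrix.GeneralLinearGroup.map ev n) ∧ B.val.det = 1 ∧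
      ∃ c : ℝ, c ≠ 0 ∧ (c : ℂ) • ((rho B).val *ᵥ x) ∈ KK2 := by
  obtain ⟨t, rfl⟩ := hx
  change (hF ((1 - phi : ℝ) : ℂ) (emb t) (emb t)).re < 0 at hneg
  rw [hF_emb, Complex.ofReal_re] at hneg
  obtain ⟨A, hA, c, hc, hcA⟩ := reduce_TT W0_le rfl'_mem_W0 hneg
  have hAi := W0.inv_mem hA
  obtain ⟨cl, hcl⟩ := exists_cls hAi
  have hC0 := rep2_mem cl
  have hCc := rep2_cls hAi hcl
  obtain ⟨n, hn, h1, h2⟩ := same_cls hCc hcl
  rw [inv_inv] at h1 h2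
  refine ⟨rep2 cl * A, W.mul_mem (W0_le hC0) (W0_le hA), ⟨n, hn, h1⟩, h2, c, hc, ?_⟩
  simp only [KK2, Set.mem_iUnion, Set.mem_image]
  refine ⟨cl, c • act A t, hcA, ?_⟩
  change (rho (rep2 cl)).val *ᵥ emb (c • act A t) = (c : ℂ) • ((rho (rep2 cl * A)).val *ᵥ emb t)
  have h1 : emb (c • act A t) = (c : ℂ) • emb (act A t) := by
    have := embL.map_smul c (act A t)
    change emb (c • act A t) = c • emb (act A t) at this
    rw [this]
    funext i; simp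
  rw [h1, Matrix.mulVec_smul, emb_act (W0_le hA), map_mul, Units.val_mul, Matrix.mulVec_mulVec]

lemma det_rho' {A : GL (Fin 3) (Z5 ℤ)} (h : A.val.det = 1) : (rho A).val.det = 1 := by
  have h1 : EC * (EG⁻¹).val = 1 := EG.val_inv
  have h2 := congrArg Matrix.det h1
  rw [Matrix.det_mul, Matrix.det_one] at h2
  rw [rho_val, Matrix.det_mul, Matrix.det_mul]
  have h3 : (A.val.map ev).det = 1 := by
    have h4 := RingHom.map_det ev A.val
    rw [h, map_one] at h4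
    exact h4.symm
  rw [h3, mul_one, h2]

/-- the four roots over `Z[ζ]` -/
def rootZ : Fin 4 → Fin 3 → Z5 ℤ :=
  ![![1, 0, 0], ![⟨0, 0, -1, -1⟩, ⟨0, 0, -1, -1⟩, ⟨1, 0, -1, -1⟩], ![0, 1, 0],
    ![0, ⟨0, 0, -1, -1⟩, ⟨0, 0, -1, -1⟩]]

lemma rootZ_norm : ∀ i, hF etaZ (rootZ i) (rootZ i) = 1 := by decide +kernel

/-- entries of the half twists -/
lemma RZ_mat : ∀ i : Fin 4, (RZ i).val = Matrix.of fun j k => (if j = k then 1 else 0) -
    (⟨1, 0, 0, 1⟩ : Z5 ℤ) * rootZ i j * ((![1, 1, etaZ] : Fin 3 → Z5 ℤ) k * star (rootZ i k)) := by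
  decide +kernel

/-- entries of the half twists -/
lemma RZ_entries (i : Fin 4) (j k : Fin 3) : (RZ i).val j k = (if j = k then 1 else 0) -
    (⟨1, 0, 0, 1⟩ : Z5 ℤ) * rootZ i j * ((![1, 1, etaZ] : Fin 3 → Z5 ℤ) k * star (rootZ i k)) := by
  rw [RZ_mat]; rfl

lemma RZ_mulVec (i : Fin 4) (x : Fin 3 → Z5 ℤ) :
    (RZ i).val *ᵥ x = x - (⟨1, 0, 0, 1⟩ * hF etaZ x (rootZ i)) • rootZ i := by
  funext j
  simp only [Matrix.mulVec, dotProduct, Fin.sum_univ_three, RZ_entries, Pi.sub_apply,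
    Pi.smul_apply, smul_eq_mul, hF]
  fin_cases j <;> simp <;> ring

lemma RZ_hF (i : Fin 4) (x y : Fin 3 → Z5 ℤ) :
    hF etaZ ((RZ i).val *ᵥ x) ((RZ i).val *ᵥ y) = hF etaZ x y := by
  have h1 := rootZ_norm i
  have h2 : star (hF etaZ y (rootZ i)) = hF etaZ (rootZ i) y := star_hF etaZ_star _ _
  have h3 : (⟨1, 0, 0, 1⟩ : Z5 ℤ) * star (⟨1, 0, 0, 1⟩ : Z5 ℤ) =
    (⟨1, 0, 0, 1⟩ : Z5 ℤ) + star (⟨1, 0, 0, 1⟩ : Z5 ℤ) := by decide +kernel
  rw [RZ_mulVec, RZ_mulVec]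
  simp only [hF_sub_left, hF_sub_right, hF_smul_left, hF_smul_right, star_mul', h1, h2]
  linear_combination (hF etaZ x (rootZ i) * hF etaZ (rootZ i) y) * h3

/-- elements of `DZ` preserve the form -/
lemma DZ_hF {g : GL (Fin 3) (Z5 ℤ)} (hg : g ∈ DZ) (x y : Fin 3 → Z5 ℤ) :
    hF etaZ (g.val *ᵥ x) (g.val *ᵥ y) = hF etaZ x y := by
  induction hg using Subgroup.closure_induction generalizing x y with
  | mem g hg => obtain ⟨i, rfl⟩ := hg; exact RZ_hF i x y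
  | one => simp
  | mul a b _ _ iha ihb =>
    rw [Units.val_mul, ← Matrix.mulVec_mulVec, ← Matrix.mulVec_mulVec, iha, ihb]
  | inv a _ ih =>
    have h := ih ((a⁻¹).val *ᵥ x) ((a⁻¹).val *ᵥ y)
    have h1 : a.val * (a⁻¹).val = 1 := by rw [← Units.val_mul, mul_inv_cancel, Units.val_one]
    rw [Matrix.mulVec_mulVec, Matrix.mulVec_mulVec, h1, Matrix.one_mulVec, Matrix.one_mulVec] at h
    exact h.symm

end Pool.Agent.H.MP_c41128_gt
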