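import Pool.Agent.H.MP_c41128_gt.Places

namespace Pool.Agent.H.MP_c41128_gt

/-- The Hermitian form `x₀ȳ₀ + x₁ȳ₁ + η x₂ȳ₂` over a commutative star ring. -/
def hF {K : Type*} [CommRing K] [StarRing K] (η : K) (x y : Fin 3 → K) : K :=
  x 0 * star (y 0) + x 1 * star (y 1) + η * (x 2 * star (y 2))

/-- `η = -1/φ = 1 + ζ^2 + ζ^3` -/
def etaZ : Z5 ℤ := ⟨1, 0, 1, 1⟩

/-- The matrix of the antiholomorphic involution. -/
def NN : Fin 3 → Fin 3 → Z5 ℤ :=
  ![![⟨1, 2, 2, -3⟩, ⟨1, 2, 1, 1⟩, ⟨-2, -2, -2, 0⟩],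
    ![⟨1, 2, 1, 1⟩, ⟨3, 2, -1, 0⟩, ⟨-4, -2, -2, -2⟩],
    ![⟨2, 4, 2, 0⟩, ⟨0, 2, 0, -2⟩, ⟨-4, -4, -4, 0⟩]]

section

variable {K : Type*} [CommRing K] [StarRing K] (f : Z5 ℤ →+* K)

/-- `x ↦ N x̄` -/
def tv (x : Fin 3 → K) : Fin 3 → K := fun i =>
  f (NN i 0) * star (x 0) + f (NN i 1) * star (x 1) + f (NN i 2) * star (x 2)

lemma tv_smul (a : K) (x : Fin 3 → K) : tv f (a • x) = star a • tv f x := by
  funext i; simp [tv, star_mul']; ring

lemma tv_sub (x y : Fin 3 → K) : tv f (x - y) = tv f x - tv f y := by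
  funext i; simp [tv, star_sub]; ring

lemma tv_add (x y : Fin 3 → K) : tv f (x + y) = tv f x + tv f y := by
  funext i; simp [tv, star_add]; ring

variable {f}

lemma NN_rel (hf : ∀ x, f (star x) = star (f x)) (i j : Fin 3) :
    f (NN i 0) * star (f (NN 0 j)) + f (NN i 1) * star (f (NN 1 j)) +
      f (NN i 2) * star (f (NN 2 j)) = if i = j then 16 else 0 := by
  have h : NN i 0 * star (NN 0 j) + NN i 1 * star (NN 1 j) + NN i 2 * star (NN 2 j)
      = if i = j then 16 else 0 := by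
    revert i j; decide
  have h2 := congrArg f h
  simp only [map_add, map_mul, hf] at h2
  rw [h2]
  split_ifs
  · exact map_ofNat f 16
  · exact map_zero f

lemma NN_hrel (hf : ∀ x, f (star x) = star (f x)) (i j : Fin 3) :
    f (NN 0 i) * star (f (NN 0 j)) + f (NN 1 i) * star (f (NN 1 j)) +
      f etaZ * (f (NN 2 i) * star (f (NN 2 j))) =
      if i = j then (if i = 2 then 16 * f etaZ else 16) else 0 := by
  have h : NN 0 i * star (NN 0 j) + NN 1 i * star (NN 1 j) + etaZ * (NN 2 i * star (NN 2 j))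
      = if i = j then (if i = 2 then 16 * etaZ else 16) else 0 := by
    revert i j; decide
  have h2 := congrArg f h
  simp only [map_add, map_mul, hf] at h2
  rw [h2]
  split_ifs
  · rw [map_mul, map_ofNat]
  · exact map_ofNat f 16
  · exact map_zero f

lemma tv_tv (hf : ∀ x, f (star x) = star (f x)) (x : Fin 3 → K) : tv f (tv f x) = (16 : K) • x := by
  funext i
  have h0 := NN_rel hf i 0
  have h1 := NN_rel hf i 1
  have h2 := NN_rel hf i 2
  simp only [tv, star_add, star_mul', star_star, Pi.smul_apply, smul_eq_mul]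
  fin_cases i <;> simp at h0 h1 h2 ⊢ <;>
    linear_combination x 0 * h0 + x 1 * h1 + x 2 * h2

lemma etaZ_star : star etaZ = etaZ := by decide

lemma hF_tv (hf : ∀ x, f (star x) = star (f x)) (x y : Fin 3 → K) :
    hF (f etaZ) (tv f x) (tv f y) = 16 * star (hF (f etaZ) x y) := by
  have he : star (f etaZ) = f etaZ := by rw [← hf, etaZ_star]
  have h00 := NN_hrel hf 0 0
  have h01 := NN_hrel hf 0 1
  have h02 := NN_hrel hf 0 2
  have h10 := NN_hrel hf 1 0
  have h11 := NN_hrel hf 1 1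
  have h12 := NN_hrel hf 1 2
  have h20 := NN_hrel hf 2 0
  have h21 := NN_hrel hf 2 1
  have h22 := NN_hrel hf 2 2
  simp only [hF, tv, star_add, star_mul', star_star, he]
  simp at h00 h01 h02 h10 h11 h12 h20 h21 h22
  linear_combination star (x 0) * y 0 * h00 + star (x 0) * y 1 * h01 + star (x 0) * y 2 * h02 +
    star (x 1) * y 0 * h10 + star (x 1) * y 1 * h11 + star (x 1) * y 2 * h12 +
    star (x 2) * y 0 * h20 + star (x 2) * y 1 * h21 + star (x 2) * y 2 * h22

variable {η : K}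

lemma hF_smul_smul (a b : K) (x y : Fin 3 → K) :
    hF η (a • x) (b • y) = a * star b * hF η x y := by
  simp [hF, star_mul']; ring

lemma hF_smul_left (a : K) (x y : Fin 3 → K) : hF η (a • x) y = a * hF η x y := by
  simp [hF]; ring

lemma hF_smul_right (b : K) (x y : Fin 3 → K) : hF η x (b • y) = star b * hF η x y := by
  simp [hF, star_mul']; ring

lemma hF_sub_left (x y z : Fin 3 → K) : hF η (x - y) z = hF η x z - hF η y z := by
  simp [hF]; ring

lemma hF_sub_right (x y z : Fin 3 → K) : hF η x (y - z) = hF η x y - hF η x z := by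
  simp [hF, star_sub]; ring

lemma hF_add_left (x y z : Fin 3 → K) : hF η (x + y) z = hF η x z + hF η y z := by
  simp [hF]; ring

lemma hF_add_right (x y z : Fin 3 → K) : hF η x (y + z) = hF η x y + hF η x z := by
  simp [hF, star_add]; ring

lemma star_hF (he : star η = η) (x y : Fin 3 → K) : star (hF η x y) = hF η y x := by
  simp [hF, star_mul', he]; ring

/-- the form of `16 v - ρ N v̄` -/
lemma hF_W (hf : ∀ x, f (star x) = star (f x)) (v : Fin 3 → K)
    (hv : hF (f etaZ) v v = 1) (ρ : K) (hρ : hF (f etaZ) v (tv f v) = ρ) :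
    hF (f etaZ) ((16 : K) • v - ρ • tv f v) ((16 : K) • v - ρ • tv f v)
      = 16 * (16 - ρ * star ρ) := by
  have he : star (f etaZ) = f etaZ := by rw [← hf, etaZ_star]
  have h2 : hF (f etaZ) (tv f v) (tv f v) = 16 := by rw [hF_tv hf, hv]; simp
  have h3 : hF (f etaZ) (tv f v) v = star ρ := by rw [← hρ, star_hF he]
  simp only [hF_sub_left, hF_sub_right, hF_smul_left, hF_smul_right, hv, hρ, h2, h3]
  simp
  ring

end

end Pool.Agent.H.MP_c41128_gt
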