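import Pool.Agent.H.MP_c41128_gt.Bound

namespace Pool.Agent.H.MP_c41128_gt

/-- Parametrisation of the lattice of vectors with `N ȳ = 4 y`; the form on it modulo 4. -/
lemma lattice_form (y : Fin 3 → Z5 ℤ) (hy : tv (RingHom.id _) y = (4 : Z5 ℤ) • y) :
    ∃ m0 m1 X Y : ℤ, hF etaZ y y =
      ⟨4 * X + ((2 * m0 * m1 + m1 ^ 2) - (m0 ^ 2 + m1 ^ 2)), 0,
        -(4 * Y + (m0 ^ 2 + m1 ^ 2)), -(4 * Y + (m0 ^ 2 + m1 ^ 2))⟩ := by
  have e0 := congrFun hy 0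
  have e1 := congrFun hy 1
  have e2 := congrFun hy 2
  simp only [tv, NN, RingHom.id_apply, Pi.smul_apply, smul_eq_mul, Z5.ext_iff] at e0 e1 e2
  simp at e0 e1 e2
  obtain ⟨e00, e01, e02, e03⟩ := e0
  obtain ⟨e10, e11, e12, e13⟩ := e1
  obtain ⟨e20, e21, e22, e23⟩ := e2
  generalize hp0 : (-1) * (y 0).a + (1) * (y 0).c + (-1) * (y 0).d = p0
  generalize hp1 : (1) * (y 0).d = p1
  generalize hp2 : (1) * (y 0).a + (1) * (y 0).b + (1) * (y 0).c + (1) * (y 0).d + (-1) * (y 2).b = p2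
  generalize hp3 : (1) * (y 0).b + (1) * (y 0).c + (1) * (y 2).a + (-1) * (y 2).b = p3
  generalize hp4 : (1) * (y 0).a + (-1) * (y 0).b + (-1) * (y 0).c + (1) * (y 0).d + (1) * (y 2).a = p4
  generalize hp5 : (1) * (y 0).b + (1) * (y 0).c + (-1) * (y 2).b = p5
  have f0 : (y 0).a = (-1) * p1 + (1) * p2 + (-1) * p5 := by linarith
  have f1 : (y 0).b = (-1) * p0 + (1) * p3 + (-1) * p4 + (-1) * p5 := by linarith
  have f2 : (y 0).c = (1) * p0 + (1) * p2 + (-1) * p5 := by linarith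
  have f3 : (y 0).d = (1) * p1 := by linarith
  have f4 : (y 1).a = (1) * p1 + (2) * p2 := by linarith
  have f5 : (y 1).b = (1) * p2 + (-1) * p5 := by linarith
  have f6 : (y 1).c = (-1) * p0 + (-1) * p1 + (-1) * p3 + (-1) * p4 + (-1) * p5 := by linarith
  have f7 : (y 1).d = (-1) * p0 + (-1) * p1 + (1) * p2 + (-2) * p3 + (-1) * p5 := by linarith
  have f8 : (y 2).a = (1) * p3 + (-1) * p5 := by linarith
  have f9 : (y 2).b = (1) * p2 + (1) * p3 + (-1) * p4 + (-3) * p5 := by linarith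
  have f10 : (y 2).c = (1) * p3 + (-2) * p4 + (-3) * p5 := by linarith
  have f11 : (y 2).d = (-2) * p5 := by linarith
  refine ⟨p2 + p4, p3 + p5,
    (1) * p0 * p0 + (1) * p0 * p2 + (1) * p0 * p4 + (1) * p1 * p1 + (1) * p1 * p3 + (1) * p1 * p5 + (2) * p2 * p2 + (-2) * p2 * p3 + (2) * p2 * p4 + (-1) * p2 * p5 + (1) * p3 * p3 + (-1) * p3 * p4 + (1) * p3 * p5 + (1) * p4 * p4 + (-2) * p4 * p5,
    (2) * p0 * p1 + (1) * p0 * p3 + (1) * p0 * p5 + (1) * p1 * p1 + (1) * p1 * p2 + (1) * p1 * p3 + (1) * p1 * p4 + (1) * p1 * p5 + (-1) * p2 * p2 + (2) * p2 * p3 + (-1) * p2 * p4 + (1) * p2 * p5 + (1) * p3 * p4 + (-1) * p4 * p4 + (-1) * p5 * p5, ?_⟩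
  clear hp0 hp1 hp2 hp3 hp4 hp5 e00 e01 e02 e03 e10 e11 e12 e13 e20 e21 e22 e23 hy
  ext <;> simp only [hF, etaZ, Z5.add_a, Z5.add_b, Z5.add_c, Z5.add_d, Z5.mul_a, Z5.mul_b,
    Z5.mul_c, Z5.mul_d, Z5.star_a, Z5.star_b, Z5.star_c, Z5.star_d,
    f0, f1, f2, f3, f4, f5, f6, f7, f8, f9, f10, f11] <;> ring

lemma sq_mod4 (m : ℤ) : (m % 2 = 0 ∧ ∃ k, m = 2 * k) ∨ (m % 2 = 1 ∧ ∃ k, m = 2 * k + 1) := by
  rcases Int.emod_two_eq_zero_or_one m with h | h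
  · left; exact ⟨h, m / 2, by omega⟩
  · right; exact ⟨h, m / 2, by omega⟩

lemma lattice_ne_one (y : Fin 3 → Z5 ℤ) (hy : tv (RingHom.id _) y = (4 : Z5 ℤ) • y) :
    hF etaZ y y ≠ 1 := by
  intro h1
  obtain ⟨m0, m1, X, Y, h⟩ := lattice_form y hy
  rw [h1, Z5.ext_iff] at h
  obtain ⟨ha, -, hc, -⟩ := h
  simp only [Z5.one_a, Z5.one_c] at ha hc
  rcases sq_mod4 m0 with ⟨-, k0, rfl⟩ | ⟨-, k0, rfl⟩ <;>
  rcases sq_mod4 m1 with ⟨-, k1, rfl⟩ | ⟨-, k1, rfl⟩ <;> ring_nf at ha hc <;> omega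

/-- `2 + φ` as an element of `Z5` -/
def twophi : Z5 ℤ := ⟨2, 0, -1, -1⟩

lemma lattice_ne_two (y : Fin 3 → Z5 ℤ) (hy : tv (RingHom.id _) y = (4 : Z5 ℤ) • y) :
    hF etaZ y y ≠ twophi := by
  intro h1
  obtain ⟨m0, m1, X, Y, h⟩ := lattice_form y hy
  rw [h1, Z5.ext_iff] at h
  obtain ⟨ha, -, hc, -⟩ := h
  simp only [twophi] at ha hc
  rcases sq_mod4 m0 with ⟨-, k0, rfl⟩ | ⟨-, k0, rfl⟩ <;>
  rcases sq_mod4 m1 with ⟨-, k1, rfl⟩ | ⟨-, k1, rfl⟩ <;> ring_nf at ha hc <;> omega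

end Pool.Agent.H.MP_c41128_gt
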