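import Pool.Agent.H.MP_c41128_gt.Enum2
import Pool.Agent.H.MP_c41128_gt.Two

namespace Pool.Agent.H.MP_c41128_gt

lemma fact1 : ∀ a b c : ZMod 5, a * a + b * b + 3 * (c * c) = 1 →
    (a * (2 * a + 4 * c) + b * (4 * b) + 3 * (c * (3 * a + 3 * c)) = 1 ∨
     a * (2 * a + 4 * c) + b * (4 * b) + 3 * (c * (3 * a + 3 * c)) = 2 ∨
     a * (2 * a + 4 * c) + b * (4 * b) + 3 * (c * (3 * a + 3 * c)) = 4) ∧
    (a * (2 * a + 4 * c) + b * (4 * b) + 3 * (c * (3 * a + 3 * c)) = 1 →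
      2 * a + 4 * c = a ∧ 4 * b = b ∧ 3 * a + 3 * c = c) ∧
    (a * (2 * a + 4 * c) + b * (4 * b) + 3 * (c * (3 * a + 3 * c)) = 4 →
      2 * a + 4 * c = -a ∧ 4 * b = -b ∧ 3 * a + 3 * c = -c) := by
  decide +kernel

lemma fact2 : ∀ a b c : ZMod 5, 2 * a + 4 * c = a → 4 * b = b → 3 * a + 3 * c = c →
    (a * a + b * b + 3 * (c * c) = 0 ∨ a * a + b * b + 3 * (c * c) = 1 ∨
      a * a + b * b + 3 * (c * c) = 4) := by
  decide +kernel

lemma fact3 : ∀ a b c : ZMod 5, 2 * a + 4 * c = -a → 4 * b = -b → 3 * a + 3 * c = -c →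
    a * a + b * b + 3 * (c * c) = 0 → a = 0 ∧ b = 0 ∧ c = 0 := by
  decide +kernel

lemma r5_hF (v w : Fin 3 → Z5 ℤ) : r5 (hF etaZ v w) =
    r5 (v 0) * r5 (w 0) + r5 (v 1) * r5 (w 1) + 3 * (r5 (v 2) * r5 (w 2)) := by
  have he : r5 etaZ = 3 := by decide
  simp only [hF, map_add, map_mul, r5_star, he]

lemma r5_tv0 (v : Fin 3 → Z5 ℤ) : r5 (tv (RingHom.id _) v 0) = 2 * r5 (v 0) + 4 * r5 (v 2) := by
  have h0 : r5 (NN 0 0) = 2 := by decide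
  have h1 : r5 (NN 0 1) = 0 := by decide
  have h2 : r5 (NN 0 2) = 4 := by decide
  simp only [tv, map_add, map_mul, r5_star, RingHom.id_apply, h0, h1, h2]; ring

lemma r5_tv1 (v : Fin 3 → Z5 ℤ) : r5 (tv (RingHom.id _) v 1) = 4 * r5 (v 1) := by
  have h0 : r5 (NN 1 0) = 0 := by decide
  have h1 : r5 (NN 1 1) = 4 := by decide
  have h2 : r5 (NN 1 2) = 0 := by decide
  simp only [tv, map_add, map_mul, r5_star, RingHom.id_apply, h0, h1, h2]; ring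

lemma r5_tv2 (v : Fin 3 → Z5 ℤ) : r5 (tv (RingHom.id _) v 2) = 3 * r5 (v 0) + 3 * r5 (v 2) := by
  have h0 : r5 (NN 2 0) = 3 := by decide
  have h1 : r5 (NN 2 1) = 0 := by decide
  have h2 : r5 (NN 2 2) = 3 := by decide
  simp only [tv, map_add, map_mul, r5_star, RingHom.id_apply, h0, h1, h2]; ring

/-- `λ = 1 - ζ` -/
def lam : Z5 ℤ := ⟨1, -1, 0, 0⟩

lemma lam_cancel {x y : Z5 ℤ} (h : lam * x = lam * y) : x = y := by
  simp only [lam, Z5.ext_iff, Z5.mul_a, Z5.mul_b, Z5.mul_c, Z5.mul_d] at h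
  obtain ⟨h0, h1, h2, h3⟩ := h
  ext <;> omega

lemma div_lam {x : Z5 ℤ} (h : r5 x = 0) : ∃ y, x = lam * y := by
  rw [r5_apply, ZMod.intCast_zmod_eq_zero_iff_dvd] at h
  obtain ⟨k, hk⟩ := h
  simp only [Nat.cast_ofNat] at hk
  refine ⟨⟨x.a - k, x.b + (x.a - k) - k, x.c + (x.b + (x.a - k) - k) - k, k⟩, ?_⟩
  ext <;> simp [lam] <;> omega

lemma star_lam : star lam = lam * ⟨1, 1, 1, 1⟩ := by decide

lemma r5_lam : r5 lam = 0 := by decide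

/-- One step of `λ`-adic descent. -/
lemma descend {u : Fin 3 → Z5 ℤ} {κ n : Z5 ℤ} (h0 : ∀ i, r5 (u i) = 0)
    (ht : tv (RingHom.id _) u = κ • u) (hn : hF etaZ u u = lam * star lam * n) :
    ∃ u1 : Fin 3 → Z5 ℤ, tv (RingHom.id _) u1 = (⟨0, -1, 0, 0⟩ * κ) • u1 ∧ hF etaZ u1 u1 = n := by
  choose u1 hu1 using fun i => div_lam (h0 i)
  have hu : u = lam • u1 := by funext i; exact hu1 i
  refine ⟨u1, ?_, ?_⟩
  · rw [hu, tv_smul] at ht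
    funext i
    have h1 := congrFun ht i
    simp only [Pi.smul_apply, smul_eq_mul] at h1
    rw [star_lam] at h1
    have h2 : lam * (⟨1, 1, 1, 1⟩ * tv (RingHom.id _) u1 i) = lam * (κ * u1 i) := by
      linear_combination h1
    have h3 := lam_cancel h2
    simp only [Pi.smul_apply, smul_eq_mul]
    have h4 : (⟨0, -1, 0, 0⟩ : Z5 ℤ) * ⟨1, 1, 1, 1⟩ = 1 := by decide
    linear_combination (⟨0, -1, 0, 0⟩ : Z5 ℤ) * h3 - tv (RingHom.id _) u1 i * h4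
  · rw [hu, hF_smul_smul] at hn
    rw [star_lam] at hn
    have h2 : lam * (lam * (⟨1, 1, 1, 1⟩ * hF etaZ u1 u1)) = lam * (lam * (⟨1, 1, 1, 1⟩ * n)) := by
      linear_combination hn
    have h3 := lam_cancel (lam_cancel h2)
    have h4 : (⟨0, -1, 0, 0⟩ : Z5 ℤ) * ⟨1, 1, 1, 1⟩ = 1 := by decide
    linear_combination (⟨0, -1, 0, 0⟩ : Z5 ℤ) * h3 - (hF etaZ u1 u1 - n) * h4

lemma r5_vec {u : Fin 3 → Z5 ℤ} {κ : Z5 ℤ} (ht : tv (RingHom.id _) u = κ • u) :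
    2 * r5 (u 0) + 4 * r5 (u 2) = r5 κ * r5 (u 0) ∧ 4 * r5 (u 1) = r5 κ * r5 (u 1) ∧
      3 * r5 (u 0) + 3 * r5 (u 2) = r5 κ * r5 (u 2) := by
  refine ⟨?_, ?_, ?_⟩
  · rw [← r5_tv0, ht]; simp
  · rw [← r5_tv1, ht]; simp
  · rw [← r5_tv2, ht]; simp

lemma contra_of_one {u : Fin 3 → Z5 ℤ} {κ n : Z5 ℤ} (ht : tv (RingHom.id _) u = κ • u)
    (hκ : r5 κ = 1) (hn : hF etaZ u u = n) (h5 : r5 n ≠ 0 ∧ r5 n ≠ 1 ∧ r5 n ≠ 4) : False := by
  obtain ⟨h0, h1, h2⟩ := r5_vec ht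
  rw [hκ, one_mul] at h0 h1 h2
  have h := fact2 _ _ _ h0 h1 h2
  rw [← r5_hF, hn] at h
  tauto

/-- the values of `Q` modulo `1-ζ` on vectors of norm one -/
lemma r5_Q {v : Fin 3 → Z5 ℤ} (hv : hF etaZ v v = 1) :
    (r5 (Q v) = 1 ∨ r5 (Q v) = 2 ∨ r5 (Q v) = 4) ∧
    (r5 (Q v) = 1 → ∀ i, r5 (tv (RingHom.id _) v i) = r5 (v i)) ∧
    (r5 (Q v) = 4 → ∀ i, r5 (tv (RingHom.id _) v i) = - r5 (v i)) := by
  have h1 : r5 (v 0) * r5 (v 0) + r5 (v 1) * r5 (v 1) + 3 * (r5 (v 2) * r5 (v 2)) = 1 := by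
    rw [← r5_hF, hv, map_one]
  have hQ : r5 (Q v) = r5 (v 0) * (2 * r5 (v 0) + 4 * r5 (v 2)) + r5 (v 1) * (4 * r5 (v 1)) +
      3 * (r5 (v 2) * (3 * r5 (v 0) + 3 * r5 (v 2))) := by
    rw [Q, r5_hF, r5_tv0, r5_tv1, r5_tv2]
  obtain ⟨g1, g2, g3⟩ := fact1 _ _ _ h1
  rw [← hQ] at g1 g2 g3
  refine ⟨g1, fun h => ?_, fun h => ?_⟩
  · obtain ⟨a, b, c⟩ := g2 h
    intro i
    fin_cases i
    · exact (r5_tv0 v).trans a
    · exact (r5_tv1 v).trans b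
    · exact (r5_tv2 v).trans c
  · obtain ⟨a, b, c⟩ := g3 h
    intro i
    fin_cases i
    · exact (r5_tv0 v).trans a
    · exact (r5_tv1 v).trans b
    · exact (r5_tv2 v).trans c

lemma star_id : ∀ x : Z5 ℤ, (RingHom.id (Z5 ℤ)) (star x) = star ((RingHom.id (Z5 ℤ)) x) :=
  fun _ => rfl

/-- the form of `4 v + s N v̄`, `s = ±1` -/
lemma hF_sum {v : Fin 3 → Z5 ℤ} (hv : hF etaZ v v = 1) (s : Z5 ℤ) (hs : star s = s)
    (hs2 : s * s = 1) (hρ : star (Q v) = Q v) :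
    hF etaZ ((4 : Z5 ℤ) • v + s • tv (RingHom.id _) v) ((4 : Z5 ℤ) • v + s • tv (RingHom.id _) v)
      = 32 + 8 * (s * Q v) ∧
    tv (RingHom.id _) ((4 : Z5 ℤ) • v + s • tv (RingHom.id _) v) =
      (4 * s) • ((4 : Z5 ℤ) • v + s • tv (RingHom.id _) v) := by
  have h4 : star (4 : Z5 ℤ) = 4 := by decide
  constructor
  · have h2 : hF etaZ (tv (RingHom.id _) v) (tv (RingHom.id _) v) = 16 := by
      have := hF_tv (f := RingHom.id (Z5 ℤ)) star_id v v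
      simp only [RingHom.id_apply] at this
      rw [this, hv]; simp
    have h3 : hF etaZ (tv (RingHom.id _) v) v = Q v := by
      rw [← star_hF etaZ_star, ← hρ]; rfl
    have h3' : hF etaZ v (tv (RingHom.id _) v) = Q v := rfl
    simp only [hF_add_left, hF_add_right, hF_smul_left, hF_smul_right, hv, h2, h3, h3', h4, hs]
    linear_combination 16 * hs2
  · have h5 := tv_tv (f := RingHom.id (Z5 ℤ)) star_id v
    rw [tv_add, tv_smul, tv_smul, h5, h4, hs]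
    funext i
    simp only [Pi.add_apply, Pi.smul_apply, smul_eq_mul]
    linear_combination (-4 * tv (RingHom.id _) v i) * hs2

/-- elimination of the value `ρ` real with `r5 ρ = 1` -/
lemma caseA {v : Fin 3 → Z5 ℤ} (hv : hF etaZ v v = 1) {ρ n : Z5 ℤ} (hQ : Q v = ρ)
    (hs : star ρ = ρ) (h5 : r5 ρ = 1) (hn : 32 + 8 * ρ = lam * star lam * n)
    (hn5 : r5 n ≠ 0 ∧ r5 n ≠ 1 ∧ r5 n ≠ 4) : False := by
  subst hQ
  obtain ⟨h1, h2⟩ := hF_sum hv 1 (by decide) (by decide) hs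
  have h0 : ∀ i, r5 (((4 : Z5 ℤ) • v + (1 : Z5 ℤ) • tv (RingHom.id _) v) i) = 0 := by
    intro i
    have h := (r5_Q hv).2.1 h5 i
    have h4 : r5 (4 : Z5 ℤ) = 4 := by decide
    have h55 : (5 : ZMod 5) = 0 := by decide
    simp only [Pi.add_apply, Pi.smul_apply, smul_eq_mul, one_mul, map_add, map_mul, h, h4]
    linear_combination r5 (v i) * h55
  rw [one_mul, hn] at h1
  obtain ⟨u1, hu1, hu2⟩ := descend h0 h2 h1
  exact contra_of_one hu1 (by decide) hu2 hn5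

lemma caseB {v : Fin 3 → Z5 ℤ} (hv : hF etaZ v v = 1) (hQ : Q v = -1) : False := by
  have hs : star (Q v) = Q v := by rw [hQ]; decide
  obtain ⟨h1, h2⟩ := hF_sum hv (-1) (by decide) (by decide) hs
  have h0 : ∀ i, r5 (((4 : Z5 ℤ) • v + (-1 : Z5 ℤ) • tv (RingHom.id _) v) i) = 0 := by
    intro i
    have h := (r5_Q hv).2.2 (by rw [hQ]; decide) i
    have h4 : r5 (4 : Z5 ℤ) = 4 := by decide
    have h55 : (5 : ZMod 5) = 0 := by decide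
    simp only [Pi.add_apply, Pi.smul_apply, smul_eq_mul, map_add, map_mul, h, h4, map_neg, map_one]
    linear_combination r5 (v i) * h55
  rw [hQ] at h1
  have e1 : (32 + 8 * (-1 * -1) : Z5 ℤ) = lam * star lam * ⟨16, 0, -8, -8⟩ := by decide
  rw [e1] at h1
  obtain ⟨u1, hu1, hu2⟩ := descend h0 h2 h1
  -- `u1 ≡ 0`
  have hz : ∀ i, r5 (u1 i) = 0 := by
    obtain ⟨g0, g1, g2⟩ := r5_vec hu1
    have hκ : r5 ((⟨0, -1, 0, 0⟩ : Z5 ℤ) * (4 * -1)) = -1 := by decide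
    rw [hκ] at g0 g1 g2
    have hh : r5 (u1 0) * r5 (u1 0) + r5 (u1 1) * r5 (u1 1) + 3 * (r5 (u1 2) * r5 (u1 2)) = 0 := by
      rw [← r5_hF, hu2]; decide
    obtain ⟨k0, k1, k2⟩ := fact3 _ _ _ (by rw [g0]; ring) (by rw [g1]; ring) (by rw [g2]; ring) hh
    intro i
    fin_cases i
    · exact k0
    · exact k1
    · exact k2
  have e2 : (⟨16, 0, -8, -8⟩ : Z5 ℤ) = lam * star lam * ⟨8, 0, -8, -8⟩ := by decide
  rw [e2] at hu2
  obtain ⟨u2, hu3, hu4⟩ := descend hz hu1 hu2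
  exact contra_of_one hu3 (by decide) hu4 (by decide)

lemma caseC {v : Fin 3 → Z5 ℤ} (hv : hF etaZ v v = 1) (hQ : Q v = 4) : False := by
  have h := eq_of_norm2 hv (by rw [hQ]; decide)
  rw [hQ] at h
  refine lattice_ne_one v ?_ hv
  funext i
  have hi := congrFun h i
  simp only [Pi.smul_apply, smul_eq_mul] at hi ⊢
  generalize tv (RingHom.id _) v i = t at *
  generalize v i = x at *
  simp [Z5.ext_iff] at hi ⊢
  omega

lemma caseD {v : Fin 3 → Z5 ℤ} (hv : hF etaZ v v = 1) (hQ : Q v = -4) : False := by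
  have h := eq_of_norm2 hv (by rw [hQ]; decide)
  rw [hQ] at h
  have ht : tv (RingHom.id _) v = (-4 : Z5 ℤ) • v := by
    funext i
    have hi := congrFun h i
    simp only [Pi.smul_apply, smul_eq_mul] at hi ⊢
    generalize tv (RingHom.id _) v i = t at *
    generalize v i = x at *
    simp [Z5.ext_iff] at hi ⊢
    omega
  refine lattice_ne_two ((⟨1, 2, 1, 1⟩ : Z5 ℤ) • v) ?_ ?_
  · rw [tv_smul, ht]
    have : star (⟨1, 2, 1, 1⟩ : Z5 ℤ) = -⟨1, 2, 1, 1⟩ := by decide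
    rw [this]
    funext i
    simp only [Pi.smul_apply, smul_eq_mul]
    ring
  · rw [hF_smul_smul, hv]; decide

/-- scaling by a unit -/
lemma Q_smul (u : Z5 ℤ) (v : Fin 3 → Z5 ℤ) : Q (u • v) = u ^ 2 * Q v := by
  unfold Q
  rw [tv_smul, hF_smul_smul, star_star]; ring

lemma L25_units : ∀ t ∈ L25, ∃ u ∈ ([⟨1, 0, 0, 0⟩, ⟨0, 1, 0, 0⟩, ⟨0, 0, 1, 0⟩, ⟨0, 0, 0, 1⟩,
    ⟨-1, -1, -1, -1⟩] : List (Z5 ℤ)), u * star u = 1 ∧
    (u ^ 2 * ⟨t.1, t.2.1, t.2.2.1, t.2.2.2⟩ = -1 ∨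
     u ^ 2 * ⟨t.1, t.2.1, t.2.2.1, t.2.2.2⟩ = ⟨-1, 0, 1, 1⟩ ∨
     u ^ 2 * ⟨t.1, t.2.1, t.2.2.1, t.2.2.2⟩ = ⟨-2, 0, -1, -1⟩ ∨
     u ^ 2 * ⟨t.1, t.2.1, t.2.2.1, t.2.2.2⟩ = 4 ∨
     u ^ 2 * ⟨t.1, t.2.1, t.2.2.1, t.2.2.2⟩ = -4) := by
  decide +kernel

/-- No vector of norm one has `|Q|` at most `4` at both places. -/
theorem no_vector {v : Fin 3 → Z5 ℤ} (hv : hF etaZ v v = 1) (h1 : ‖ev (Q v)‖ ^ 2 ≤ 16) :
    False := by
  have hmem := mem_L25 h1 (bound2 hv) (Q_cls v) (r5_Q hv).1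
  obtain ⟨u, -, hu, hcase⟩ := L25_units _ hmem
  have hQu : Q (u • v) = u ^ 2 * ⟨(Q v).a, (Q v).b, (Q v).c, (Q v).d⟩ := Q_smul u v
  have hvu : hF etaZ (u • v) (u • v) = 1 := by rw [hF_smul_smul, hu, hv, one_mul]
  simp only at hcase
  rw [← hQu] at hcase
  rcases hcase with h | h | h | h | h
  · exact caseB hvu h
  · exact caseA (n := 8) hvu h (by decide) (by decide) (by decide) (by decide)
  · exact caseA (n := ⟨8, 0, -8, -8⟩) hvu h (by decide) (by decide) (by decide) (by decide)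
  · exact caseC hvu h
  · exact caseD hvu h

end Pool.Agent.H.MP_c41128_gt
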