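import Pool.Agent.H.MP_c41128_gt.Cocompact

namespace Pool.Agent.H.MP_c41128_gt

open Matrix

/-- the action of an integral matrix on real coordinates -/
noncomputable def act (A : GL (Fin 3) (Z5 ℤ)) (t : Fin 3 → ℝ) : Fin 3 → ℝ :=
  (A.val.map fun a => (ev a).re) *ᵥ t

lemma ofReal_act {A : GL (Fin 3) (Z5 ℤ)} (hA : A ∈ W) (t : Fin 3 → ℝ) :
    (fun i => ((act A t i : ℝ) : ℂ)) = A.val.map ev *ᵥ (fun i => (t i : ℂ)) := by
  have h := real_of_mem hA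
  funext i
  simp only [act, Matrix.mulVec, dotProduct, Matrix.map_apply, Complex.ofReal_sum,
    Complex.ofReal_mul]
  refine Finset.sum_congr rfl fun j _ => ?_
  have h2 : star (ev (A.val i j)) = ev (A.val i j) := congrFun (congrFun h i) j
  have h3 : (((ev (A.val i j)).re : ℝ) : ℂ) = ev (A.val i j) := by
    rw [Complex.star_def] at h2
    exact Complex.conj_eq_iff_re.mp h2
  rw [h3]

lemma emb_act {A : GL (Fin 3) (Z5 ℤ)} (hA : A ∈ W) (t : Fin 3 → ℝ) :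
    emb (act A t) = (rho A).val *ᵥ emb t := by
  rw [emb, ofReal_act hA, emb, rho_EC]

lemma emb_injective : Function.Injective emb := by
  intro s t h
  have h2 : (EG⁻¹).val *ᵥ emb s = (EG⁻¹).val *ᵥ emb t := by rw [h]
  have : (EG⁻¹).val * EC = 1 := EG.inv_val
  simp only [emb, Matrix.mulVec_mulVec, this, Matrix.one_mulVec] at h2
  funext i
  have := congrFun h2 i
  exact_mod_cast this

lemma act_mul {A B : GL (Fin 3) (Z5 ℤ)} (hA : A ∈ W) (hB : B ∈ W) (t : Fin 3 → ℝ) :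
    act (A * B) t = act A (act B t) := by
  apply emb_injective
  rw [emb_act (W.mul_mem hA hB), emb_act hA, emb_act hB, map_mul, Units.val_mul,
    Matrix.mulVec_mulVec]

lemma act_one (t : Fin 3 → ℝ) : act 1 t = t := by
  apply emb_injective
  rw [emb_act W.one_mem, map_one, Units.val_one, Matrix.one_mulVec]

lemma Bf_act {A : GL (Fin 3) (Z5 ℤ)} (hA : A ∈ W) (s t : Fin 3 → ℝ) :
    Bf (act A s) (act A t) = Bf s t := by
  have h := rho_hF hA (emb s) (emb t)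
  rw [← emb_act hA, ← emb_act hA, ev_eta, hF_emb, hF_emb] at h
  exact_mod_cast h

lemma Bf_act_inv {A : GL (Fin 3) (Z5 ℤ)} (hA : A ∈ W) (s t : Fin 3 → ℝ) :
    Bf (act A⁻¹ s) t = Bf s (act A t) := by
  rw [← Bf_act hA, ← act_mul hA (W.inv_mem hA), mul_inv_cancel, act_one]

/-- the base vector -/
def x0Z : Fin 3 → Z5 ℤ := ![⟨9, 0, -3, -3⟩, ⟨9, 0, -2, -2⟩, ⟨16, 0, -8, -8⟩]
/-- the base vector -/
noncomputable def x0R : Fin 3 → ℝ := ![9 + 3 * phi, 9 + 2 * phi, 16 + 8 * phi]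

lemma ev_x0Z : ev ∘ x0Z = fun i => ((x0R i : ℝ) : ℂ) := by
  funext i
  fin_cases i
  · simp [x0Z, x0R, ev_apply]; linear_combination (-3 : ℂ) * zeta_add2
  · simp [x0Z, x0R, ev_apply]; linear_combination (-2 : ℂ) * zeta_add2
  · simp [x0Z, x0R, ev_apply]; linear_combination (-8 : ℂ) * zeta_add2

/-- the lattice vector attached to a group element -/
def uA (A : GL (Fin 3) (Z5 ℤ)) : Fin 3 → Z5 ℤ := EE *ᵥ (A.val *ᵥ x0Z)

lemma ev_mulVec (M : Matrix (Fin 3) (Fin 3) (Z5 ℤ)) (v : Fin 3 → Z5 ℤ) :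
    ev ∘ (M *ᵥ v) = M.map ev *ᵥ (ev ∘ v) := by
  funext i
  simp [Matrix.mulVec, dotProduct]

lemma ev_uA {A : GL (Fin 3) (Z5 ℤ)} (hA : A ∈ W) : ev ∘ uA A = emb (act A x0R) := by
  rw [uA, ev_mulVec, ev_mulVec, ev_x0Z, emb, ofReal_act hA]
  rfl

lemma norm_uA {A : GL (Fin 3) (Z5 ℤ)} (hA : A ∈ W) :
    hF etaZ (uA A) (uA A) = hF etaZ (uA 1) (uA 1) := by
  apply ev_injective
  rw [← map_hF ev_star, ← map_hF ev_star, ev_uA hA, ev_uA W.one_mem, ev_eta, hF_emb, hF_emb,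
    Bf_act hA, Bf_act W.one_mem]

lemma Bf_x0_ej : ∀ j, Bf x0R (ej j) = 16 - 32 * phi := by
  have hp := phi_sq
  obtain ⟨h0, h1, h2⟩ := Bf_ej x0R
  intro j
  fin_cases j
  · change Bf x0R (ej 0) = _
    rw [h0]; simp [x0R]; linear_combination (-16 : ℝ) * hp
  · change Bf x0R (ej 1) = _
    rw [h1]; simp [x0R]; ring
  · change Bf x0R (ej 2) = _
    rw [h2]; simp [x0R]; linear_combination (-24 : ℝ) * hp

lemma Bf_x0 : Bf x0R x0R < 0 := by
  have hp := phi_sq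
  have hlt := phi_lt
  have hgt := lt_phi
  have : Bf x0R x0R = 128 - 1296 * phi := by
    simp [Bf, x0R]
    linear_combination (-240 * phi - 944) * hp
  linarith

/-- existence of a minimiser -/
lemma exists_min {W0 : Subgroup (GL (Fin 3) (Z5 ℤ))} (hW : W0 ≤ W)
    {t : Fin 3 → ℝ} (ht : Bf t t < 0) :
    ∃ A ∈ W0, ∀ A' ∈ W0, |Bf t (act A x0R)| ≤ |Bf t (act A' x0R)| := by
  have hx : (hF ((1 - phi : ℝ) : ℂ) (emb t) (emb t)).re < 0 := by rw [hF_emb]; simpa using ht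
  have hn : (ev (hF etaZ (uA 1) (uA 1))).re ≤ 0 := by
    rw [← map_hF ev_star, ev_uA W.one_mem, ev_eta, hF_emb, Bf_act W.one_mem]
    simpa using Bf_x0.le
  have hval : ∀ A ∈ W, ‖hF ((1 - phi : ℝ) : ℂ) (emb t) (ev ∘ uA A)‖ = |Bf t (act A x0R)| := by
    intro A hA
    rw [ev_uA hA, hF_emb, Complex.norm_real, Real.norm_eq_abs]
  have hfin := finite_sublevel hx hn |Bf t (act 1 x0R)|
  have hfin2 : {u : Fin 3 → Z5 ℤ | (∃ A ∈ W0, u = uA A) ∧
      ‖hF ((1 - phi : ℝ) : ℂ) (emb t) (ev ∘ u)‖ ≤ |Bf t (act 1 x0R)|}.Finite := by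
    refine hfin.subset ?_
    rintro u ⟨⟨A, hA, rfl⟩, h2⟩
    exact ⟨norm_uA (hW hA), h2⟩
  obtain ⟨u, ⟨⟨A, hA, rfl⟩, h2⟩, h3⟩ := Set.exists_min_image _
    (fun u => ‖hF ((1 - phi : ℝ) : ℂ) (emb t) (ev ∘ u)‖) hfin2
    ⟨uA 1, ⟨1, W0.one_mem, rfl⟩, by rw [hval 1 W.one_mem]⟩
  refine ⟨A, hA, fun A' hA' => ?_⟩
  rw [← hval A (hW hA), ← hval A' (hW hA')]
  by_cases hc : ‖hF ((1 - phi : ℝ) : ℂ) (emb t) (ev ∘ uA A')‖ ≤ |Bf t (act 1 x0R)|
  · exact h3 _ ⟨⟨A', hA', rfl⟩, hc⟩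
  · push Not at hc
    exact h2.trans hc.le

/-- the three reflections -/
def rfm : Fin 3 → Matrix (Fin 3) (Fin 3) (Z5 ℤ) :=
  ![!![-1, 0, 1; 0, 1, 0; 0, 0, 1],
    !![1, 0, 0; 0, -1, 1; 0, 0, 1],
    !![1, 0, 0; 0, 1, 0; ⟨2, 0, -1, -1⟩, 1, -1]]

lemma rfm_sq : ∀ j, rfm j * rfm j = 1 := by decide +kernel
lemma rfm_star : ∀ j, (rfm j).map star = rfm j := by decide +kernel
lemma rfm_GG : ∀ j, (rfm j)ᵀ * GG * rfm j = GG := by decide +kernel

/-- the three reflections as group elements -/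
def rfl' (j : Fin 3) : GL (Fin 3) (Z5 ℤ) := ⟨rfm j, rfm j, rfm_sq j, rfm_sq j⟩

lemma rfl'_mem (j : Fin 3) : rfl' j ∈ W := by
  refine ⟨?_, rfm_GG j⟩
  apply Units.ext
  exact rfm_star j

/-- coefficients of the reflections of the base vector -/
noncomputable def kj : Fin 3 → ℝ := ![2 * phi - 2, 4 * phi - 2, 4 * phi - 2]

lemma act_rfl (j : Fin 3) : act (rfl' j) x0R = x0R + kj j • ej j := by
  have hp := phi_sq
  have h3 : (ev ⟨2, 0, -1, -1⟩).re = 2 + phi := by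
    have : ev ⟨2, 0, -1, -1⟩ = ((2 + phi : ℝ) : ℂ) := by
      rw [ev_apply]; push_cast; linear_combination (-1 : ℂ) * zeta_add2
    rw [this, Complex.ofReal_re]
  funext i
  fin_cases j <;> fin_cases i <;>
    simp [act, rfl', rfm, Matrix.mulVec, dotProduct, Fin.sum_univ_three, x0R, kj, ej,
      h3] <;> linarith

lemma Bf_smul_smul (c : ℝ) (s t : Fin 3 → ℝ) : Bf (c • s) (c • t) = c ^ 2 * Bf s t := by
  simp [Bf]; ring

lemma Bf_smul_left (c : ℝ) (s t : Fin 3 → ℝ) : Bf (c • s) t = c * Bf s t := by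
  simp [Bf]; ring

lemma kj_ok (j : Fin 3) : 0 < kj j ∧ kj j * Bf (ej j) (ej j) ≤ -2 * Bf x0R (ej j) := by
  have hp := phi_sq
  have hgt := lt_phi
  rw [Bf_x0_ej]
  fin_cases j
  · refine ⟨by simp [kj]; linarith, ?_⟩
    simp [kj, Bf, ej]
    nlinarith
  · refine ⟨by simp [kj]; linarith, ?_⟩
    simp [kj, Bf, ej]
    nlinarith
  · refine ⟨by simp [kj]; linarith, ?_⟩
    simp [kj, Bf, ej]
    nlinarith

lemma reduce_neg {W0 : Subgroup (GL (Fin 3) (Z5 ℤ))} (hr : ∀ j, rfl' j ∈ W0)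
    {s : Fin 3 → ℝ} (hs : Bf s s < 0) (hsx : Bf s x0R < 0)
    (hmin : ∀ B ∈ W0, |Bf s x0R| ≤ |Bf s (act B x0R)|) (j : Fin 3) : Bf s (ej j) ≤ 0 := by
  obtain ⟨h1, h2⟩ := kj_ok j
  refine reduce hs Bf_x0 hsx h1 h2 ?_ ?_
  · rw [Bf_x0_ej]; linarith [lt_phi]
  · rw [← act_rfl]; exact hmin _ (hr j)

theorem reduce_TT {W0 : Subgroup (GL (Fin 3) (Z5 ℤ))} (hW : W0 ≤ W) (hrf : ∀ j, rfl' j ∈ W0)
    {t : Fin 3 → ℝ} (ht : Bf t t < 0) :
    ∃ A ∈ W0, ∃ c : ℝ, c ≠ 0 ∧ c • act A t ∈ TT := by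
  obtain ⟨A, hA0, hmin⟩ := exists_min hW ht
  have hA := hW hA0
  have hAi := W.inv_mem hA
  have hAi0 := W0.inv_mem hA0
  set s := act A⁻¹ t with hs
  have hss : Bf s s = Bf t t := Bf_act hAi t t
  have hs0 : Bf s s < 0 := by rw [hss]; exact ht
  have hmin' : ∀ B ∈ W0, |Bf s x0R| ≤ |Bf s (act B x0R)| := by
    intro B hB
    rw [hs, Bf_act_inv hA, Bf_act_inv hA, ← act_mul hA (hW hB)]
    exact hmin _ (W0.mul_mem hA0 hB)
  have hne : Bf s x0R ≠ 0 := by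
    intro h
    exact absurd (Bf_signature hs0 h) (not_le.mpr Bf_x0)
  set r := Real.sqrt (-Bf s s) with hr
  have hr0 : 0 < r := Real.sqrt_pos.mpr (by linarith)
  have hr2 : r ^ 2 = -Bf s s := Real.sq_sqrt (by linarith)
  rcases lt_or_gt_of_ne hne with h | h
  · refine ⟨A⁻¹, hAi0, r⁻¹, by positivity, ?_, ?_⟩
    · rw [← hs, Bf_smul_smul, inv_pow, hr2, inv_neg, neg_mul, inv_mul_cancel₀ hs0.ne]
    · intro j
      rw [Bf_smul_left]
      exact mul_nonpos_of_nonneg_of_nonpos (by positivity) (reduce_neg hrf hs0 h hmin' j)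
  · have e1 : Bf (-s) (-s) = Bf s s := by simp [Bf]
    have e2 : ∀ y, Bf (-s) y = -Bf s y := by intro y; simp [Bf]; ring
    refine ⟨A⁻¹, hAi0, -r⁻¹, by simp [hr0.ne'], ?_, ?_⟩
    · rw [← hs, Bf_smul_smul, neg_sq, inv_pow, hr2, inv_neg, neg_mul, inv_mul_cancel₀ hs0.ne]
    · intro j
      have h3 := reduce_neg hrf (s := -s) (by rw [e1]; exact hs0) (by rw [e2]; linarith)
        (by intro B hB; rw [e2, e2, abs_neg, abs_neg]; exact hmin' B hB) j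
      rw [e2] at h3
      rw [Bf_smul_left]
      have : 0 ≤ r⁻¹ := by positivity
      nlinarith

end Pool.Agent.H.MP_c41128_gt
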