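import Pool.Agent.H.MP_c41128_gt.Ring

namespace Pool.Agent.H.MP_c41128_gt

open Complex

/-- `ζ = exp(2πi/5)` -/
noncomputable def zeta : ℂ := Complex.exp (2 * Real.pi * Complex.I / 5)

/-- the golden ratio -/
noncomputable def phi : ℝ := (1 + Real.sqrt 5) / 2

lemma phi_sq : phi ^ 2 = phi + 1 := by
  unfold phi
  have h : Real.sqrt 5 ^ 2 = 5 := Real.sq_sqrt (by norm_num)
  nlinarith [h]

lemma sqrt5_lt : Real.sqrt 5 < 2.24 := by
  rw [Real.sqrt_lt' (by norm_num)]; norm_num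

lemma lt_sqrt5 : 2.236 < Real.sqrt 5 := by
  rw [Real.lt_sqrt (by norm_num)]; norm_num

lemma phi_lt : phi < 1.62 := by unfold phi; linarith [sqrt5_lt]
lemma lt_phi : 1.618 < phi := by unfold phi; linarith [lt_sqrt5]

lemma zeta_prim : IsPrimitiveRoot zeta 5 := by
  have := Complex.isPrimitiveRoot_exp 5 (by norm_num)
  simpa [zeta] using this

lemma zeta_pow5 : zeta ^ 5 = 1 := zeta_prim.pow_eq_one

lemma zeta_sum : 1 + zeta + zeta ^ 2 + zeta ^ 3 + zeta ^ 4 = 0 := by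
  have := zeta_prim.geom_sum_eq_zero (by norm_num)
  simpa [Finset.sum_range_succ] using this

lemma zeta_sum2 : 1 + zeta ^ 2 + (zeta ^ 2) ^ 2 + (zeta ^ 2) ^ 3 + (zeta ^ 2) ^ 4 = 0 := by
  have h5 := zeta_pow5
  have h := zeta_sum
  linear_combination h + (zeta + zeta ^ 3) * h5

lemma star_zeta : star zeta = zeta ^ 4 := by
  have h1 : star zeta * zeta = 1 := by
    have : ‖zeta‖ = 1 := zeta_prim.norm'_eq_one (by norm_num)
    have h2 := Complex.conj_mul' zeta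
    rw [this] at h2
    simpa using h2
  have h5 := zeta_pow5
  calc star zeta = star zeta * zeta ^ 5 := by rw [h5, mul_one]
    _ = (star zeta * zeta) * zeta ^ 4 := by ring
    _ = zeta ^ 4 := by rw [h1, one_mul]

lemma cos_two_pi_div_five : Real.cos (2 * Real.pi / 5) = (Real.sqrt 5 - 1) / 4 := by
  have h : Real.sqrt 5 ^ 2 = 5 := Real.sq_sqrt (by norm_num)
  have : 2 * Real.pi / 5 = 2 * (Real.pi / 5) := by ring
  rw [this, Real.cos_two_mul, Real.cos_pi_div_five]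
  nlinarith [h]

lemma zeta_re : zeta.re = (phi - 1) / 2 := by
  have : zeta = Complex.exp ((2 * Real.pi / 5 : ℝ) * Complex.I) := by
    unfold zeta; congr 1; push_cast; ring
  rw [this, Complex.exp_ofReal_mul_I_re, cos_two_pi_div_five]
  unfold phi; ring

lemma zeta_add : zeta + zeta ^ 4 = (phi : ℂ) - 1 := by
  rw [← star_zeta]
  have : zeta + star zeta = ((2 * zeta.re : ℝ) : ℂ) := by
    apply Complex.ext <;> simp <;> ring
  rw [this, zeta_re]; push_cast; ring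

lemma zeta_add2 : zeta ^ 2 + zeta ^ 3 = - (phi : ℂ) := by
  linear_combination zeta_sum - zeta_add

/-- the first place -/
noncomputable def ev : Z5 ℤ →+* ℂ := Z5.evalAt zeta zeta_sum
/-- the second place -/
noncomputable def ev2 : Z5 ℤ →+* ℂ := Z5.evalAt (zeta ^ 2) zeta_sum2

lemma ev_apply (x : Z5 ℤ) : ev x = x.a + x.b * zeta + x.c * zeta ^ 2 + x.d * zeta ^ 3 := rfl
lemma ev2_apply (x : Z5 ℤ) :
    ev2 x = x.a + x.b * zeta ^ 2 + x.c * (zeta ^ 2) ^ 2 + x.d * (zeta ^ 2) ^ 3 := rfl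

lemma ev_star (x : Z5 ℤ) : ev (star x) = star (ev x) := by
  have h5 := zeta_pow5
  simp only [ev_apply, star_add, star_mul', star_pow, star_zeta, Z5.star_a, Z5.star_b, Z5.star_c,
    Z5.star_d, star_intCast]
  push_cast
  linear_combination (-(x.b : ℂ)) * zeta_sum - (x.c * zeta ^ 3 + x.d * (zeta ^ 7 + zeta ^ 2)) * h5

lemma ev2_star (x : Z5 ℤ) : ev2 (star x) = star (ev2 x) := by
  have h5 : (zeta ^ 2) ^ 5 = 1 := by rw [← pow_mul, mul_comm, pow_mul, zeta_pow5, one_pow]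
  have hs : star zeta ^ 2 = (zeta ^ 2) ^ 4 := by rw [star_zeta]; ring
  simp only [ev2_apply, star_add, star_mul', star_pow, Z5.star_a, Z5.star_b, Z5.star_c,
    Z5.star_d, star_intCast, hs]
  push_cast
  have h2 := zeta_sum2
  generalize zeta ^ 2 = w at *
  linear_combination (-(x.b : ℂ)) * h2 - (x.c * w ^ 3 + x.d * (w ^ 7 + w ^ 2)) * h5

lemma ev_norm (x : Z5 ℤ) : ‖ev x‖ ^ 2 = Z5.nA x + Z5.nB x * phi := by
  have h : ev x * star (ev x) = ev ⟨Z5.nA x, 0, -Z5.nB x, -Z5.nB x⟩ := by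
    rw [← Z5.mul_star_self, map_mul, ev_star]
  have h2 : ev x * star (ev x) = ((‖ev x‖ ^ 2 : ℝ) : ℂ) := by
    rw [Complex.star_def, Complex.mul_conj']; push_cast; rfl
  rw [h2] at h
  have h3 : ev ⟨Z5.nA x, 0, -Z5.nB x, -Z5.nB x⟩ = ((Z5.nA x + Z5.nB x * phi : ℝ) : ℂ) := by
    rw [ev_apply]; push_cast
    linear_combination (-(Z5.nB x : ℂ)) * zeta_add2
  rw [h3] at h
  exact_mod_cast h

lemma ev2_norm (x : Z5 ℤ) : ‖ev2 x‖ ^ 2 = Z5.nA x + Z5.nB x * (1 - phi) := by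
  have h : ev2 x * star (ev2 x) = ev2 ⟨Z5.nA x, 0, -Z5.nB x, -Z5.nB x⟩ := by
    rw [← Z5.mul_star_self, map_mul, ev2_star]
  have h2 : ev2 x * star (ev2 x) = ((‖ev2 x‖ ^ 2 : ℝ) : ℂ) := by
    rw [Complex.star_def, Complex.mul_conj']; push_cast; rfl
  rw [h2] at h
  have h3 : ev2 ⟨Z5.nA x, 0, -Z5.nB x, -Z5.nB x⟩ = ((Z5.nA x + Z5.nB x * (1 - phi) : ℝ) : ℂ) := by
    rw [ev2_apply]; push_cast
    linear_combination (-(Z5.nB x : ℂ)) * zeta_add - (Z5.nB x : ℂ) * zeta * zeta_pow5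
  rw [h3] at h
  exact_mod_cast h

lemma int_phi_eq_zero {A B : ℤ} (h : (A : ℝ) + B * phi = 0) : A = 0 ∧ B = 0 := by
  have hirr : Irrational (Real.sqrt 5) := by
    have := (show Nat.Prime 5 by norm_num).irrational_sqrt
    simpa using this
  by_cases hB : B = 0
  · subst hB; simpa using h
  · exfalso
    apply hirr
    refine ⟨(-(2 * A + B) : ℚ) / B, ?_⟩
    have hB' : (B : ℝ) ≠ 0 := by exact_mod_cast hB
    push_cast
    rw [div_eq_iff hB']
    unfold phi at h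
    linarith

lemma eq_zero_of_norms {x : Z5 ℤ} (hA : Z5.nA x = 0) (hB : Z5.nB x = 0) : x = 0 := by
  have h := Z5.sum_nA_nB x
  rw [hA, hB] at h
  have ha : x.a = 0 := by nlinarith [sq_nonneg x.a, sq_nonneg x.b, sq_nonneg x.c, sq_nonneg x.d, sq_nonneg (x.a - x.b), sq_nonneg (x.a - x.c), sq_nonneg (x.a - x.d), sq_nonneg (x.b - x.c), sq_nonneg (x.b - x.d), sq_nonneg (x.c - x.d)]
  have hb : x.b = 0 := by nlinarith [sq_nonneg x.a, sq_nonneg x.b, sq_nonneg x.c, sq_nonneg x.d, sq_nonneg (x.a - x.b), sq_nonneg (x.a - x.c), sq_nonneg (x.a - x.d), sq_nonneg (x.b - x.c), sq_nonneg (x.b - x.d), sq_nonneg (x.c - x.d)]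
  have hc : x.c = 0 := by nlinarith [sq_nonneg x.a, sq_nonneg x.b, sq_nonneg x.c, sq_nonneg x.d, sq_nonneg (x.a - x.b), sq_nonneg (x.a - x.c), sq_nonneg (x.a - x.d), sq_nonneg (x.b - x.c), sq_nonneg (x.b - x.d), sq_nonneg (x.c - x.d)]
  have hd : x.d = 0 := by nlinarith [sq_nonneg x.a, sq_nonneg x.b, sq_nonneg x.c, sq_nonneg x.d, sq_nonneg (x.a - x.b), sq_nonneg (x.a - x.c), sq_nonneg (x.a - x.d), sq_nonneg (x.b - x.c), sq_nonneg (x.b - x.d), sq_nonneg (x.c - x.d)]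
  ext <;> simpa

lemma ev_injective : Function.Injective ev := by
  rw [injective_iff_map_eq_zero]
  intro x hx
  have h := ev_norm x
  rw [hx] at h
  obtain ⟨hA, hB⟩ := int_phi_eq_zero (A := Z5.nA x) (B := Z5.nB x) (by rw [← h]; simp)
  exact eq_zero_of_norms hA hB

lemma ev2_injective : Function.Injective ev2 := by
  rw [injective_iff_map_eq_zero]
  intro x hx
  have h := ev2_norm x
  rw [hx] at h
  obtain ⟨hA, hB⟩ := int_phi_eq_zero (A := Z5.nA x + Z5.nB x) (B := -Z5.nB x) (by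
    push_cast
    have : (Z5.nA x : ℝ) + Z5.nB x + -Z5.nB x * phi = Z5.nA x + Z5.nB x * (1 - phi) := by ring
    rw [this, ← h]; simp)
  exact eq_zero_of_norms (by omega) (by omega)

end Pool.Agent.H.MP_c41128_gt
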