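import Pool.Agent.H.MP_c41128_gt.Lam

namespace Pool.Agent.H.MP_c41128_gt

open Matrix

/-- the columns are the three roots `4 e₁, 4 e₂, 4 e₃` spanning the totally real plane -/
def EE : Matrix (Fin 3) (Fin 3) (Z5 ℤ) :=
  !![⟨0, 1, -1, 0⟩, ⟨1, 3, -1, -1⟩, ⟨0, -2, 2, 0⟩;
     ⟨0, 0, 5, 5⟩, ⟨-1, 0, 0, -2⟩, ⟨0, 0, -2, -2⟩;
     ⟨-2, 0, 2, 0⟩, ⟨2, 2, 2, 0⟩, ⟨0, 0, 0, 0⟩]

/-- `40 EE⁻¹ / (1 - ζ)` -/
def MM : Matrix (Fin 3) (Fin 3) (Z5 ℤ) :=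
  !![⟨0, 3, 4, 3⟩, ⟨1, 2, 3, 4⟩, ⟨-4, -4, -10, -2⟩;
     ⟨2, 4, 1, -2⟩, ⟨0, 5, 0, 0⟩, ⟨-2, -4, -6, 2⟩;
     ⟨1, 7, 8, 9⟩, ⟨2, 9, 6, 3⟩, ⟨-6, -12, -18, -4⟩]

/-- the Gram matrix of the columns of `EE` -/
def GG : Matrix (Fin 3) (Fin 3) (Z5 ℤ) :=
  !![⟨32, 0, -16, -16⟩, ⟨0, 0, 0, 0⟩, ⟨-16, 0, 8, 8⟩;
     ⟨0, 0, 0, 0⟩, ⟨16, 0, 0, 0⟩, ⟨-8, 0, 0, 0⟩;
     ⟨-16, 0, 8, 8⟩, ⟨-8, 0, 0, 0⟩, ⟨16, 0, 0, 0⟩]

lemma EE_MM : EE * (lam • MM) = (40 : Z5 ℤ) • (1 : Matrix (Fin 3) (Fin 3) (Z5 ℤ)) := by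
  decide +kernel

lemma MM_EE : (lam • MM) * EE = (40 : Z5 ℤ) • (1 : Matrix (Fin 3) (Fin 3) (Z5 ℤ)) := by
  decide +kernel

/-- the matrix of the Hermitian form -/
def HZ : Matrix (Fin 3) (Fin 3) (Z5 ℤ) := Matrix.diagonal ![1, 1, etaZ]

lemma EE_gram : EEᵀ * HZ * EE.map star = GG := by
  decide +kernel

def NNm : Matrix (Fin 3) (Fin 3) (Z5 ℤ) := Matrix.of NN

lemma NN_EE : NNm * EE.map star = (4 : Z5 ℤ) • EE := by
  decide +kernel

/-- complex version of `EE` -/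
noncomputable def EC : Matrix (Fin 3) (Fin 3) ℂ := EE.map ev
/-- complex version of `GG` -/
noncomputable def GC : Matrix (Fin 3) (Fin 3) ℂ := GG.map ev

/-- `EE` as an element of the general linear group -/
noncomputable def EG : GL (Fin 3) ℂ where
  val := EC
  inv := (1 / 40 : ℂ) • (lam • MM).map ev
  val_inv := by
    have h := congrArg (fun M => Matrix.map M ev) EE_MM
    simp only [Matrix.map_mul] at h
    rw [Matrix.mul_smul, EC, h]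
    ext i j
    simp only [Matrix.smul_apply, Matrix.map_apply, Matrix.one_apply, smul_eq_mul, mul_ite,
      mul_one, mul_zero]
    split_ifs
    · rw [map_ofNat]; norm_num
    · simp
  inv_val := by
    have h := congrArg (fun M => Matrix.map M ev) MM_EE
    simp only [Matrix.map_mul] at h
    rw [Matrix.smul_mul, EC, h]
    ext i j
    simp only [Matrix.smul_apply, Matrix.map_apply, Matrix.one_apply, smul_eq_mul, mul_ite,
      mul_one, mul_zero]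
    split_ifs
    · rw [map_ofNat]; norm_num
    · simp

lemma hF_eq_dot (η : ℂ) (x y : Fin 3 → ℂ) :
    hF η x y = x ⬝ᵥ (Matrix.diagonal ![1, 1, η] *ᵥ star y) := by
  simp [hF, dotProduct, Fin.sum_univ_three, Matrix.mulVec_diagonal]
  ring

lemma star_mulVec' (M : Matrix (Fin 3) (Fin 3) ℂ) (t : Fin 3 → ℂ) :
    star (M *ᵥ t) = (M.map star) *ᵥ star t := by
  funext i
  simp [Matrix.mulVec, dotProduct, star_mul']

lemma dot_trans (M : Matrix (Fin 3) (Fin 3) ℂ) (s w : Fin 3 → ℂ) :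
    (M *ᵥ s) ⬝ᵥ w = s ⬝ᵥ (Mᵀ *ᵥ w) := by
  rw [Matrix.dotProduct_mulVec, Matrix.vecMul_transpose]

lemma EC_gram : ECᵀ * Matrix.diagonal ![1, 1, ev etaZ] * EC.map star = GC := by
  have h := congrArg (fun M => Matrix.map M ev) EE_gram
  simp only [Matrix.map_mul] at h
  rw [GC, ← h]
  have h1 : HZ.map ev = Matrix.diagonal ![1, 1, ev etaZ] := by
    rw [HZ, Matrix.diagonal_map (map_zero ev)]
    congr 1
    funext i
    fin_cases i <;> simp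
  have h2 : (EE.map star).map ev = EC.map star := by
    ext i j; simp [EC, ev_star]
  rw [h1, h2]
  rfl

lemma hF_E (s t : Fin 3 → ℂ) :
    hF (ev etaZ) (EC *ᵥ s) (EC *ᵥ t) = s ⬝ᵥ (GC *ᵥ star t) := by
  rw [hF_eq_dot, star_mulVec', dot_trans, Matrix.mulVec_mulVec, Matrix.mulVec_mulVec, EC_gram]

/-- real-entry matrices over `Z[ζ]` preserving the Gram matrix -/
def W : Subgroup (GL (Fin 3) (Z5 ℤ)) where
  carrier := {A | Matrix.GeneralLinearGroup.map (starRingEnd (Z5 ℤ)) A = A ∧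
    A.valᵀ * GG * A.val = GG}
  one_mem' := by simp
  mul_mem' := by
    rintro A B ⟨hA1, hA2⟩ ⟨hB1, hB2⟩
    refine ⟨by rw [map_mul, hA1, hB1], ?_⟩
    rw [Units.val_mul, Matrix.transpose_mul]
    calc B.valᵀ * A.valᵀ * GG * (A.val * B.val) = B.valᵀ * (A.valᵀ * GG * A.val) * B.val := by
          simp only [Matrix.mul_assoc]
      _ = GG := by rw [hA2, hB2]
  inv_mem' := by
    rintro A ⟨hA1, hA2⟩
    refine ⟨by rw [map_inv, hA1], ?_⟩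
    have h1 : A.val * (A⁻¹).val = 1 := by rw [← Units.val_mul, mul_inv_cancel, Units.val_one]
    have h2 : (A⁻¹).valᵀ * A.valᵀ = 1 := by rw [← Matrix.transpose_mul, h1, Matrix.transpose_one]
    calc (A⁻¹).valᵀ * GG * (A⁻¹).val = (A⁻¹).valᵀ * (A.valᵀ * GG * A.val) * (A⁻¹).val := by rw [hA2]
      _ = ((A⁻¹).valᵀ * A.valᵀ) * GG * (A.val * (A⁻¹).val) := by simp only [Matrix.mul_assoc]
      _ = GG := by rw [h1, h2, Matrix.one_mul, Matrix.mul_one]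

/-- the representation on `ℂ³` -/
noncomputable def rho : GL (Fin 3) (Z5 ℤ) →* GL (Fin 3) ℂ :=
  (MulAut.conj EG).toMonoidHom.comp (Matrix.GeneralLinearGroup.map ev)

lemma rho_val (A : GL (Fin 3) (Z5 ℤ)) :
    (rho A).val = EC * A.val.map ev * (EG⁻¹).val := by
  rfl

lemma rho_EC (A : GL (Fin 3) (Z5 ℤ)) (s : Fin 3 → ℂ) :
    (rho A).val *ᵥ (EC *ᵥ s) = EC *ᵥ (A.val.map ev *ᵥ s) := by
  rw [rho_val, Matrix.mulVec_mulVec, Matrix.mulVec_mulVec, Matrix.mul_assoc]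
  have : (EG⁻¹).val * EC = 1 := EG.inv_val
  rw [this, Matrix.mul_one]

lemma real_of_mem {A : GL (Fin 3) (Z5 ℤ)} (hA : A ∈ W) : (A.val.map ev).map star = A.val.map ev := by
  have h : (Matrix.GeneralLinearGroup.map (starRingEnd (Z5 ℤ)) A).val = A.val := by rw [hA.1]
  ext i j
  have h2 := congrFun (congrFun h i) j
  have h3 : star (A.val i j) = A.val i j := h2
  simp only [Matrix.map_apply]
  rw [← ev_star, h3]

lemma rho_hF {A : GL (Fin 3) (Z5 ℤ)} (hA : A ∈ W) (x y : Fin 3 → ℂ) :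
    hF (ev etaZ) ((rho A).val *ᵥ x) ((rho A).val *ᵥ y) = hF (ev etaZ) x y := by
  obtain ⟨s, rfl⟩ : ∃ s, x = EC *ᵥ s := ⟨(EG⁻¹).val *ᵥ x, by
    rw [Matrix.mulVec_mulVec]
    have : EC * (EG⁻¹).val = 1 := EG.val_inv
    rw [this, Matrix.one_mulVec]⟩
  obtain ⟨t, rfl⟩ : ∃ s, y = EC *ᵥ s := ⟨(EG⁻¹).val *ᵥ y, by
    rw [Matrix.mulVec_mulVec]
    have : EC * (EG⁻¹).val = 1 := EG.val_inv
    rw [this, Matrix.one_mulVec]⟩
  rw [rho_EC, rho_EC, hF_E, hF_E, star_mulVec', real_of_mem hA, dot_trans, Matrix.mulVec_mulVec,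
    Matrix.mulVec_mulVec]
  have h : (A.val.map ev)ᵀ * GC * A.val.map ev = GC := by
    have h := congrArg (fun M => Matrix.map M ev) hA.2
    simp only [Matrix.map_mul] at h
    exact h
  rw [h]

end Pool.Agent.H.MP_c41128_gt
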