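import Mathlib

namespace Pool.Agent.H.MP_c41128_gt

/-- `R[z]/(1+z+z^2+z^3+z^4)`, with `⟨a,b,c,d⟩` standing for `a + b z + c z^2 + d z^3`. -/
@[ext] structure Z5 (R : Type) where
  a : R
  b : R
  c : R
  d : R
deriving DecidableEq

namespace Z5

variable {R : Type} [CommRing R]

instance : Zero (Z5 R) := ⟨⟨0, 0, 0, 0⟩⟩
instance : One (Z5 R) := ⟨⟨1, 0, 0, 0⟩⟩
instance : Add (Z5 R) := ⟨fun x y => ⟨x.a + y.a, x.b + y.b, x.c + y.c, x.d + y.d⟩⟩
instance : Neg (Z5 R) := ⟨fun x => ⟨-x.a, -x.b, -x.c, -x.d⟩⟩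
instance : Sub (Z5 R) := ⟨fun x y => ⟨x.a - y.a, x.b - y.b, x.c - y.c, x.d - y.d⟩⟩
instance : Mul (Z5 R) := ⟨fun x y =>
  ⟨x.a * y.a + x.c * y.d + x.d * y.c - (x.b * y.d + x.c * y.c + x.d * y.b),
   x.a * y.b + x.b * y.a + x.d * y.d - (x.b * y.d + x.c * y.c + x.d * y.b),
   x.a * y.c + x.b * y.b + x.c * y.a - (x.b * y.d + x.c * y.c + x.d * y.b),
   x.a * y.d + x.b * y.c + x.c * y.b + x.d * y.a - (x.b * y.d + x.c * y.c + x.d * y.b)⟩⟩

@[simp] lemma zero_a : (0 : Z5 R).a = 0 := rfl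
@[simp] lemma zero_b : (0 : Z5 R).b = 0 := rfl
@[simp] lemma zero_c : (0 : Z5 R).c = 0 := rfl
@[simp] lemma zero_d : (0 : Z5 R).d = 0 := rfl
@[simp] lemma one_a : (1 : Z5 R).a = 1 := rfl
@[simp] lemma one_b : (1 : Z5 R).b = 0 := rfl
@[simp] lemma one_c : (1 : Z5 R).c = 0 := rfl
@[simp] lemma one_d : (1 : Z5 R).d = 0 := rfl
@[simp] lemma add_a (x y : Z5 R) : (x + y).a = x.a + y.a := rfl
@[simp] lemma add_b (x y : Z5 R) : (x + y).b = x.b + y.b := rfl
@[simp] lemma add_c (x y : Z5 R) : (x + y).c = x.c + y.c := rfl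
@[simp] lemma add_d (x y : Z5 R) : (x + y).d = x.d + y.d := rfl
@[simp] lemma sub_a (x y : Z5 R) : (x - y).a = x.a - y.a := rfl
@[simp] lemma sub_b (x y : Z5 R) : (x - y).b = x.b - y.b := rfl
@[simp] lemma sub_c (x y : Z5 R) : (x - y).c = x.c - y.c := rfl
@[simp] lemma sub_d (x y : Z5 R) : (x - y).d = x.d - y.d := rfl
@[simp] lemma neg_a (x : Z5 R) : (-x).a = -x.a := rfl
@[simp] lemma neg_b (x : Z5 R) : (-x).b = -x.b := rfl
@[simp] lemma neg_c (x : Z5 R) : (-x).c = -x.c := rfl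
@[simp] lemma neg_d (x : Z5 R) : (-x).d = -x.d := rfl
@[simp] lemma mul_a (x y : Z5 R) : (x * y).a =
  x.a * y.a + x.c * y.d + x.d * y.c - (x.b * y.d + x.c * y.c + x.d * y.b) := rfl
@[simp] lemma mul_b (x y : Z5 R) : (x * y).b =
  x.a * y.b + x.b * y.a + x.d * y.d - (x.b * y.d + x.c * y.c + x.d * y.b) := rfl
@[simp] lemma mul_c (x y : Z5 R) : (x * y).c =
  x.a * y.c + x.b * y.b + x.c * y.a - (x.b * y.d + x.c * y.c + x.d * y.b) := rfl
@[simp] lemma mul_d (x y : Z5 R) : (x * y).d =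
  x.a * y.d + x.b * y.c + x.c * y.b + x.d * y.a - (x.b * y.d + x.c * y.c + x.d * y.b) := rfl
instance : CommRing (Z5 R) where
  add_assoc x y z := by ext <;> simp <;> ring
  zero_add x := by ext <;> simp
  add_zero x := by ext <;> simp
  add_comm x y := by ext <;> simp <;> ring
  neg_add_cancel x := by ext <;> simp
  sub_eq_add_neg x y := by ext <;> simp <;> ring
  mul_assoc x y z := by ext <;> simp <;> ring
  one_mul x := by ext <;> simp
  mul_one x := by ext <;> simp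
  left_distrib x y z := by ext <;> simp <;> ring
  right_distrib x y z := by ext <;> simp <;> ring
  mul_comm x y := by ext <;> simp <;> ring
  zero_mul x := by ext <;> simp
  mul_zero x := by ext <;> simp
  nsmul n x := ⟨n * x.a, n * x.b, n * x.c, n * x.d⟩
  nsmul_zero x := by ext <;> change ((0 : ℕ) : R) * _ = 0 <;> simp
  nsmul_succ n x := by
    ext <;> change ((n + 1 : ℕ) : R) * _ = (n : R) * _ + _ <;> push_cast <;> ring
  zsmul n x := ⟨n * x.a, n * x.b, n * x.c, n * x.d⟩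
  zsmul_zero' x := by ext <;> change ((0 : ℤ) : R) * _ = 0 <;> simp
  zsmul_succ' n x := by
    ext <;> change (((n.succ : ℕ) : ℤ) : R) * _ = (((n : ℕ) : ℤ) : R) * _ + _ <;>
      push_cast <;> ring
  zsmul_neg' n x := by
    ext <;> change ((Int.negSucc n : ℤ) : R) * _ = -((((n.succ : ℕ) : ℤ) : R) * _) <;>
      push_cast <;> ring
  natCast n := ⟨n, 0, 0, 0⟩
  intCast n := ⟨n, 0, 0, 0⟩
  natCast_zero := Z5.ext (by simp) rfl rfl rfl
  natCast_succ n := Z5.ext (by simp) (by simp) (by simp) (by simp)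
  intCast_ofNat n := Z5.ext (by change (((n : ℕ) : ℤ) : R) = (n : R); simp) rfl rfl rfl
  intCast_negSucc n := Z5.ext
    (by change ((Int.negSucc n : ℤ) : R) = -(((n + 1 : ℕ)) : R); push_cast; ring)
    (by change (0 : R) = -0; simp) (by change (0 : R) = -0; simp) (by change (0 : R) = -0; simp)

@[simp] lemma natCast_a (n : ℕ) : (n : Z5 R).a = n := rfl
@[simp] lemma natCast_b (n : ℕ) : (n : Z5 R).b = 0 := rfl
@[simp] lemma natCast_c (n : ℕ) : (n : Z5 R).c = 0 := rfl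
@[simp] lemma natCast_d (n : ℕ) : (n : Z5 R).d = 0 := rfl
@[simp] lemma intCast_a (n : ℤ) : (n : Z5 R).a = n := rfl
@[simp] lemma intCast_b (n : ℤ) : (n : Z5 R).b = 0 := rfl
@[simp] lemma intCast_c (n : ℤ) : (n : Z5 R).c = 0 := rfl
@[simp] lemma intCast_d (n : ℤ) : (n : Z5 R).d = 0 := rfl
@[simp] lemma nsmul_a (n : ℕ) (x : Z5 R) : (n • x).a = n * x.a := rfl
@[simp] lemma nsmul_b (n : ℕ) (x : Z5 R) : (n • x).b = n * x.b := rfl
@[simp] lemma nsmul_c (n : ℕ) (x : Z5 R) : (n • x).c = n * x.c := rfl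
@[simp] lemma nsmul_d (n : ℕ) (x : Z5 R) : (n • x).d = n * x.d := rfl
@[simp] lemma zsmul_a (n : ℤ) (x : Z5 R) : (n • x).a = n * x.a := rfl
@[simp] lemma zsmul_b (n : ℤ) (x : Z5 R) : (n • x).b = n * x.b := rfl
@[simp] lemma zsmul_c (n : ℤ) (x : Z5 R) : (n • x).c = n * x.c := rfl
@[simp] lemma zsmul_d (n : ℤ) (x : Z5 R) : (n • x).d = n * x.d := rfl

instance : StarRing (Z5 R) where
  star x := ⟨x.a - x.b, -x.b, x.d - x.b, x.c - x.b⟩
  star_involutive x := by ext <;> simp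
  star_mul x y := by ext <;> simp <;> ring
  star_add x y := by ext <;> simp <;> ring

@[simp] lemma star_a (x : Z5 R) : (star x).a = x.a - x.b := rfl
@[simp] lemma star_b (x : Z5 R) : (star x).b = -x.b := rfl
@[simp] lemma star_c (x : Z5 R) : (star x).c = x.d - x.b := rfl
@[simp] lemma star_d (x : Z5 R) : (star x).d = x.c - x.b := rfl

@[simp] lemma ofNat_a (n : ℕ) [n.AtLeastTwo] : (ofNat(n) : Z5 R).a = OfNat.ofNat n := rfl
@[simp] lemma ofNat_b (n : ℕ) [n.AtLeastTwo] : (ofNat(n) : Z5 R).b = 0 := rfl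
@[simp] lemma ofNat_c (n : ℕ) [n.AtLeastTwo] : (ofNat(n) : Z5 R).c = 0 := rfl
@[simp] lemma ofNat_d (n : ℕ) [n.AtLeastTwo] : (ofNat(n) : Z5 R).d = 0 := rfl

/-- the map induced by a ring map of the coefficients -/
def map {S : Type} [CommRing S] (f : R →+* S) : Z5 R →+* Z5 S where
  toFun x := ⟨f x.a, f x.b, f x.c, f x.d⟩
  map_one' := by ext <;> simp
  map_zero' := by ext <;> simp
  map_add' x y := by ext <;> simp
  map_mul' x y := by ext <;> simp

/-- evaluation at a root of `1+z+z^2+z^3+z^4` -/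
def evalAt {K : Type} [CommRing K] (z : K) (hz : 1 + z + z ^ 2 + z ^ 3 + z ^ 4 = 0) :
    Z5 ℤ →+* K where
  toFun x := x.a + x.b * z + x.c * z ^ 2 + x.d * z ^ 3
  map_one' := by simp
  map_zero' := by simp
  map_add' x y := by simp; ring
  map_mul' x y := by
    simp only [mul_a, mul_b, mul_c, mul_d]
    push_cast
    linear_combination (-((x.b * y.d + x.c * y.c + x.d * y.b) +
      (x.c * y.d + x.d * y.c) * (z - 1) + x.d * y.d * z * (z - 1)) : K) * hz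

lemma evalAt_apply {K : Type} [CommRing K] (z : K) (hz : 1 + z + z ^ 2 + z ^ 3 + z ^ 4 = 0)
    (x : Z5 ℤ) : evalAt z hz x = x.a + x.b * z + x.c * z ^ 2 + x.d * z ^ 3 := rfl

/-- `A` coefficient of `x * star x = A + B φ`, `φ = -(z^2+z^3)`. -/
def nA (x : Z5 ℤ) : ℤ := x.a ^ 2 + x.b ^ 2 + x.c ^ 2 + x.d ^ 2 - (x.a * x.b + x.b * x.c + x.c * x.d)
/-- `B` coefficient of `x * star x = A + B φ`. -/
def nB (x : Z5 ℤ) : ℤ := (x.a * x.b + x.b * x.c + x.c * x.d) - (x.a * x.c + x.b * x.d + x.a * x.d)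

lemma mul_star_self (x : Z5 ℤ) : x * star x = ⟨nA x, 0, - nB x, - nB x⟩ := by
  ext <;> simp [nA, nB] <;> ring

lemma sum_nA_nB (x : Z5 ℤ) : 2 * (2 * nA x + nB x) =
    x.a ^ 2 + x.b ^ 2 + x.c ^ 2 + x.d ^ 2 + (x.a - x.b) ^ 2 + (x.a - x.c) ^ 2 + (x.a - x.d) ^ 2
      + (x.b - x.c) ^ 2 + (x.b - x.d) ^ 2 + (x.c - x.d) ^ 2 := by
  simp [nA, nB]; ring

end Z5

end Pool.Agent.H.MP_c41128_gt
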