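import Pool.Agent.H.MP_c41128_gt.Plane

namespace Pool.Agent.H.MP_c41128_gt

open Matrix

lemma finite_Z5 (C : ℝ) : {z : Z5 ℤ | ‖ev z‖ ≤ C ∧ ‖ev2 z‖ ≤ C}.Finite := by
  obtain ⟨N, hN⟩ := exists_nat_gt (4 * C ^ 2 + 1)
  have hfin : (Set.Icc (-(N : ℤ)) N).Finite := Set.finite_Icc _ _
  refine (((hfin.prod hfin).prod (hfin.prod hfin)).preimage
    (f := fun z : Z5 ℤ => ((z.a, z.b), (z.c, z.d))) ?_).subset ?_
  · rintro x - y - h
    simp only [Prod.mk.injEq] at h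
    ext
    · exact h.1.1
    · exact h.1.2
    · exact h.2.1
    · exact h.2.2
  · rintro z ⟨h1, h2⟩
    have e1 := ev_norm z
    have e2 := ev2_norm z
    have g1 : ‖ev z‖ ^ 2 ≤ C ^ 2 := by gcongr
    have g2 : ‖ev2 z‖ ^ 2 ≤ C ^ 2 := by gcongr
    have hs := Z5.sum_nA_nB z
    have hs' : (2 * (2 * Z5.nA z + Z5.nB z) : ℝ) = z.a ^ 2 + z.b ^ 2 + z.c ^ 2 + z.d ^ 2 +
        (z.a - z.b) ^ 2 + (z.a - z.c) ^ 2 + (z.a - z.d) ^ 2 + (z.b - z.c) ^ 2 + (z.b - z.d) ^ 2 +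
        (z.c - z.d) ^ 2 := by exact_mod_cast hs
    have key : ∀ n : ℤ, (n : ℝ) ^ 2 ≤ 4 * C ^ 2 → n ∈ Set.Icc (-(N : ℤ)) N := by
      intro n hn
      have h3 : (n : ℝ) ≤ N := by nlinarith
      have h4 : (-(N : ℝ)) ≤ n := by nlinarith
      exact ⟨by exact_mod_cast h4, by exact_mod_cast h3⟩
    refine ⟨⟨key _ ?_, key _ ?_⟩, ⟨key _ ?_, key _ ?_⟩⟩ <;>
      nlinarith [sq_nonneg (z.a : ℝ), sq_nonneg (z.b : ℝ), sq_nonneg (z.c : ℝ), sq_nonneg (z.d : ℝ),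
        sq_nonneg ((z.a : ℝ) - z.b), sq_nonneg ((z.a : ℝ) - z.c), sq_nonneg ((z.a : ℝ) - z.d),
        sq_nonneg ((z.b : ℝ) - z.c), sq_nonneg ((z.b : ℝ) - z.d), sq_nonneg ((z.c : ℝ) - z.d)]

lemma finite_Z5_vec (C : ℝ) :
    {u : Fin 3 → Z5 ℤ | ∀ i, ‖ev (u i)‖ ≤ C ∧ ‖ev2 (u i)‖ ≤ C}.Finite := by
  have := Set.Finite.pi (ι := Fin 3) (t := fun _ => {z : Z5 ℤ | ‖ev z‖ ≤ C ∧ ‖ev2 z‖ ≤ C})
    (fun _ => finite_Z5 C)
  refine this.subset ?_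
  intro u hu i _
  exact hu i

/-- Sublevel sets of `u ↦ |h(x,u)|` on lattice vectors of fixed non-positive norm are finite. -/
lemma finite_sublevel {x : Fin 3 → ℂ} (hx : (hF ((1 - phi : ℝ) : ℂ) x x).re < 0)
    {n : Z5 ℤ} (hn : (ev n).re ≤ 0) (C : ℝ) :
    {u : Fin 3 → Z5 ℤ | hF etaZ u u = n ∧ ‖hF ((1 - phi : ℝ) : ℂ) x (ev ∘ u)‖ ≤ C}.Finite := by
  have hphi := lt_phi
  have hphi2 := phi_lt
  set r := phi - 1 with hr
  have hr0 : 0 < r := by linarith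
  set X := Real.sqrt (‖x 0‖ ^ 2 + ‖x 1‖ ^ 2) with hX
  have hX2 : X ^ 2 = ‖x 0‖ ^ 2 + ‖x 1‖ ^ 2 := Real.sq_sqrt (by positivity)
  have hX0 : 0 ≤ X := Real.sqrt_nonneg _
  set a := Real.sqrt r with ha
  have ha2 : a ^ 2 = r := Real.sq_sqrt hr0.le
  have ha0 : 0 < a := Real.sqrt_pos.mpr hr0
  rw [hF_self, Complex.ofReal_re] at hx
  have hXx : X < a * ‖x 2‖ := by
    apply lt_of_pow_lt_pow_left₀ 2 (by positivity)
    rw [mul_pow, ha2, hX2]; linarith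
  set M := C / (a * (a * ‖x 2‖ - X)) with hM
  have hden : 0 < a * (a * ‖x 2‖ - X) := by
    apply mul_pos ha0; linarith
  set N2 := Real.sqrt (ev2 n).re with hN2
  refine (finite_Z5_vec (|M| + N2)).subset ?_
  rintro u ⟨hu1, hu2⟩
  have h1 : hF (ev etaZ) (ev ∘ u) (ev ∘ u) = ev n := by rw [map_hF ev_star, hu1]
  have h2 : hF (ev2 etaZ) (ev2 ∘ u) (ev2 ∘ u) = ev2 n := by rw [map_hF ev2_star, hu1]
  rw [ev_eta, hF_self] at h1
  rw [ev2_eta, hF_self] at h2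
  have h1' := congrArg Complex.re h1
  have h2' := congrArg Complex.re h2
  rw [Complex.ofReal_re] at h1' h2'
  set u0 := (ev ∘ u) 0
  set u1 := (ev ∘ u) 1
  set u2 := (ev ∘ u) 2
  set U := Real.sqrt (‖u0‖ ^ 2 + ‖u1‖ ^ 2) with hU
  have hU2 : U ^ 2 = ‖u0‖ ^ 2 + ‖u1‖ ^ 2 := Real.sq_sqrt (by positivity)
  have hU0 : 0 ≤ U := Real.sqrt_nonneg _
  have hUu : U ≤ a * ‖u2‖ := by
    apply le_of_sq_le_sq _ (by positivity)
    rw [mul_pow, ha2, hU2]; linarith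
  -- the main inequality
  have h3 : r * (‖x 2‖ * ‖u2‖) ≤ X * U + C := by
    have e1 : ((r : ℝ) : ℂ) * (x 2 * star u2) = (x 0 * star u0 + x 1 * star u1) -
        hF ((1 - phi : ℝ) : ℂ) x (ev ∘ u) := by
      simp only [hF, hr]; push_cast; ring
    have e2 : ‖((r : ℝ) : ℂ) * (x 2 * star u2)‖ = r * (‖x 2‖ * ‖u2‖) := by
      rw [norm_mul, norm_mul, Complex.norm_real, norm_star, Real.norm_of_nonneg hr0.le]
    have e3 : ‖x 0 * star u0 + x 1 * star u1‖ ≤ X * U := by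
      apply le_of_sq_le_sq _ (by positivity)
      rw [mul_pow, hX2, hU2]
      exact cs2 _ _ _ _
    rw [← e2, e1]
    exact (norm_sub_le _ _).trans (add_le_add e3 hu2)
  have h4 : ‖u2‖ ≤ M := by
    rw [hM, le_div_iff₀ hden]
    have e4 : X * U ≤ X * (a * ‖u2‖) := mul_le_mul_of_nonneg_left hUu hX0
    have e5 : ‖u2‖ * (a * (a * ‖x 2‖ - X)) = a ^ 2 * (‖x 2‖ * ‖u2‖) - X * (a * ‖u2‖) := by ring
    rw [e5, ha2]
    linarith
  have hM0 : 0 ≤ M := (norm_nonneg _).trans h4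
  have ha1 : a ≤ 1 := by
    exact Real.sqrt_le_one.mpr (by linarith)
  have h5 : U ≤ M := by
    have : a * ‖u2‖ ≤ 1 * ‖u2‖ := by gcongr
    linarith
  have hN0 : 0 ≤ N2 := Real.sqrt_nonneg _
  have hle : ∀ z : ℂ, ‖z‖ ^ 2 ≤ U ^ 2 → ‖z‖ ≤ M := fun z hz =>
    (le_of_sq_le_sq hz hU0).trans h5
  have hn2 : 0 ≤ (ev2 n).re := by rw [← h2']; positivity
  have hle2 : ∀ z : ℂ, ‖z‖ ^ 2 ≤ (ev2 n).re → ‖z‖ ≤ N2 := fun z hz =>
    Real.le_sqrt_of_sq_le hz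
  have habs : |M| = M := abs_of_nonneg hM0
  rw [Set.mem_ofPred_eq]
  intro i
  rw [habs]
  fin_cases i
  · constructor
    · have : ‖u0‖ ≤ M := hle _ (by rw [hU2]; linarith [sq_nonneg ‖u1‖])
      exact this.trans (by linarith)
    · have : ‖(ev2 ∘ u) 0‖ ≤ N2 := hle2 _ (by
        rw [← h2']
        have e6 : 0 ≤ phi * ‖(ev2 ∘ u) 2‖ ^ 2 := by positivity
        have e8 := sq_nonneg ‖(ev2 ∘ u) 1‖
        linarith)
      exact this.trans (by linarith)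
  · constructor
    · have : ‖u1‖ ≤ M := hle _ (by rw [hU2]; linarith [sq_nonneg ‖u0‖])
      exact this.trans (by linarith)
    · have : ‖(ev2 ∘ u) 1‖ ≤ N2 := hle2 _ (by
        rw [← h2']
        have e6 : 0 ≤ phi * ‖(ev2 ∘ u) 2‖ ^ 2 := by positivity
        have e8 := sq_nonneg ‖(ev2 ∘ u) 0‖
        linarith)
      exact this.trans (by linarith)
  · constructor
    · exact h4.trans (by linarith)
    · have : ‖(ev2 ∘ u) 2‖ ≤ N2 := hle2 _ (by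
        rw [← h2']
        have e6 : ‖(ev2 ∘ u) 2‖ ^ 2 ≤ phi * ‖(ev2 ∘ u) 2‖ ^ 2 :=
          le_mul_of_one_le_left (sq_nonneg _) (by linarith)
        have e7 := sq_nonneg ‖(ev2 ∘ u) 0‖
        have e8 := sq_nonneg ‖(ev2 ∘ u) 1‖
        linarith)
      exact this.trans (by linarith)

end Pool.Agent.H.MP_c41128_gt
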